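import Mathlib
import Pool.Agent.MP_a2d820_lc.h70.Stage

/-!
Rows that store a bit as the parity of polynomially many trees, and the statement of one diagonal
stage.
-/

set_option autoImplicit false

namespace Pool.Agent.MP_a2d820_lc.h22p

open Finset Pool.Agent.MP_a2d820_lc.h69 Pool.Agent.MP_a2d820_lc.h31u Pool.Agent.PolyT
  Pool.Agent.H82 N487b59b3 Function
open Pool.Agent.MP_a2d820_lc.h70 (Fn Agl Ac nv_const)

/-- The name of the root number `j` in a row of length `n`. -/
def rt (n j : ℕ) : List Bool := dig (List.replicate n false) j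

@[simp] theorem length_rt (n j : ℕ) : (rt n j).length = n := by simp [rt]

theorem rt_inj {n i j : ℕ} (hi : i < n) (hj : j < n) (h : rt n i = rt n j) : i = j := by
  have key : ∀ j < n, ofBits (rt n j) = j := fun j hj =>
    ofBits_dig (by simpa using hj.trans Nat.lt_two_pow_self)
  rw [← key i hi, h, key j hj]

open Classical in
/-- The parity of the number of true roots among the first `n` trees of height `k`. -/
noncomputable def cd (n k : ℕ) (a : Lang) : Bool :=
  decide (Odd #{j ∈ range n | nv n k a (rt n j) = true})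

theorem nv_suffix {n i : ℕ} {a a' : Lang} {j : List Bool}
    (h : ∀ w : List Bool, w.length = i * n → a (w ++ j) = a' (w ++ j)) :
    nv n i a j = nv n i a' j := by
  induction i generalizing j with
  | zero => exact h [] (by simp)
  | succ i ih =>
    simp only [nv, decide_eq_decide]
    refine exists_congr fun w => and_congr_right fun hw => ?_
    rw [ih fun w' hw' => ?_]
    rw [← List.append_assoc]
    exact h _ (by simp [hw, hw', Nat.succ_mul])

/-- Leaves that make the first root equal to `b` and all other roots false. -/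
def pat (n k : ℕ) (b : Bool) : Lang := fun j =>
  xor (b && decide (j.drop (k * n) = rt n 0)) (decide (Odd k))

theorem nv_pat (n k : ℕ) (b : Bool) (j : List Bool) :
    nv n k (pat n k b) j = (b && decide (j = rt n 0)) := by
  rw [nv_suffix (a' := fun _ => xor (b && decide (j = rt n 0)) (decide (Odd k))) fun w hw => by
    rw [pat, List.drop_left' hw], nv_const]
  simp

theorem cd_pat {n : ℕ} (hn : 1 ≤ n) (k : ℕ) (b : Bool) : cd n k (pat n k b) = b := by
  classical
  simp only [cd, nv_pat]
  cases b
  · simp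
  · have : ({j ∈ range n | (true && decide (rt n j = rt n 0)) = true} : Finset ℕ) = {0} := by
      ext j
      simp only [mem_filter, mem_range, Bool.true_and, decide_eq_true_eq, mem_singleton]
      exact ⟨fun h => rt_inj h.1 hn h.2, fun h => by subst h; exact ⟨hn, rfl⟩⟩
    rw [this]
    simp

theorem col_ad (u j : List Bool) (b : ℕ) : third (sel true (sel false (ad u j b))) = j := by
  simp [ad, enc_pair, sel_pair, third_enc]

section
variable (c : ℕ → ℕ) (lv β : List Bool → ℕ) (mu nu : List Bool → Fn (List Bool))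

/-- The rows in `J` store the right bit. -/
def Legit (J : Set (List Bool)) (A : Lang) : Prop :=
  ∀ u ∈ J, cd u.length (lv u) (fun j => A (ad u j 0)) = mu u A

/-- The two functions of a row are small local circuits. -/
def Small (u : List Bool) : Prop :=
  2 ≤ β u ∧ β u ≤ u.length ∧ β u ^ c (lv u) ≤ u.length ∧ mu u ∈ Ac (β u) (lv u + 1) ∧
    nu u ∈ Ac (β u) (lv u + 1) ∧
    ∀ A A' : Lang, (∀ v, v.length < β u → A v = A' v) → mu u A = mu u A' ∧ nu u A = nu u A'

variable {c lv β mu nu}

theorem Small.loc {u : List Bool} (h : Small c lv β mu nu u) {m : ℕ} (hm : β u ≤ m) {A A' : Lang}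
    (a : Agl m A A') : mu u A = mu u A' ∧ nu u A = nu u A' :=
  h.2.2.2.2.2 A A' fun v hv => a v (by have := lev_le v; omega)

theorem Small.legit {u : List Bool} (h : Small c lv β mu nu u) {m : ℕ} (hm : u.length < m)
    {A A' : Lang} (a : Agl m A A') (e : cd u.length (lv u) (fun j => A (ad u j 0)) = mu u A) :
    cd u.length (lv u) (fun j => A' (ad u j 0)) = mu u A' := by
  rw [← (h.loc (h.2.1.trans hm.le) a).1, ← e]
  exact congrArg _ (funext fun j => (a _ (by simpa using hm)).symm)

/-- All active rows in a set `J` of long rows can be made right without touching the others. -/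
theorem complete' {J : Set (List Bool)} (hS : ∀ u ∈ J, Small c lv β mu nu u) (A : Lang) :
    ∃ A', (∀ s, (¬∃ u ∈ J, ∃ j, s = ad u j 0) → A' s = A s) ∧ Legit lv mu J A' := by
  classical
  let F : List Bool → Lang → Bool := fun s O =>
    if ∃ u ∈ J, ∃ j, s = ad u j 0 then
      pat (row s).length (lv (row s)) (mu (row s) O) (third (sel true (sel false s))) else A s
  refine ⟨fix F, fun s hs => by rw [fix]; exact if_neg hs, fun u hu => ?_⟩
  have h2 := hS u hu
  refine (congrArg _ (funext fun j => ?_)).trans (cd_pat (by have := h2.1; have := h2.2.1; omega) _ _)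
  rw [fix]
  simp only [F, row_ad]
  rw [if_pos ⟨u, hu, j, rfl⟩, (h2.2.2.2.2.2 _ (fix F) fun v hv => if_pos ?_).1]
  · rw [col_ad]
  · exact hv.trans_le (h2.2.1.trans (le_length_ad _ _ _))

theorem complete {Act : Set (List Bool)} (hS : ∀ u ∈ Act, Small c lv β mu nu u) (A : Lang) (m : ℕ)
    (hA : Legit lv mu {u ∈ Act | u.length < m} A) : ∃ A', Agl m A A' ∧ Legit lv mu Act A' := by
  obtain ⟨A', h1, h2⟩ := complete' (J := {u ∈ Act | m ≤ u.length}) (fun u hu => hS u hu.1) A
  have h3 : Agl m A A' := fun s hs => (h1 s fun ⟨u, hu, j, e⟩ => by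
    rw [e, lev_ad] at hs
    exact absurd hu.2 (by omega)).symm
  refine ⟨A', h3, fun u hu => ?_⟩
  by_cases h : u.length < m
  · exact (hS u hu).legit h h3 (hA u ⟨hu, h⟩)
  · exact h2 u ⟨hu, by omega⟩

end

/-- One diagonal stage. -/
def DiagStmt : Prop :=
  ∃ c : ℕ → ℕ, ∀ K d e : ℕ, ∀ᶠ n in Filter.atTop,
    ∀ (lv β : List Bool → ℕ) (mu nu : List Bool → Fn (List Bool)) (Act : Set (List Bool))
      (A₀ : Lang) (f : Fn (List Bool)),
      (∀ u ∈ Act, Small c lv β mu nu u ∧ lv u ≤ K) →
      (∀ l b, ∃ I : Finset (List Bool), I.card ≤ (K + 1) * 2 ^ b ∧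
        ∀ u ∈ Act, u.length = l → β u ≤ b → u ∈ I) →
      (∀ A, Agl n A₀ A → Legit lv mu Act A → ∀ u ∈ Act, nu u A = !mu u A) →
      Legit lv mu Act A₀ → List.replicate n false ∉ Act → f ∈ Ac (n ^ e) d →
      (∀ A A' : Lang, (∀ v, v.length < n ^ e → A v = A' v) → f A = f A') →
      ∃ A, Agl n A₀ A ∧ Legit lv mu Act A ∧
        f A ≠ nv n (d + 1) (fun j => A (ad (List.replicate n false) j 0)) (rt n 0)

end Pool.Agent.MP_a2d820_lc.h22p
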