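import Pool.Agent.MP_a2d820_lc.h22.Wrap
import Pool.Agent.MP_a2d820_lc.h31p.Base
import Pool.Agent.MP_a2d820_lc.h31p.Conv
import Pool.Agent.MP_a2d820_lc.h31p.Core
import Pool.Agent.MP_a2d820_lc.h31p.Fill
import Pool.Agent.MP_a2d820_lc.h31p.For
import Pool.Agent.MP_a2d820_lc.h31p.Gate
import Pool.Agent.MP_a2d820_lc.h31p.Ind
import Pool.Agent.MP_a2d820_lc.h31p.Peel
import Pool.Agent.MP_a2d820_lc.h31p.Pot
import Pool.Agent.MP_a2d820_lc.h31p.Round
import Pool.Agent.MP_a2d820_lc.h31p.Sparse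
import Pool.Agent.MP_a2d820_lc.h31p.Step
import Pool.Agent.MP_a2d820_lc.h31p.Up
import Pool.Agent.MP_a2d820_lc.h31p.Zero

/-!
All blocks together.
-/

set_option autoImplicit false

namespace Pool.Agent.MP_a2d820_lc.h22w

open Pool.Agent.MP_a2d820_lc.h69 Pool.Agent.MP_a2d820_lc.h31p

theorem exists_all : ∃ A : Lang,
    (∀ k, RelSigma A (k + 1) ∩ {L | (fun x => !L x) ∈ RelSigma A (k + 1)} =
        {L | ∃ B ∈ RelSigma A k, L ∈ RelP (join A B)} ∧
      {L | ∃ B ∈ RelSigma A k, L ∈ RelP (join A B)} = {L | ∃ C ∈ RelSigma A k, L ∈ h22.RelTT C}) ∧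
    (∀ k, ∃ L ∈ RelSigma A (k + 1), L ∉ RelSigma A k) ∧
    ∃ L ∈ RelPSPACE A, ∀ k, L ∉ RelSigma A k :=
  have hR := roundS upS peelS zeroS sparseS parS
  finalW (coreS (baseS hR circS (legS fillS) forS)
    (stepS hR (convS (gateS potS indS) upS zeroS sparseS parS) circS (legS fillS) forS) fillS)

end Pool.Agent.MP_a2d820_lc.h22w
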