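import Pool.Agent.MP_a2d820_lc.h22.Wrap2
import Pool.Agent.MP_a2d820_lc.h31p.Base2
import Pool.Agent.MP_a2d820_lc.h31p.Conv
import Pool.Agent.MP_a2d820_lc.h31p.Fill
import Pool.Agent.MP_a2d820_lc.h31p.For
import Pool.Agent.MP_a2d820_lc.h31p.Gate
import Pool.Agent.MP_a2d820_lc.h31p.Ind
import Pool.Agent.MP_a2d820_lc.h31p.Leg2
import Pool.Agent.MP_a2d820_lc.h31p.Peel
import Pool.Agent.MP_a2d820_lc.h31p.Pot
import Pool.Agent.MP_a2d820_lc.h31p.Round
import Pool.Agent.MP_a2d820_lc.h31p.Sparse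
import Pool.Agent.MP_a2d820_lc.h31p.Step2
import Pool.Agent.MP_a2d820_lc.h31p.Up
import Pool.Agent.MP_a2d820_lc.h31p.Zero

/-!
All blocks together, for pairs of disjoint sets.
-/

set_option autoImplicit false

namespace Pool.Agent.MP_a2d820_lc.h22v

open Pool.Agent.MP_a2d820_lc.h31p

theorem core_all : Core2Stmt :=
  have hR := roundS upS peelS zeroS sparseS parS
  core2S (base2S hR circS (leg2S fillS) forS)
    (step2S hR (convS (gateS potS indS) upS zeroS sparseS parS) circS (leg2S fillS) forS) fillS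

theorem diag_all : ∃ c, DiagV c := diagV core_all

end Pool.Agent.MP_a2d820_lc.h22v
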