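import Mathlib
import Pool.Agent.MP_a2d820_lc.h31u.Final

/-!
Monotone systems of regions with random keys: walks that hit many keys are rare.
-/

set_option autoImplicit false

namespace Pool.Agent.MP_a2d820_lc.h22

open Finset Pool.Agent.MP_a2d820_lc.h31u

variable {Y ι : Type} {Key : ι → Type}

/-- Which regions are switched on, given the set of true base variables and the keys. -/
abbrev Acc (Y : Type) {ι : Type} (Key : ι → Type) := Finset Y → (∀ R, Key R) → ι → Prop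

open Classical in
/-- The bits that are visible at a configuration. -/
noncomputable def bits (acc : Acc Y Key) (c : Finset Y) (κ : ∀ R, Key R) :
    (Σ R, Key R) → Bool := fun l => decide (κ l.1 = l.2 ∧ acc c κ l.1)

/-- More true variables switch on more regions. -/
def Mono (acc : Acc Y Key) : Prop := ∀ κ c c' R, c ⊆ c' → acc c κ R → acc c' κ R

/-- Only the keys of regions that are switched on matter. -/
def Loc (acc : Acc Y Key) : Prop :=
  ∀ c κ κ', (∀ R, acc c κ R → κ' R = κ R) → ∀ R, acc c κ' R ↔ acc c κ R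

theorem bits_true {acc : Acc Y Key} {c : Finset Y} {κ : ∀ R, Key R} {l : Σ R, Key R} :
    bits acc c κ l = true ↔ κ l.1 = l.2 ∧ acc c κ l.1 := by
  simp [bits]

theorem Loc.bits {acc : Acc Y Key} (h : Loc acc) {c : Finset Y} {κ κ' : ∀ R, Key R}
    (hκ : ∀ R, acc c κ R → κ' R = κ R) : bits acc c κ' = bits acc c κ := by
  funext l
  rw [Bool.eq_iff_iff, bits_true, bits_true, h c κ κ' hκ]
  exact and_congr_left fun ha => by rw [hκ _ ha]

variable [DecidableEq Y] [DecidableEq ι]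

/-- Walks that add single variables or hit the key of a region that is still off. -/
def Walk (acc : Acc Y Key) (Ds : ((Σ R, Key R) → Bool) → Finset (Σ R, Key R)) (w : ι → ℕ)
    (κ : ∀ R, Key R) : ℕ → Finset Y → ℕ → Finset ι → Prop
  | 0, _, u, S => u = 0 ∧ S = ∅
  | N + 1, e, u, S => (∃ y u', u = u' + 1 ∧ Walk acc Ds w κ N (insert y e) u' S) ∨
      ∃ l ∈ Ds (bits acc e κ), ∃ X : Finset Y, κ l.1 = l.2 ∧ ¬acc e κ l.1 ∧ X.card ≤ w l.1 ∧
        l.1 ∈ S ∧ Walk acc Ds w κ N (e ∪ X) u (S.erase l.1)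

variable {acc : Acc Y Key} {Ds : ((Σ R, Key R) → Bool) → Finset (Σ R, Key R)} {w : ι → ℕ}

theorem Walk.off (hM : Mono acc) {κ : ∀ R, Key R} {N : ℕ} {e : Finset Y} {u : ℕ} {S : Finset ι}
    (h : Walk acc Ds w κ N e u S) : ∀ R ∈ S, ¬acc e κ R := by
  induction N generalizing e u S with
  | zero =>
    obtain ⟨-, rfl⟩ := h
    simp
  | succ N ih =>
    rcases h with ⟨y, u', -, h⟩ | ⟨l, -, X, -, h1, -, -, h⟩
    · exact fun R hR ha => ih h R hR (hM _ _ _ _ (subset_insert _ _) ha)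
    · intro R hR ha
      by_cases e' : R = l.1
      · exact h1 (e' ▸ ha)
      · exact ih h R (mem_erase.2 ⟨e', hR⟩) (hM _ _ _ _ subset_union_left ha)

theorem Walk.eq {κ : ∀ R, Key R} {N : ℕ} {e : Finset Y} {u : ℕ} {S : Finset ι}
    (h : Walk acc Ds w κ N e u S) : N = u + S.card := by
  induction N generalizing e u S with
  | zero =>
    obtain ⟨rfl, rfl⟩ := h
    simp
  | succ N ih =>
    rcases h with ⟨y, u', rfl, h⟩ | ⟨l, -, X, -, -, -, h1, h⟩
    · have := ih h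
      omega
    · have := ih h
      have := card_erase_add_one h1
      omega

variable [Fintype Y] [Fintype ι] [∀ R, Fintype (Key R)] [∀ R, DecidableEq (Key R)]

open Classical in
theorem card_fib (hM : Mono acc) (hL : Loc acc) {D m : ℕ} (hD : ∀ A, (Ds A).card ≤ D)
    (hm : Fintype.card Y < 2 ^ m) (N : ℕ) (e : Finset Y) (u : ℕ) (S : Finset ι)
    (κ₀ : ∀ R, Key R) :
    #{κ : ∀ R, Key R | (∀ R ∉ S, κ R = κ₀ R) ∧ Walk acc Ds w κ N e u S} ≤
      (2 ^ (m + 1)) ^ u * ∏ R ∈ S, (2 * D * 2 ^ ((m + 1) * w R)) := by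
  induction N generalizing e u S κ₀ with
  | zero =>
    rcases ({κ : ∀ R, Key R | (∀ R ∉ S, κ R = κ₀ R) ∧ Walk acc Ds w κ 0 e u S} :
      Finset _).eq_empty_or_nonempty with h | ⟨κ₁, h₁⟩
    · rw [h]; simp
    obtain ⟨rfl, rfl⟩ := (mem_filter.1 h₁).2.2
    simp only [pow_zero, prod_empty, mul_one]
    refine card_le_one.2 fun a ha b hb => funext fun R => ?_
    rw [(mem_filter.1 ha).2.1 R (by simp), (mem_filter.1 hb).2.1 R (by simp)]
  | succ N ih =>
    set B := (2 ^ (m + 1)) ^ u * ∏ R ∈ S, (2 * D * 2 ^ ((m + 1) * w R)) with hB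
    let F₁ : Finset (∀ R, Key R) := univ.biUnion fun y : Y =>
      {κ : ∀ R, Key R | 0 < u ∧ (∀ R ∉ S, κ R = κ₀ R) ∧ Walk acc Ds w κ N (insert y e) (u - 1) S}
    let F₂ : Finset (∀ R, Key R) := ((Ds (bits acc e κ₀)).filter (·.1 ∈ S)).biUnion fun l =>
      ({X : Finset Y | X.card ≤ w l.1} : Finset _).biUnion fun X =>
        {κ : ∀ R, Key R | (∀ R ∉ S.erase l.1, κ R = Function.update κ₀ l.1 l.2 R) ∧
          Walk acc Ds w κ N (e ∪ X) u (S.erase l.1)}
    have hsub : ({κ : ∀ R, Key R | (∀ R ∉ S, κ R = κ₀ R) ∧ Walk acc Ds w κ (N + 1) e u S} :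
        Finset _) ⊆ F₁ ∪ F₂ := by
      intro κ hκ
      obtain ⟨b0, b1⟩ := (mem_filter.1 hκ).2
      have b2 := b1.off hM
      rcases b1 with ⟨y, u', rfl, h⟩ | ⟨l, h1, X, h2, -, h4, h5, h⟩
      · exact mem_union_left _ (mem_biUnion.2 ⟨y, mem_univ _,
          mem_filter.2 ⟨mem_univ _, by omega, b0, h⟩⟩)
      · have e1 : bits acc e κ₀ = bits acc e κ :=
          hL.bits fun R hR => (b0 R fun h => b2 R h hR).symm
        refine mem_union_right _ (mem_biUnion.2 ⟨l, mem_filter.2 ⟨e1 ▸ h1, h5⟩, mem_biUnion.2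
          ⟨X, mem_filter.2 ⟨mem_univ _, h4⟩, mem_filter.2 ⟨mem_univ _, fun R hR => ?_, h⟩⟩⟩)
        by_cases e' : R = l.1
        · subst e'
          rw [Function.update_self, h2]
        · rw [Function.update_of_ne e']
          exact b0 R fun h => hR (mem_erase.2 ⟨e', h⟩)
    have h1 : 2 * F₁.card ≤ B := by
      rcases u with _ | u
      · have : F₁ = ∅ := by
          ext κ
          simp [F₁]
        simp [this]
      · have := card_biUnion_le_card_mul (univ : Finset Y) (fun y : Y =>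
          ({κ : ∀ R, Key R | 0 < u + 1 ∧ (∀ R ∉ S, κ R = κ₀ R) ∧
            Walk acc Ds w κ N (insert y e) (u + 1 - 1) S} : Finset _)) _ fun y _ =>
          (card_le_card fun κ hκ => mem_filter.2 ⟨mem_univ _, (mem_filter.1 hκ).2.2⟩).trans
            (ih (insert y e) u S κ₀)
        refine (Nat.mul_le_mul_left _ this).trans ?_
        rw [hB, pow_succ' _ u, mul_assoc, ← mul_assoc, card_univ]
        exact Nat.mul_le_mul_right _ (by rw [pow_succ]; omega)
    have h2 : 2 * F₂.card ≤ B := by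
      have h3 : ∀ l ∈ (Ds (bits acc e κ₀)).filter (·.1 ∈ S), 2 * D *
          (({X : Finset Y | X.card ≤ w l.1} : Finset _).biUnion fun X =>
            ({κ : ∀ R, Key R | (∀ R ∉ S.erase l.1, κ R = Function.update κ₀ l.1 l.2 R) ∧
              Walk acc Ds w κ N (e ∪ X) u (S.erase l.1)} : Finset _)).card ≤ B := by
        intro l hl
        refine (Nat.mul_le_mul_left _ ((card_biUnion_le_card_mul _ _ _ fun X _ =>
          ih (e ∪ X) u _ _).trans (Nat.mul_le_mul_right _ (card_small hm _)))).trans (le_of_eq ?_)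
        rw [hB, ← mul_prod_erase S _ (mem_filter.1 hl).2]
        ring
      rcases Nat.eq_zero_or_pos D with rfl | hD0
      · have : Ds (bits acc e κ₀) = ∅ := card_eq_zero.1 (Nat.le_zero.1 (hD _))
        simp [F₂, this]
      refine Nat.le_of_mul_le_mul_left ?_ hD0
      have h4 := sum_le_card_nsmul _ _ _ h3
      rw [← mul_sum, smul_eq_mul] at h4
      have h5 := Nat.mul_le_mul_left (2 * D) (card_biUnion_le (s := (Ds (bits acc e κ₀)).filter
        (·.1 ∈ S)) (t := fun l => ({X : Finset Y | X.card ≤ w l.1} : Finset _).biUnion fun X =>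
          ({κ : ∀ R, Key R | (∀ R ∉ S.erase l.1, κ R = Function.update κ₀ l.1 l.2 R) ∧
            Walk acc Ds w κ N (e ∪ X) u (S.erase l.1)} : Finset _)))
      calc D * (2 * F₂.card) = 2 * D * F₂.card := by ring
        _ ≤ _ := h5.trans h4
        _ ≤ D * B := Nat.mul_le_mul_right _ ((card_filter_le _ _).trans (hD _))
    have := (card_le_card hsub).trans (card_union_le _ _)
    omega

open Classical in
theorem card_walk (hM : Mono acc) (hL : Loc acc) {D m : ℕ} (hD : ∀ A, (Ds A).card ≤ D)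
    (hm : Fintype.card Y < 2 ^ m) (N : ℕ) (e : Finset Y) (u : ℕ) (S : Finset ι) :
    #{κ : ∀ R, Key R | Walk acc Ds w κ N e u S} * ∏ R ∈ S, Fintype.card (Key R) ≤
      Fintype.card (∀ R, Key R) *
        ((2 ^ (m + 1)) ^ u * ∏ R ∈ S, (2 * D * 2 ^ ((m + 1) * w R))) := by
  refine card_mul_le_card_mul (fun κ κ₀ : ∀ R, Key R => ∀ R ∉ S, κ R = κ₀ R)
    (fun κ _ => ?_) fun κ₀ _ => ?_
  · have h2 : (Fintype.piFinset fun R => if R ∈ S then univ else {κ R}) ⊆
        (univ : Finset (∀ R, Key R)).bipartiteAbove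
          (fun κ κ₀ : ∀ R, Key R => ∀ R ∉ S, κ R = κ₀ R) κ := by
      intro κ₀ h
      refine (mem_bipartiteAbove _).2 ⟨mem_univ _, fun R hR => ?_⟩
      have := Fintype.mem_piFinset.1 h R
      rw [if_neg hR, mem_singleton] at this
      exact this.symm
    refine le_trans ?_ (card_le_card h2)
    rw [Fintype.card_piFinset, ← prod_ite_mem_eq]
    refine prod_le_prod' fun R _ => ?_
    split_ifs with h
    · simp
    · simp
  · refine le_trans (card_le_card fun κ hκ => ?_) (card_fib (w := w) hM hL hD hm N e u S κ₀)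
    obtain ⟨h3, h4⟩ := (mem_bipartiteBelow _).1 hκ
    exact mem_filter.2 ⟨mem_univ _, h4, (mem_filter.1 h3).2⟩

open Classical in
/-- For most keys, every walk from `e` hits little weight. -/
theorem few_hits (hM : Mono acc) (hL : Loc acc) {D m τ : ℕ} (hD : ∀ A, (Ds A).card ≤ D)
    (hm : Fintype.card Y < 2 ^ m) (hm1 : 1 ≤ m) (hτ : 1 ≤ τ) {a : ι → ℝ} (ha : ∀ R, 0 ≤ a R)
    (ha1 : ∑ R, a R ≤ 1) [∀ R, Nonempty (Key R)]
    (hkey : ∀ R, ((2 * D * 2 ^ ((m + 1) * w R) * 2 ^ ((m + 1) * ((m + 1) * w R)) : ℕ) : ℝ) ≤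
      a R * Fintype.card (Key R)) (e : Finset Y) :
    (#{κ : ∀ R, Key R | ∃ N u S, u ≤ Fintype.card Y ∧ Walk acc Ds w κ N e u S ∧
      u + τ < (m + 1) * ∑ R ∈ S, w R} : ℝ) ≤ (1 / 2) ^ τ * Fintype.card (∀ R, Key R) := by
  set K : ℝ := (Fintype.card (∀ R, Key R) : ℝ) with hK
  have hK0 : 0 ≤ K := Nat.cast_nonneg _
  let G : ℕ → Finset ι → Finset (∀ R, Key R) := fun u S =>
    {κ | Walk acc Ds w κ (u + S.card) e u S ∧ u + τ < (m + 1) * ∑ R ∈ S, w R}
  have h1 : ∀ u S, ((G u S).card : ℝ) ≤ K * (1 / 2) ^ ((m + 1) * (τ + 1)) * ∏ R ∈ S, a R := by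
    intro u S
    by_cases hS : u + τ < (m + 1) * ∑ R ∈ S, w R
    swap
    · have : G u S = ∅ := by simp [G, hS]
      rw [this]
      simp only [card_empty, Nat.cast_zero]
      exact mul_nonneg (by positivity) (prod_nonneg fun R _ => ha R)
    have h2 : ((G u S).card : ℝ) * ∏ R ∈ S, (Fintype.card (Key R) : ℝ) ≤
        K * ((2 ^ (m + 1)) ^ u * ∏ R ∈ S, ((2 * D * 2 ^ ((m + 1) * w R) : ℕ) : ℝ)) := by
      have := (Nat.mul_le_mul_right _ (card_le_card (s := G u S) fun κ hκ =>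
        mem_filter.2 ⟨mem_univ _, (mem_filter.1 hκ).2.1⟩)).trans
        (card_walk (w := w) hM hL hD hm (u + S.card) e u S)
      rw [hK]
      exact_mod_cast this
    have h3 : (∏ R ∈ S, ((2 * D * 2 ^ ((m + 1) * w R) : ℕ) : ℝ)) *
        2 ^ ((m + 1) * ((m + 1) * ∑ R ∈ S, w R)) ≤
        (∏ R ∈ S, a R) * ∏ R ∈ S, (Fintype.card (Key R) : ℝ) := by
      rw [mul_sum, mul_sum, ← prod_pow_eq_pow_sum, ← prod_mul_distrib, ← prod_mul_distrib]
      refine prod_le_prod (fun R _ => by positivity) fun R _ => ?_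
      have := hkey R
      push_cast at this ⊢
      exact this
    have h4 : (0 : ℝ) < ∏ R ∈ S, (Fintype.card (Key R) : ℝ) :=
      prod_pos fun R _ => by exact_mod_cast Fintype.card_pos
    have h5 : (2 : ℝ) ^ ((m + 1) * u) * 2 ^ ((m + 1) * (τ + 1)) ≤
        2 ^ ((m + 1) * ((m + 1) * ∑ R ∈ S, w R)) := by
      rw [← pow_add, ← mul_add]
      exact pow_le_pow_right₀ (by norm_num) (Nat.mul_le_mul_left _ (by omega))
    refine le_of_mul_le_mul_right (h2.trans ?_) h4
    rw [mul_assoc, mul_assoc]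
    refine mul_le_mul_of_nonneg_left ?_ hK0
    refine le_trans ?_ (mul_le_mul_of_nonneg_left h3 (by positivity))
    rw [← pow_mul, one_div, inv_pow, mul_comm (∏ R ∈ S, _) _, ← mul_assoc]
    refine mul_le_mul_of_nonneg_right ?_ (prod_nonneg fun R _ => by positivity)
    rw [inv_mul_eq_div, le_div_iff₀ (by positivity)]
    exact h5
  have h2 : ∑ S ∈ (univ : Finset ι).powerset, ∏ R ∈ S, a R ≤ 3 := by
    rw [← prod_one_add]
    refine (prod_le_prod (fun R _ => by have := ha R; positivity) fun R _ =>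
      (add_comm 1 (a R) ▸ Real.add_one_le_exp (a R) : 1 + a R ≤ Real.exp (a R))).trans ?_
    rw [← Real.exp_sum]
    exact (Real.exp_le_exp.2 ha1).trans (Real.exp_one_lt_d9.le.trans (by norm_num))
  have h3 : ({κ : ∀ R, Key R | ∃ N u S, u ≤ Fintype.card Y ∧ Walk acc Ds w κ N e u S ∧
      u + τ < (m + 1) * ∑ R ∈ S, w R} : Finset _) ⊆
      (range (2 ^ m)).biUnion fun u => univ.powerset.biUnion (G u) := by
    intro κ hκ
    obtain ⟨N, u, S, a1, a2, a3⟩ := (mem_filter.1 hκ).2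
    exact mem_biUnion.2 ⟨u, mem_range.2 (by omega), mem_biUnion.2 ⟨S, by simp,
      mem_filter.2 ⟨mem_univ _, a2.eq ▸ a2, a3⟩⟩⟩
  have h4 : ∀ u, (((univ : Finset ι).powerset.biUnion (G u)).card : ℝ) ≤
      K * (1 / 2) ^ ((m + 1) * (τ + 1)) * 3 := by
    intro u
    refine le_trans (b := ∑ S ∈ (univ : Finset ι).powerset, ((G u S).card : ℝ))
      (by exact_mod_cast card_biUnion_le) ((sum_le_sum fun S _ => h1 u S).trans ?_)
    rw [← mul_sum]
    exact mul_le_mul_of_nonneg_left h2 (by positivity)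
  refine le_trans (b := ∑ u ∈ range (2 ^ m),
    (((univ : Finset ι).powerset.biUnion (G u)).card : ℝ))
    (by exact_mod_cast (card_le_card h3).trans card_biUnion_le)
    ((sum_le_card_nsmul _ _ _ fun u _ => h4 u).trans ?_)
  rw [card_range, nsmul_eq_mul]
  have h5 : (1 / 2 : ℝ) ^ ((m + 1) * (τ + 1)) ≤ (1 / 2) ^ (m + 2 + τ) :=
    pow_le_pow_of_le_one (by norm_num) (by norm_num) (by nlinarith)
  have h6 : ((2 ^ m : ℕ) : ℝ) * (1 / 2) ^ (m + 2 + τ) * 3 ≤ (1 / 2) ^ τ := by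
    have e1 : (2 : ℝ) ^ m * (1 / 2) ^ m = 1 := by rw [← mul_pow]; norm_num
    have e2 : (0 : ℝ) ≤ (1 / 2) ^ τ := by positivity
    push_cast
    rw [pow_add, pow_add, ← mul_assoc, ← mul_assoc, e1]
    nlinarith
  calc _ = K * (((2 ^ m : ℕ) : ℝ) * (1 / 2) ^ ((m + 1) * (τ + 1)) * 3) := by ring
    _ ≤ K * (((2 ^ m : ℕ) : ℝ) * (1 / 2) ^ (m + 2 + τ) * 3) := by gcongr
    _ ≤ K * (1 / 2) ^ τ := mul_le_mul_of_nonneg_left h6 hK0
    _ = _ := mul_comm _ _

end Pool.Agent.MP_a2d820_lc.h22
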