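import Mathlib
import Pool.Agent.MP_a2d820_lc.h22.Hit

/-!
Peeling a configuration from the top: few sets of free variables admit a long cheap peeling.
-/

set_option autoImplicit false

namespace Pool.Agent.MP_a2d820_lc.h22

open Finset Pool.Agent.MP_a2d820_lc.h69

variable {Y : Type} [DecidableEq Y]

/-- Remove elements named by the reference set, or arbitrary elements, or renew the reference. -/
def Peel (Ce : Finset Y → Finset Y) : ℕ → Finset Y → Finset Y → ℕ → ℕ → Finset Y → Prop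
  | 0, _, c, u, ω, b => u = 0 ∧ ω = 0 ∧ b = c
  | N + 1, r, c, u, ω, b => (∃ y ∈ Ce r, ∃ u', u = u' + 1 ∧ Peel Ce N r (c.erase y) u' ω b) ∨
      (∃ y ω', ω = ω' + 1 ∧ Peel Ce N r (c.erase y) u ω' b) ∨ Peel Ce N c c u ω b

variable {Ce : Finset Y → Finset Y}

theorem Peel.cheap {r b : Finset Y} {N u ω : ℕ} (P : Finset Y) (hP : P ⊆ Ce r) {c : Finset Y}
    (h : Peel Ce N r (c \ P) u ω b) : Peel Ce (N + P.card) r c (u + P.card) ω b := by
  induction P using Finset.induction_on generalizing c with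
  | empty => simpa using h
  | insert y P hy ih =>
    rw [card_insert_of_notMem hy]
    refine Or.inl ⟨y, hP (mem_insert_self _ _), u + P.card, rfl,
      ih ((subset_insert _ _).trans hP) ?_⟩
    rwa [erase_sdiff_comm, ← sdiff_insert]

theorem Peel.expl {r b : Finset Y} {N u ω : ℕ} (P : Finset Y) {c : Finset Y}
    (h : Peel Ce N r (c \ P) u ω b) : Peel Ce (N + P.card) r c u (ω + P.card) b := by
  induction P using Finset.induction_on generalizing c with
  | empty => simpa using h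
  | insert y P hy ih =>
    rw [card_insert_of_notMem hy]
    refine Or.inr (Or.inl ⟨y, ω + P.card, rfl, ih ?_⟩)
    rwa [erase_sdiff_comm, ← sdiff_insert]

variable [Fintype Y]

open Classical in
theorem card_peel {E : ℕ} (hE : ∀ c, (Ce c).card ≤ E) (N : ℕ) (r c : Finset Y) (u ω : ℕ) :
    #{b : Finset Y | Peel Ce N r c u ω b} ≤ 3 ^ N * (E ^ u * Fintype.card Y ^ ω) := by
  induction N generalizing r c u ω with
  | zero =>
    rcases ({b : Finset Y | Peel Ce 0 r c u ω b} : Finset _).eq_empty_or_nonempty with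
      h | ⟨b, hb⟩
    · rw [h]; simp
    obtain ⟨rfl, rfl, -⟩ := (mem_filter.1 hb).2
    simp only [pow_zero, mul_one]
    exact card_le_one.2 fun a ha b hb =>
      (mem_filter.1 ha).2.2.2.trans (mem_filter.1 hb).2.2.2.symm
  | succ N ih =>
    let F₁ : Finset (Finset Y) := (Ce r).biUnion fun y =>
      {b | 0 < u ∧ Peel Ce N r (c.erase y) (u - 1) ω b}
    let F₂ : Finset (Finset Y) := univ.biUnion fun y : Y =>
      {b | 0 < ω ∧ Peel Ce N r (c.erase y) u (ω - 1) b}
    have hsub : ({b : Finset Y | Peel Ce (N + 1) r c u ω b} : Finset _) ⊆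
        F₁ ∪ (F₂ ∪ ({b | Peel Ce N c c u ω b} : Finset _)) := by
      intro b hb
      rcases (mem_filter.1 hb).2 with ⟨y, hy, u', rfl, h⟩ | ⟨y, ω', rfl, h⟩ | h
      · exact mem_union_left _ (mem_biUnion.2 ⟨y, hy, mem_filter.2 ⟨mem_univ _, by omega, h⟩⟩)
      · exact mem_union_right _ (mem_union_left _ (mem_biUnion.2
          ⟨y, mem_univ _, mem_filter.2 ⟨mem_univ _, by omega, h⟩⟩))
      · exact mem_union_right _ (mem_union_right _ (mem_filter.2 ⟨mem_univ _, h⟩))
    have h1 : F₁.card ≤ 3 ^ N * (E ^ u * Fintype.card Y ^ ω) := by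
      rcases u with _ | u
      · have : F₁ = ∅ := by
          ext b
          simp [F₁]
        simp [this]
      · refine (card_biUnion_le_card_mul _ _ _ fun y _ => (card_le_card fun b hb =>
          mem_filter.2 ⟨mem_univ _, (mem_filter.1 hb).2.2⟩).trans (ih r (c.erase y) u ω)).trans ?_
        exact (Nat.mul_le_mul_right _ (hE r)).trans (le_of_eq (by ring))
    have h2 : F₂.card ≤ 3 ^ N * (E ^ u * Fintype.card Y ^ ω) := by
      rcases ω with _ | ω
      · have : F₂ = ∅ := by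
          ext b
          simp [F₂]
        simp [this]
      · refine (card_biUnion_le_card_mul _ _ _ fun y _ => (card_le_card fun b hb =>
          mem_filter.2 ⟨mem_univ _, (mem_filter.1 hb).2.2⟩).trans (ih r (c.erase y) u ω)).trans ?_
        rw [card_univ]
        exact le_of_eq (by ring)
    have h3 := ih c c u ω
    have h4 := (card_le_card hsub).trans ((card_union_le _ _).trans
      (Nat.add_le_add_left (card_union_le _ _) _))
    rw [pow_succ, mul_comm _ 3, mul_assoc]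
    omega

/-- The base point is reached by a long cheap peeling. -/
def LongPeel (Ce : Finset Y → Finset Y) (ν τ p : ℕ) (b : Finset Y) : Prop :=
  ∃ u ω c, τ ≤ u ∧ ω ≤ u ∧ ν * ω ≤ 2 * u ∧ p ≤ 3 * u ∧ b ⊆ c ∧ u ≤ (c \ b).card ∧
    Peel Ce (u + ω + p) c c u ω b

omit [DecidableEq Y] [Fintype Y] in
theorem sum_pow_powerset (V : Finset Y) (x : ℝ) :
    ∑ A ∈ V.powerset, x ^ A.card = (1 + x) ^ V.card := by
  rw [← prod_const, prod_one_add]
  simp

open Classical in
theorem few_peels {E m τ p : ℕ} (hE : ∀ c, (Ce c).card ≤ E) (hm : Fintype.card Y < 2 ^ m)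
    (hτ : 1 ≤ τ) {x : ℝ} (hx : 0 ≤ x) (hx1 : x ≤ 1) (hxE : 2 ^ 13 * E * x ≤ 1) (V : Finset Y) :
    ∑ A ∈ V.powerset.filter fun A => LongPeel Ce (m + 1) τ p Aᶜ, x ^ A.card ≤
      (1 / 2) ^ τ * (1 + x) ^ V.card := by
  set Z := (1 + x) ^ V.card with hZ
  have hZ0 : 0 ≤ Z := by positivity
  let G : ℕ → ℕ → Finset Y → Finset (Finset Y) := fun u ω B =>
    {A | (m + 1) * ω ≤ 2 * u ∧ p ≤ 3 * u ∧ u + B.card ≤ A.card ∧ Peel Ce (u + ω + p) Bᶜ Bᶜ u ω Aᶜ}
  have h1 : ∀ u ω B, ω ≤ u → ∑ A ∈ G u ω B, x ^ A.card ≤ (1 / 8) ^ u * x ^ B.card := by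
    intro u ω B hω
    rcases (G u ω B).eq_empty_or_nonempty with h | ⟨A₀, h₀⟩
    · rw [h, sum_empty]
      positivity
    obtain ⟨a1, a2, -, -⟩ := (mem_filter.1 h₀).2
    have h2 : (G u ω B).card ≤ (972 * E) ^ u := by
      refine (card_le_card_of_injOn (t := {b : Finset Y | Peel Ce (u + ω + p) Bᶜ Bᶜ u ω b})
        (fun A => Aᶜ) (fun A hA => mem_coe.2 (mem_filter.2
          ⟨mem_univ _, (mem_filter.1 hA).2.2.2.2⟩)) compl_injective.injOn).trans
        ((card_peel hE _ _ _ _ _).trans ?_)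
      have h3 : Fintype.card Y ^ ω ≤ 4 ^ u := by
        refine (Nat.pow_le_pow_left hm.le _).trans ?_
        rw [← pow_mul, show 4 = 2 ^ 2 by norm_num, ← pow_mul]
        exact Nat.pow_le_pow_right two_pos (by nlinarith)
      have h4 : 3 ^ (u + ω + p) ≤ 243 ^ u := by
        rw [show 243 = 3 ^ 5 by norm_num, ← pow_mul]
        exact Nat.pow_le_pow_right (by norm_num) (by omega)
      refine (Nat.mul_le_mul h4 (Nat.mul_le_mul_left _ h3)).trans (le_of_eq ?_)
      rw [← mul_pow, ← mul_pow]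
      congr 1
      ring
    refine (sum_le_card_nsmul _ _ (x ^ u * x ^ B.card) fun A hA => ?_).trans ?_
    · rw [← pow_add]
      exact pow_le_pow_of_le_one hx hx1 (mem_filter.1 hA).2.2.2.1
    · rw [nsmul_eq_mul, ← mul_assoc]
      refine mul_le_mul_of_nonneg_right ?_ (by positivity)
      have h5 : ((G u ω B).card : ℝ) ≤ (972 * E : ℝ) ^ u := by exact_mod_cast h2
      refine (mul_le_mul_of_nonneg_right h5 (by positivity)).trans ?_
      rw [← mul_pow]
      refine pow_le_pow_left₀ (by positivity) ?_ _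
      have : (0 : ℝ) ≤ E * x := by positivity
      nlinarith
  have h2 : (V.powerset.filter fun A => LongPeel Ce (m + 1) τ p Aᶜ) ⊆
      (Ico τ (Fintype.card Y + 1)).biUnion fun u => (range (u + 1)).biUnion fun ω =>
        V.powerset.biUnion (G u ω) := by
    intro A hA
    obtain ⟨a0, u, ω, c, a1, a2, a3, a4, a5, a6, a7⟩ := mem_filter.1 hA
    have a8 : cᶜ ⊆ A := fun y hy => by
      by_contra h
      exact mem_compl.1 hy (a5 (mem_compl.2 h))
    have a9 : c \ Aᶜ = A \ cᶜ := by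
      ext y
      simp [and_comm]
    have a10 := card_sdiff_add_card_eq_card a8
    refine mem_biUnion.2 ⟨u, mem_Ico.2 ⟨a1, Nat.lt_succ_of_le (a6.trans (card_le_univ _))⟩,
      mem_biUnion.2 ⟨ω, mem_range.2 (by omega), mem_biUnion.2 ⟨cᶜ,
        mem_powerset.2 (a8.trans (mem_powerset.1 a0)), mem_filter.2 ⟨mem_univ _, a3, a4, ?_, ?_⟩⟩⟩⟩
    · rw [a9] at a6
      omega
    · rwa [compl_compl]
  have hn : ∀ A : Finset Y, 0 ≤ x ^ A.card := fun A => by positivity
  refine (sum_le_sum_of_subset_of_nonneg h2 fun A _ _ => hn A).trans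
    ((sum_biUnion_le' _ _ _ hn).trans ?_)
  refine le_trans (sum_le_sum (g := fun u => (1 / 4 : ℝ) ^ u * Z) fun u _ => ?_) ?_
  · refine (sum_biUnion_le' _ _ _ hn).trans ((sum_le_card_nsmul _ _ ((1 / 8) ^ u * Z)
      fun ω hω => (sum_biUnion_le' _ _ _ hn).trans ((sum_le_sum fun B _ =>
        h1 u ω B (Nat.lt_succ_iff.1 (mem_range.1 hω))).trans (le_of_eq ?_))).trans ?_)
    · rw [← mul_sum, sum_pow_powerset]
    · rw [card_range, nsmul_eq_mul, ← mul_assoc]
      refine mul_le_mul_of_nonneg_right ?_ hZ0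
      have h3 : ((u + 1 : ℕ) : ℝ) ≤ 2 ^ u := by exact_mod_cast Nat.lt_two_pow_self
      refine (mul_le_mul_of_nonneg_right h3 (by positivity)).trans (le_of_eq ?_)
      rw [← mul_pow]
      norm_num
  · rw [← sum_mul]
    refine mul_le_mul_of_nonneg_right ((geom_sum_Ico_le_of_lt_one (by norm_num)
      (by norm_num)).trans ?_) hZ0
    obtain ⟨τ, rfl⟩ := Nat.exists_eq_add_of_le' hτ
    have h3 : (1 / 4 : ℝ) ^ τ ≤ (1 / 2) ^ τ := pow_le_pow_left₀ (by norm_num) (by norm_num) _
    have h4 : (0 : ℝ) ≤ (1 / 2) ^ τ := by positivity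
    rw [pow_succ, pow_succ, div_le_iff₀ (by norm_num)]
    nlinarith

open Classical in
theorem few_miss {x : ℝ} (hx : 0 ≤ x) {M : ℕ} (hM : 2 * (Fintype.card Y : ℝ) ≤ (1 + x) ^ M)
    (V : Finset Y) (K : Y → Finset Y) (hK : ∀ y, K y ⊆ V ∧ M ≤ (K y).card) :
    ∑ A ∈ V.powerset.filter fun A => ∃ y, Disjoint A (K y), x ^ A.card ≤
      (1 + x) ^ V.card / 2 := by
  have hn : ∀ A : Finset Y, 0 ≤ x ^ A.card := fun A => by positivity
  have h1 : (V.powerset.filter fun A => ∃ y, Disjoint A (K y)) ⊆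
      univ.biUnion fun y => (V \ K y).powerset := by
    intro A hA
    obtain ⟨a0, y, hy⟩ := mem_filter.1 hA
    exact mem_biUnion.2 ⟨y, mem_univ _, mem_powerset.2 (subset_sdiff.2 ⟨mem_powerset.1 a0, hy⟩)⟩
  refine (sum_le_sum_of_subset_of_nonneg h1 fun A _ _ => hn A).trans
    ((sum_biUnion_le' _ _ _ hn).trans ?_)
  have h0 : (0 : ℝ) < (1 + x) ^ M := by positivity
  refine (sum_le_card_nsmul _ _ ((1 + x) ^ V.card / (1 + x) ^ M) fun y _ => ?_).trans ?_
  · rw [sum_pow_powerset, le_div_iff₀ h0, ← pow_add]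
    have := card_sdiff_add_card_eq_card (hK y).1
    exact pow_le_pow_right₀ (by linarith) (by have := (hK y).2; omega)
  · rw [nsmul_eq_mul, card_univ, ← mul_div_assoc, div_le_div_iff₀ h0 (by norm_num)]
    have : (0 : ℝ) ≤ (1 + x) ^ V.card := by positivity
    nlinarith

end Pool.Agent.MP_a2d820_lc.h22
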