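import Mathlib
import Pool.Agent.MP_a2d820_lc.h22.Peel

/-!
Alternating chains above a base point; tight chains give walks and peelings.
-/

set_option autoImplicit false

namespace Pool.Agent.MP_a2d820_lc.h22

open Finset

variable {Y ι : Type} {Key : ι → Type}

/-- A chain of length `j` from `b` to `c` along which `f` alternates. -/
def Alt (f : Finset Y → Bool) (b : Finset Y) : ℕ → Finset Y → Prop
  | 0, c => c = b
  | j + 1, c => ∃ c', Alt f b j c' ∧ c' ⊆ c ∧ f c = (j + 1).bodd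

/-- An alternating chain all of whose members are minimal. -/
def Tight (f : Finset Y → Bool) (b : Finset Y) : ℕ → Finset Y → Prop
  | 0, c => c = b
  | j + 1, c => ∃ c', Tight f b j c' ∧ c' ⊆ c ∧ f c = (j + 1).bodd ∧
      ∀ e, c' ⊆ e → e ⊆ c → f e = f c → e = c

section
variable {f f' : Finset Y → Bool} {b : Finset Y}

theorem Tight.alt {j : ℕ} {c : Finset Y} (h : Tight f b j c) : Alt f b j c := by
  induction j generalizing c with
  | zero => exact h
  | succ j ih =>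
    obtain ⟨c', h1, h2, h3, -⟩ := h
    exact ⟨c', ih h1, h2, h3⟩

theorem Alt.sub {j : ℕ} {c : Finset Y} (h : Alt f b j c) : b ⊆ c := by
  induction j generalizing c with
  | zero => exact (show c = b from h) ▸ Subset.rfl
  | succ j ih =>
    obtain ⟨c', h1, h2, -⟩ := h
    exact (ih h1).trans h2

theorem Alt.congr {j : ℕ} {c : Finset Y} (h : Alt f b j c) (e : ∀ d ⊆ c, f' d = f d) :
    Alt f' b j c := by
  induction j generalizing c with
  | zero => exact h
  | succ j ih =>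
    obtain ⟨c', h1, h2, h3⟩ := h
    exact ⟨c', ih h1 fun d hd => e d (hd.trans h2), h2, (e c Subset.rfl).trans h3⟩

theorem Alt.down {i j : ℕ} {c : Finset Y} (h : Alt f b j c) (hi : i ≤ j) :
    ∃ d ⊆ c, Alt f b i d := by
  induction j generalizing c with
  | zero =>
    obtain rfl : i = 0 := by omega
    exact ⟨c, Subset.rfl, h⟩
  | succ j ih =>
    rcases hi.lt_or_eq with hi | rfl
    · obtain ⟨c', h1, h2, -⟩ := h
      obtain ⟨d, h3, h4⟩ := ih h1 (by omega)
      exact ⟨d, h3.trans h2, h4⟩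
    · exact ⟨c, Subset.rfl, h⟩

theorem Alt.tight {j : ℕ} {c : Finset Y} (h : Alt f b j c) : ∃ d ⊆ c, Tight f b j d := by
  classical
  induction j generalizing c with
  | zero => exact ⟨c, Subset.rfl, h⟩
  | succ j ih =>
    obtain ⟨c', h1, h2, h3⟩ := h
    obtain ⟨d', h4, h5⟩ := ih h1
    obtain ⟨d, h6, h7⟩ := exists_min_image
      (c.powerset.filter fun e => d' ⊆ e ∧ f e = (j + 1).bodd) card
      ⟨c, mem_filter.2 ⟨mem_powerset_self _, h4.trans h2, h3⟩⟩
    obtain ⟨h8, h9, h10⟩ := mem_filter.1 h6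
    refine ⟨d, mem_powerset.1 h8, d', h5, h9, h10, fun e e1 e2 e3 => eq_of_subset_of_card_le e2 ?_⟩
    exact h7 e (mem_filter.2 ⟨mem_powerset.2 (e2.trans (mem_powerset.1 h8)), e1, e3.trans h10⟩)

theorem Alt.len [DecidableEq Y] {j : ℕ} {c : Finset Y} (h : Alt f b j c) :
    j ≤ (c \ b).card + 1 := by
  induction j generalizing c with
  | zero => omega
  | succ j ih =>
    obtain ⟨c', h1, h2, h3⟩ := h
    rcases j with _ | j
    · omega
    have h4 := ih h1
    have h5 : c' ≠ c := by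
      rintro rfl
      obtain ⟨-, -, -, h6⟩ := h1
      rw [h6, Nat.bodd_succ (j + 1)] at h3
      simp at h3
    have h6 := card_lt_card (Finset.ssubset_iff_subset_ne.2 ⟨h2, h5⟩)
    have h7 := card_sdiff_add_card_eq_card h1.sub
    have h8 := card_sdiff_add_card_eq_card (h1.sub.trans h2)
    omega

end

/-- The value of `F` is decided by a potential that small sets of positions bound from below. -/
def Pot {P : Type} (F : (P → Bool) → Bool) (val : (P → Bool) → ℕ)
    (Ds : (P → Bool) → Finset P) : Prop :=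
  ∀ A A', (∀ l ∈ Ds A, A' l = A l) → val A ≤ val A' ∧ (val A' = val A → F A' = F A)

theorem Pot.congr {P : Type} {F : (P → Bool) → Bool} {val : (P → Bool) → ℕ}
    {Ds : (P → Bool) → Finset P} (h : Pot F val Ds) {A A' : P → Bool}
    (e : ∀ B, ∀ l ∈ Ds B, A' l = A l) : F A' = F A :=
  (h A A' (e A)).2 (le_antisymm (h A' A fun l hl => (e A' l hl).symm).1 (h A A' (e A)).1)

variable [DecidableEq Y] [DecidableEq ι] {acc : Acc Y Key}
  {Ds : ((Σ R, Key R) → Bool) → Finset (Σ R, Key R)} {w : ι → ℕ} {κ : ∀ R, Key R}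

theorem Walk.add {N u : ℕ} {S : Finset ι} (P : Finset Y) {e : Finset Y}
    (h : Walk acc Ds w κ N (e ∪ P) u S) : Walk acc Ds w κ (N + P.card) e (u + P.card) S := by
  induction P using Finset.induction_on generalizing e with
  | empty => simpa using h
  | insert y P hy ih =>
    rw [card_insert_of_notMem hy]
    refine Or.inl ⟨y, u + P.card, rfl, ih ?_⟩
    rwa [insert_union, ← union_insert]

/-- The variables named by the canonical positions of a configuration. -/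
noncomputable def cer (acc : Acc Y Key) (Ds : ((Σ R, Key R) → Bool) → Finset (Σ R, Key R))
    (κ : ∀ R, Key R) (X : ι → Finset Y → Finset Y) (c : Finset Y) : Finset Y :=
  (Ds (bits acc c κ)).biUnion fun l => X l.1 c

variable {F : ((Σ R, Key R) → Bool) → Bool} {val : ((Σ R, Key R) → Bool) → ℕ}
  {X : ι → Finset Y → Finset Y} {b₀ : Finset Y}

theorem climb (hM : Mono acc) (hP : Pot F val Ds) (hX : ∀ R c, X R c ⊆ c ∧ (X R c).card ≤ w R)
    (hX' : ∀ R c, b₀ ⊆ c → acc c κ R → acc (b₀ ∪ X R c) κ R) {c : Finset Y} {N u : ℕ}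
    {S : Finset ι} (hW : Walk acc Ds w κ N c u S) (n : ℕ) (e : Finset Y) (hn : (c \ e).card < n)
    (h1 : b₀ ⊆ e) (h2 : cer acc Ds κ X c ⊆ e) (h3 : e ⊆ c)
    (h4 : ∀ e', e ⊆ e' → e' ⊆ c → F (bits acc e' κ) = F (bits acc c κ) → e' = c) :
    ∃ N' S', Walk acc Ds w κ N' e u S' ∧ ∑ R ∈ S, w R + (c \ e).card ≤ ∑ R ∈ S', w R := by
  induction n generalizing e with
  | zero => omega
  | succ n ih =>
    by_cases he : e = c
    · subst he
      exact ⟨N, S, hW, by simp⟩
    have a1 : ∀ l, bits acc e κ l = true → bits acc c κ l = true := fun l hl =>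
      bits_true.2 ⟨(bits_true.1 hl).1, hM _ _ _ _ h3 (bits_true.1 hl).2⟩
    have a2 := hP (bits acc c κ) (bits acc e κ) fun l hl => Bool.eq_iff_iff.2 ⟨a1 l, fun h =>
      bits_true.2 ⟨(bits_true.1 h).1, hM _ _ _ _ (union_subset h1
        ((subset_biUnion_of_mem (fun l : Σ R, Key R => X l.1 c) hl).trans h2))
        (hX' _ _ (h1.trans h3) (bits_true.1 h).2)⟩⟩
    obtain ⟨l, a3, a4⟩ : ∃ l ∈ Ds (bits acc e κ), bits acc c κ l ≠ bits acc e κ l := by
      by_contra hc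
      push Not at hc
      exact he (h4 e Subset.rfl h3 (a2.2 (le_antisymm (hP _ _ hc).1 a2.1)))
    have a5 : bits acc c κ l = true ∧ ¬bits acc e κ l = true := by
      have := a1 l
      cases h : bits acc c κ l <;> cases h' : bits acc e κ l <;> simp_all
    obtain ⟨a6, a7⟩ := bits_true.1 a5.1
    have a8 : ¬acc e κ l.1 := fun h => a5.2 (bits_true.2 ⟨a6, h⟩)
    have a9 : acc (e ∪ X l.1 c) κ l.1 :=
      hM _ _ _ _ (union_subset_union h1 Subset.rfl) (hX' _ _ (h1.trans h3) a7)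
    have b1 : e ∪ X l.1 c ⊆ c := union_subset h3 (hX _ _).1
    have b2 := card_lt_card (Finset.ssubset_iff_subset_ne.2
      ⟨subset_union_left (s₁ := e) (s₂ := X l.1 c), fun h => a8 (h ▸ a9)⟩)
    have b3 := card_sdiff_add_card_eq_card b1
    have b4 := card_sdiff_add_card_eq_card h3
    have b5 := card_union_le e (X l.1 c)
    have b6 := (hX l.1 c).2
    obtain ⟨N', S', c1, c2⟩ := ih (e ∪ X l.1 c) (by omega) (h1.trans subset_union_left)
      (h2.trans subset_union_left) b1 fun e' h => h4 e' (subset_union_left.trans h)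
    have c3 : l.1 ∉ S' := fun h => c1.off hM _ h a9
    refine ⟨N' + 1, insert l.1 S', Or.inr ⟨l, a3, X l.1 c, a6, a8, b6, mem_insert_self _ _,
      by rwa [erase_insert c3]⟩, ?_⟩
    rw [sum_insert c3]
    omega

omit [DecidableEq ι] in
theorem card_cer {D W : ℕ} (hD : ∀ A, (Ds A).card ≤ D) (hW : ∀ A, ∀ l ∈ Ds A, w l.1 ≤ W)
    (hX : ∀ R c, X R c ⊆ c ∧ (X R c).card ≤ w R) (c : Finset Y) :
    (cer acc Ds κ X c).card ≤ D * W :=
  (card_biUnion_le_card_mul _ _ _ fun l hl => (hX _ _).2.trans (hW _ l hl)).trans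
    (Nat.mul_le_mul_right _ (hD _))

theorem tight_data (hM : Mono acc) (hP : Pot F val Ds) (hX : ∀ R c, X R c ⊆ c ∧ (X R c).card ≤ w R)
    (hX' : ∀ R c, b₀ ⊆ c → acc c κ R → acc (b₀ ∪ X R c) κ R) {E : ℕ}
    (hE : ∀ c, (cer acc Ds κ X c).card ≤ E) {b : Finset Y} (hb : b₀ ⊆ b) {j : ℕ} {c : Finset Y}
    (h : Tight (fun c => F (bits acc c κ)) b j c) :
    ∃ u ω, u ≤ j * E ∧ (c \ b).card = u + ω ∧ Peel (cer acc Ds κ X) (u + ω + j) c c u ω b ∧
      ∀ N u₀ S, Walk acc Ds w κ N c u₀ S → ∃ N' S', Walk acc Ds w κ N' b (u₀ + u) S' ∧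
        ∑ R ∈ S, w R + ω ≤ ∑ R ∈ S', w R := by
  induction j generalizing c with
  | zero =>
    obtain rfl : c = b := h
    exact ⟨0, 0, by simp, by simp, ⟨rfl, rfl, rfl⟩, fun N u₀ S h => ⟨N, S, h, le_rfl⟩⟩
  | succ j ih =>
    obtain ⟨c', h1, h2, -, h4⟩ := h
    obtain ⟨u, ω, a1, a2, a3, a4⟩ := ih h1
    have hc : cer acc Ds κ X c ⊆ c := biUnion_subset.2 fun l _ => (hX _ _).1
    set P := cer acc Ds κ X c \ c' with hPd
    have e1 : c' ∪ P ⊆ c := union_subset h2 (sdiff_subset.trans hc)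
    have e2 : (c' ∪ P).card = c'.card + P.card := card_union_of_disjoint disjoint_sdiff
    have e3 := card_sdiff_add_card_eq_card e1
    have e4 := card_sdiff_add_card_eq_card h1.alt.sub
    have e5 := card_sdiff_add_card_eq_card (h1.alt.sub.trans h2)
    have e6 : P.card ≤ E := (card_le_card sdiff_subset).trans (hE c)
    refine ⟨u + P.card, ω + (c \ (c' ∪ P)).card, by rw [Nat.succ_mul]; omega, by omega, ?_,
      fun N u₀ S hW => ?_⟩
    · have e7 : (c \ P) \ (c \ (c' ∪ P)) = c' := by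
        ext y
        have := @h2 y
        simp only [hPd, mem_sdiff, mem_union]
        tauto
      have b1 : Peel (cer acc Ds κ X) (u + ω + j + 1) c ((c \ P) \ (c \ (c' ∪ P))) u ω b := by
        rw [e7]
        exact Or.inr (Or.inr a3)
      have b2 := Peel.cheap P sdiff_subset (Peel.expl _ b1)
      rwa [show u + ω + j + 1 + (c \ (c' ∪ P)).card + P.card =
        u + P.card + (ω + (c \ (c' ∪ P)).card) + (j + 1) by omega] at b2
    · obtain ⟨N₁, S₁, b1, b2⟩ := climb hM hP hX hX' hW _ (c' ∪ P) (Nat.lt_succ_self _)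
        (hb.trans (h1.alt.sub.trans subset_union_left))
        (by rw [hPd, union_sdiff_self_eq_union]; exact subset_union_right) e1 fun e' h => h4 e' (subset_union_left.trans h)
      obtain ⟨N₂, S₂, b3, b4⟩ := a4 _ _ _ (Walk.add P b1)
      exact ⟨N₂, S₂, by rwa [show u₀ + (u + P.card) = u₀ + P.card + u by omega], by omega⟩

theorem good [Fintype Y] (hM : Mono acc) (hP : Pot F val Ds)
    (hX : ∀ R c, X R c ⊆ c ∧ (X R c).card ≤ w R)
    (hX' : ∀ R c, b₀ ⊆ c → acc c κ R → acc (b₀ ∪ X R c) κ R) {E : ℕ}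
    (hE : ∀ c, (cer acc Ds κ X c).card ≤ E) {b : Finset Y} (hb : b₀ ⊆ b) {ν τ s : ℕ} (hν : 2 ≤ ν)
    (hτ : 1 ≤ τ) (hs : 2 * ((2 * τ + 1) * E) + τ ≤ s)
    (hA : ∀ N u S, u ≤ Fintype.card Y → Walk acc Ds w κ N b u S → ν * ∑ R ∈ S, w R ≤ u + τ)
    (hB : ¬LongPeel (cer acc Ds κ X) ν τ (2 * τ + 1) b) {c : Finset Y} (hc : b ⊆ c) :
    ∃ I < 2 * τ + 1, F (bits acc c κ) = I.bodd ∧ ∀ j, (∃ d ⊆ c, (d \ b).card ≤ s ∧
      Alt (fun c => F (bits acc c κ)) b j d) ↔ j ≤ I := by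
  classical
  set f : Finset Y → Bool := fun c => F (bits acc c κ) with hf
  have key : ∀ j d, Tight f b j d → ∃ u ω, u ≤ j * E ∧ (d \ b).card = u + ω ∧
      Peel (cer acc Ds κ X) (u + ω + j) d d u ω b ∧ ν * ω ≤ u + τ := by
    intro j d h
    obtain ⟨u, ω, a1, a2, a3, a4⟩ := tight_data hM hP hX hX' hE hb h
    obtain ⟨N, S, a5, a6⟩ := a4 0 0 ∅ ⟨rfl, rfl⟩
    rw [zero_add] at a5
    have a7 := card_le_univ (d \ b)
    refine ⟨u, ω, a1, a2, a3, le_trans (Nat.mul_le_mul_left _ ?_) (hA N u S (by omega) a5)⟩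
    simpa using a6
  have h1 : ∀ d, ¬Alt f b (2 * τ + 1) d := by
    intro d h
    obtain ⟨d', -, h'⟩ := h.tight
    obtain ⟨u, ω, -, a2, a3, a4⟩ := key _ _ h'
    have a5 := h'.alt.len
    have a6 := Nat.mul_le_mul_right ω hν
    exact hB ⟨u, ω, d', by omega, by omega, by omega, by omega, h'.alt.sub, by omega, a3⟩
  let Q : ℕ → Prop := fun j => ¬∃ d ⊆ c, Alt f b (j + 1) d
  have hQ : ∃ j, Q j := ⟨2 * τ, fun ⟨d, _, h⟩ => h1 d h⟩
  have h2 : Nat.find hQ ≤ 2 * τ := Nat.find_le fun ⟨d, _, h⟩ => h1 d h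
  have h3 : ∀ j ≤ Nat.find hQ, ∃ d ⊆ c, Alt f b j d := by
    rintro (_ | j) hj
    · exact ⟨b, hc, rfl⟩
    · exact not_not.1 (Nat.find_min hQ (by omega))
  refine ⟨Nat.find hQ, by omega, ?_, fun j => ⟨fun ⟨d, a1, _, a2⟩ => ?_, fun hj => ?_⟩⟩
  · obtain ⟨d, a1, a2⟩ := h3 _ le_rfl
    by_contra hne
    refine Nat.find_spec hQ ⟨c, Subset.rfl, d, a2, a1, ?_⟩
    rw [Nat.bodd_succ]
    exact Bool.eq_not_iff.2 hne
  · by_contra hj
    obtain ⟨d', a3, a4⟩ := a2.down (show Nat.find hQ + 1 ≤ j by omega)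
    exact Nat.find_spec hQ ⟨d', a3.trans a1, a4⟩
  · obtain ⟨d, a1, a2⟩ := h3 j hj
    obtain ⟨d', a3, a4⟩ := a2.tight
    obtain ⟨u, ω, b1, b2, -, b4⟩ := key _ _ a4
    have b5 := Nat.mul_le_mul_right ω hν
    have b6 := Nat.mul_le_mul_right E (show j ≤ 2 * τ + 1 by omega)
    exact ⟨d', a3.trans a1, by omega, a4.alt⟩

end Pool.Agent.MP_a2d820_lc.h22
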