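import Mathlib
import Pool.Agent.MP_a2d820_lc.h22.Chain

/-!
The construction of the monotone codes, level by level.
-/

set_option autoImplicit false

namespace Pool.Agent.MP_a2d820_lc.h22

open Finset Pool.Agent.MP_a2d820_lc.h69

theorem exists_avg {α : Type} [DecidableEq α] (T M : Finset α) (hM : M ⊆ T) {wt g : α → ℝ}
    (hw : ∀ a, 0 < wt a) (hg : ∀ a, 0 ≤ g a) (hT : T.Nonempty)
    (h1 : ∑ a ∈ M, wt a ≤ (∑ a ∈ T, wt a) / 2) {δ : ℝ}
    (h2 : ∑ a ∈ T, wt a * g a ≤ δ * ∑ a ∈ T, wt a) : ∃ a ∈ T \ M, g a ≤ 2 * δ := by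
  by_contra hc
  push Not at hc
  have h3 := sum_sdiff (f := wt) hM
  have h4 : 0 < ∑ a ∈ T, wt a := sum_pos (fun a _ => hw a) hT
  have h5 : (T \ M).Nonempty := by
    by_contra h
    rw [not_nonempty_iff_eq_empty.1 h, sum_empty] at h3
    linarith
  have h6 := sum_lt_sum_of_nonempty h5 fun a ha => mul_lt_mul_of_pos_left (hc a ha) (hw a)
  have h7 : ∑ a ∈ T \ M, wt a * g a ≤ ∑ a ∈ T, wt a * g a :=
    sum_le_sum_of_subset_of_nonneg sdiff_subset fun a _ _ => mul_nonneg (hw a).le (hg a)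
  have h8 : 0 ≤ δ := nonneg_of_mul_nonneg_left
    ((sum_nonneg fun a _ => mul_nonneg (hw a).le (hg a)).trans h2) h4
  rw [← sum_mul] at h6
  nlinarith

variable {Y Q ι : Type} {Key : ι → Type}

/-- The width of the certificates of a region. -/
def wid (kd : ι → Y ⊕ Q × ℕ) (s : Q → ℕ) (R : ι) : ℕ :=
  Sum.elim (fun _ => 1) (fun p => s p.1) (kd R)

/-- The level at which a region is defined. -/
def lvl (kd : ι → Y ⊕ Q × ℕ) (lev : Q → ℕ) (R : ι) : ℕ :=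
  Sum.elim (fun _ => 0) (fun p => lev p.1 + 1) (kd R)

variable [Fintype Y] [DecidableEq Y]

/-- The state of the construction after `n` levels. -/
structure State (kd : ι → Y ⊕ Q × ℕ) (lev s τ : Q → ℕ) (F : Q → ((Σ R, Key R) → Bool) → Bool)
    (n : ℕ) (V : Finset Y) (acc : Acc Y Key) (Bad : Finset (∀ R, Key R)) : Prop where
  mono : Mono acc
  loc : Loc acc
  cert : ∀ κ R c, Vᶜ ⊆ c → acc c κ R → ∃ X ⊆ c, X.card ≤ wid kd s R ∧ acc (Vᶜ ∪ X) κ R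
  base : ∀ R y, kd R = .inl y → ∀ c κ, acc c κ R ↔ y ∈ c
  off : ∀ R, n < lvl kd lev R → ∀ c κ, ¬acc c κ R
  ok : ∀ κ ∉ Bad, ∀ q, lev q < n → ∀ c, Vᶜ ⊆ c → ∃ I < 2 * τ q + 1,
    F q (bits acc c κ) = I.bodd ∧ ∀ R j, kd R = .inr (q, j) → (acc c κ R ↔ j ≤ I)

variable {kd : ι → Y ⊕ Q × ℕ} {lev s τ t : Q → ℕ} {F : Q → ((Σ R, Key R) → Bool) → Bool}
  {val : Q → ((Σ R, Key R) → Bool) → ℕ} {Ds : Q → ((Σ R, Key R) → Bool) → Finset (Σ R, Key R)}

theorem state_zero : State kd lev s τ F 0 univ (fun c _ R => ∃ y ∈ c, kd R = .inl y) ∅ where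
  mono := fun _ _ _ _ h ⟨y, h1, h2⟩ => ⟨y, h h1, h2⟩
  loc := fun _ _ _ _ _ => Iff.rfl
  cert := fun _ R _ _ ⟨y, h1, h2⟩ => ⟨{y}, singleton_subset_iff.2 h1, by simp [wid, h2],
    y, by simp, h2⟩
  base := fun R y h c _ => by simp [h]
  off := fun R h _ _ ⟨y, _, h2⟩ => by simp [lvl, h2] at h
  ok := fun _ _ _ h => absurd h (by omega)

/-- The codes of the next level. -/
def nxt (kd : ι → Y ⊕ Q × ℕ) (lev s : Q → ℕ) (F : Q → ((Σ R, Key R) → Bool) → Bool) (n : ℕ)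
    (V : Finset Y) (acc : Acc Y Key) : Acc Y Key := fun c κ R =>
  acc c κ R ∨ ∃ q j, kd R = .inr (q, j) ∧ lev q = n ∧ ∃ d ⊆ c, (d \ Vᶜ).card ≤ s q ∧
    Alt (fun c => F q (bits acc c κ)) Vᶜ j d

theorem State.next {n : ℕ} {V V' : Finset Y} {acc : Acc Y Key} {Bad Bad' : Finset (∀ R, Key R)}
    (h : State kd lev s τ F n V acc Bad) (hV : V' ⊆ V) (hB : Bad ⊆ Bad')
    (hP : ∀ q, Pot (F q) (val q) (Ds q)) (hvis : ∀ q A, ∀ l ∈ Ds q A, lvl kd lev l.1 ≤ lev q)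
    (hnew : ∀ κ ∉ Bad', ∀ q, lev q = n → ∀ c, V'ᶜ ⊆ c → ∃ I < 2 * τ q + 1,
      F q (bits acc c κ) = I.bodd ∧ ∀ j, (∃ d ⊆ c, (d \ V'ᶜ).card ≤ s q ∧
        Alt (fun c => F q (bits acc c κ)) V'ᶜ j d) ↔ j ≤ I) :
    State kd lev s τ F (n + 1) V' (nxt kd lev s F n V' acc) Bad' := by
  have hc : Vᶜ ⊆ V'ᶜ := compl_subset_compl.2 hV
  have hlow : ∀ R, lvl kd lev R ≤ n → ∀ c κ, nxt kd lev s F n V' acc c κ R ↔ acc c κ R := by
    refine fun R hR c κ => or_iff_left ?_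
    rintro ⟨q, j, h1, h2, -⟩
    simp only [lvl, h1, Sum.elim_inr] at hR
    omega
  have hF : ∀ q, lev q ≤ n → ∀ c κ,
      F q (bits (nxt kd lev s F n V' acc) c κ) = F q (bits acc c κ) := by
    refine fun q hq c κ => (hP q).congr fun B l hl => Bool.eq_iff_iff.2 ?_
    rw [bits_true, bits_true, hlow _ ((hvis q B l hl).trans hq)]
  refine ⟨?_, ?_, ?_, fun R y h1 c κ => ?_, ?_, fun κ hκ q hq c h1 => ?_⟩
  · rintro κ c c' R h1 (h2 | ⟨q, j, h2, h3, d, h4, h5⟩)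
    · exact Or.inl (h.mono _ _ _ _ h1 h2)
    · exact Or.inr ⟨q, j, h2, h3, d, h4.trans h1, h5⟩
  · intro c κ κ' h1 R
    have h2 : ∀ d ⊆ c, bits acc d κ' = bits acc d κ := fun d hd =>
      h.loc.bits fun R hR => h1 R (Or.inl (h.mono _ _ _ _ hd hR))
    refine or_congr (h.loc c κ κ' (fun R hR => h1 R (Or.inl hR)) R) (exists₂_congr fun q j =>
      and_congr_right' (and_congr_right' (exists_congr fun d => and_congr_right fun hd =>
        and_congr_right' ⟨fun h3 => h3.congr fun e he => ?_, fun h3 => h3.congr fun e he => ?_⟩)))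
    · simp only [h2 e (he.trans hd)]
    · simp only [h2 e (he.trans hd)]
  · rintro κ R c h1 (h2 | ⟨q, j, h2, h3, d, h4, h5, h6⟩)
    · obtain ⟨X, a1, a2, a3⟩ := h.cert κ R c (hc.trans h1) h2
      exact ⟨X, a1, a2, Or.inl (h.mono _ _ _ _ (union_subset_union hc Subset.rfl) a3)⟩
    · refine ⟨d \ V'ᶜ, sdiff_subset.trans h4, by simpa [wid, h2] using h5,
        Or.inr ⟨q, j, h2, h3, d, ?_, h5, h6⟩⟩
      rw [union_sdiff_self_eq_union]
      exact subset_union_right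
  · rw [hlow R (by simp [lvl, h1]), h.base R y h1]
  · rintro R h1 c κ (h2 | ⟨q, j, h2, h3, -⟩)
    · exact h.off R (by omega) c κ h2
    · simp only [lvl, h2, Sum.elim_inr] at h1
      omega
  · rw [hF q (by omega)]
    rcases (Nat.lt_succ_iff.1 hq).lt_or_eq with hq | hq
    · obtain ⟨I, a1, a2, a3⟩ := h.ok κ (fun h2 => hκ (hB h2)) q hq c (hc.trans h1)
      exact ⟨I, a1, a2, fun R j h2 => (hlow R (by simp only [lvl, h2, Sum.elim_inr]; omega)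
        c κ).trans (a3 R j h2)⟩
    · obtain ⟨I, a1, a2, a3⟩ := hnew κ hκ q hq c h1
      refine ⟨I, a1, a2, fun R j h2 => Iff.trans ⟨?_, fun h3 => Or.inr ⟨q, j, h2, hq, h3⟩⟩ (a3 j)⟩
      rintro (h3 | ⟨q', j', h3, -, h4⟩)
      · exact absurd h3 (h.off R (by simp only [lvl, h2, Sum.elim_inr]; omega) c κ)
      · obtain ⟨rfl, rfl⟩ := Prod.mk.inj (Sum.inr.inj (h2.symm.trans h3))
        exact h4

variable [Fintype Q] [Fintype ι] [DecidableEq ι] [∀ R, Fintype (Key R)] [∀ R, DecidableEq (Key R)]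
  [∀ R, Nonempty (Key R)]

theorem State.step {n D m M : ℕ} {V : Finset Y} {acc : Acc Y Key} {Bad : Finset (∀ R, Key R)}
    (h : State kd lev s τ F n V acc Bad) (hP : ∀ q, Pot (F q) (val q) (Ds q))
    (hvis : ∀ q A, ∀ l ∈ Ds q A, lvl kd lev l.1 ≤ lev q ∧ wid kd s l.1 ≤ t q)
    (hD : ∀ q A, (Ds q A).card ≤ t q) (ht : ∀ q, t q ≤ D) (hτ : ∀ q, 1 ≤ τ q)
    (hs : ∀ q, 2 * ((2 * τ q + 1) * (t q * t q)) + τ q ≤ s q)
    (hm : Fintype.card Y < 2 ^ m) (hm1 : 1 ≤ m) {a : ι → ℝ} (ha : ∀ R, 0 ≤ a R)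
    (ha1 : ∑ R, a R ≤ 1)
    (hkey : ∀ R, ((2 * D * 2 ^ ((m + 1) * wid kd s R) *
      2 ^ ((m + 1) * ((m + 1) * wid kd s R)) : ℕ) : ℝ) ≤ a R * Fintype.card (Key R))
    {x : ℝ} (hx : 0 < x) (hx1 : x ≤ 1) (hxE : 2 ^ 13 * (D * D : ℕ) * x ≤ 1)
    (hM : 2 * (Fintype.card Y : ℝ) ≤ (1 + x) ^ M) (K : Y → Finset Y)
    (hK : ∀ y, K y ⊆ V ∧ M ≤ (K y).card) :
    ∃ V' acc' Bad', State kd lev s τ F (n + 1) V' acc' Bad' ∧ (∀ y, ∃ y' ∈ V', y' ∈ K y) ∧
      (Bad'.card : ℝ) ≤ Bad.card + 3 * (∑ q with lev q = n, (1 / 2) ^ τ q) *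
        Fintype.card (∀ R, Key R) := by
  classical
  have hX : ∀ (κ : ∀ R, Key R) (R : ι) (c : Finset Y), ∃ X : Finset Y,
      (X ⊆ c ∧ X.card ≤ wid kd s R) ∧ (Vᶜ ⊆ c → acc c κ R → acc (Vᶜ ∪ X) κ R) := by
    intro κ R c
    by_cases hc : Vᶜ ⊆ c ∧ acc c κ R
    · obtain ⟨X, a1, a2, a3⟩ := h.cert κ R c hc.1 hc.2
      exact ⟨X, ⟨a1, a2⟩, fun _ _ => a3⟩
    · exact ⟨∅, ⟨empty_subset _, by simp⟩, fun a b => absurd ⟨a, b⟩ hc⟩
  choose X hX hX' using hX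
  have hE : ∀ q κ c, (cer acc (Ds q) κ (X κ) c).card ≤ t q * t q := fun q κ =>
    card_cer (hD q) (fun A l hl => (hvis q A l hl).2) (hX κ)
  set Kc : ℝ := (Fintype.card (∀ R, Key R) : ℝ) with hKc
  set δ : ℝ := ∑ q with lev q = n, (1 / 2) ^ τ q with hδ
  let BB : Finset Y → Finset (∀ R, Key R) := fun A => {κ | ∃ q, lev q = n ∧
    LongPeel (cer acc (Ds q) κ (X κ)) (m + 1) (τ q) (2 * τ q + 1) Aᶜ}
  have hn : ∀ A : Finset Y, 0 < x ^ A.card := fun A => by positivity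
  obtain ⟨V', a1, a2⟩ := exists_avg V.powerset (V.powerset.filter fun A => ∃ y, Disjoint A (K y))
    (filter_subset _ _) hn (g := fun A => (BB A).card) (fun A => Nat.cast_nonneg _)
    ⟨∅, empty_mem_powerset _⟩ (by rw [sum_pow_powerset]; exact few_miss hx.le hM V K hK)
    (δ := δ * Kc) (by
      have e1 : ∀ A, x ^ A.card * ((BB A).card : ℝ) =
          ∑ κ : ∀ R, Key R, if κ ∈ BB A then x ^ A.card else 0 := fun A => by
        rw [sum_ite_mem_eq, sum_const, nsmul_eq_mul, mul_comm]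
      rw [sum_congr rfl fun A _ => e1 A, sum_comm, sum_pow_powerset]
      refine (sum_le_card_nsmul _ _ (δ * (1 + x) ^ V.card) fun κ _ => ?_).trans (le_of_eq ?_)
      · rw [← sum_filter]
        have e2 : (V.powerset.filter fun A => κ ∈ BB A) ⊆
            (univ.filter fun q => lev q = n).biUnion fun q => V.powerset.filter fun A =>
              LongPeel (cer acc (Ds q) κ (X κ)) (m + 1) (τ q) (2 * τ q + 1) Aᶜ := by
          intro A hA
          obtain ⟨b1, b2⟩ := mem_filter.1 hA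
          obtain ⟨q, b3, b4⟩ := (mem_filter.1 b2).2
          exact mem_biUnion.2 ⟨q, mem_filter.2 ⟨mem_univ _, b3⟩, mem_filter.2 ⟨b1, b4⟩⟩
        refine (sum_le_sum_of_subset_of_nonneg e2 fun A _ _ => (hn A).le).trans
          ((sum_biUnion_le' _ _ _ fun A => (hn A).le).trans ?_)
        rw [hδ, sum_mul]
        exact sum_le_sum fun q _ => few_peels (fun c => (hE q κ c).trans
          (Nat.mul_le_mul (ht q) (ht q))) hm (hτ q) hx.le hx1 hxE V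
      · rw [nsmul_eq_mul, card_univ]
        ring)
  obtain ⟨a3, a4⟩ := mem_sdiff.1 a1
  let BA : Q → Finset (∀ R, Key R) := fun q => {κ | ∃ N u S, u ≤ Fintype.card Y ∧
    Walk acc (Ds q) (wid kd s) κ N V'ᶜ u S ∧ u + τ q < (m + 1) * ∑ R ∈ S, wid kd s R}
  refine ⟨V', _, Bad ∪ (BB V' ∪ (univ.filter fun q => lev q = n).biUnion BA),
    h.next (mem_powerset.1 a3) subset_union_left hP (fun q A l hl => (hvis q A l hl).1)
      fun κ hκ q hq c hc => ?_, fun y => ?_, ?_⟩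
  · refine good h.mono (hP q) (hX κ) (hX' κ) (hE q κ) (compl_subset_compl.2 (mem_powerset.1 a3))
      (ν := m + 1) (by omega) (hτ q) (hs q) (fun N u S b1 b2 => ?_) (fun b1 => ?_) hc
    · by_contra b3
      exact hκ (mem_union_right _ (mem_union_right _ (mem_biUnion.2 ⟨q,
        mem_filter.2 ⟨mem_univ _, hq⟩, mem_filter.2 ⟨mem_univ _, N, u, S, b1, b2, by omega⟩⟩)))
    · exact hκ (mem_union_right _ (mem_union_left _ (mem_filter.2 ⟨mem_univ _, q, hq, b1⟩)))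
  · by_contra hc
    push Not at hc
    exact a4 (mem_filter.2 ⟨a3, y, disjoint_left.2 hc⟩)
  · have b1 : (((univ.filter fun q => lev q = n).biUnion BA).card : ℝ) ≤ δ * Kc := by
      refine le_trans (b := ∑ q with lev q = n, ((BA q).card : ℝ))
        (by exact_mod_cast card_biUnion_le) ?_
      rw [hδ, sum_mul]
      exact sum_le_sum fun q _ => few_hits h.mono h.loc (fun A => (hD q A).trans (ht q)) hm hm1
        (hτ q) ha ha1 hkey _
    have b2 : ((Bad ∪ (BB V' ∪ (univ.filter fun q => lev q = n).biUnion BA)).card : ℝ) ≤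
        Bad.card + ((BB V').card + ((univ.filter fun q => lev q = n).biUnion BA).card) := by
      exact_mod_cast (card_union_le _ _).trans (Nat.add_le_add_left (card_union_le _ _) _)
    linarith

theorem core {L D m M : ℕ} (hP : ∀ q, Pot (F q) (val q) (Ds q))
    (hvis : ∀ q A, ∀ l ∈ Ds q A, lvl kd lev l.1 ≤ lev q ∧ wid kd s l.1 ≤ t q)
    (hD : ∀ q A, (Ds q A).card ≤ t q) (ht : ∀ q, t q ≤ D) (hτ : ∀ q, 1 ≤ τ q)
    (hs : ∀ q, 2 * ((2 * τ q + 1) * (t q * t q)) + τ q ≤ s q)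
    (hm : Fintype.card Y < 2 ^ m) (hm1 : 1 ≤ m) {a : ι → ℝ} (ha : ∀ R, 0 ≤ a R)
    (ha1 : ∑ R, a R ≤ 1)
    (hkey : ∀ R, ((2 * D * 2 ^ ((m + 1) * wid kd s R) *
      2 ^ ((m + 1) * ((m + 1) * wid kd s R)) : ℕ) : ℝ) ≤ a R * Fintype.card (Key R))
    {x : ℝ} (hx : 0 < x) (hx1 : x ≤ 1) (hxE : 2 ^ 13 * (D * D : ℕ) * x ≤ 1)
    (hM : 2 * (Fintype.card Y : ℝ) ≤ (1 + x) ^ M) (hsum : 3 * ∑ q, (1 / 2 : ℝ) ^ τ q < 1)
    (Near : ℕ → Y → Y → Prop) (hN : ∀ y, Near 0 y y)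
    (hsp : ∀ n < L, ∀ V : Finset Y, (∀ y, ∃ y' ∈ V, Near n y y') →
      ∀ y, ∃ K ⊆ V, M ≤ K.card ∧ ∀ y' ∈ K, Near (n + 1) y y') :
    ∃ (V : Finset Y) (acc : Acc Y Key) (Bad : Finset (∀ R, Key R)) (κ : ∀ R, Key R), κ ∉ Bad ∧
      State kd lev s τ F L V acc Bad ∧ ∀ y, ∃ y' ∈ V, Near L y y' := by
  classical
  have key : ∀ n ≤ L, ∃ V acc Bad, State kd lev s τ F n V acc Bad ∧ (∀ y, ∃ y' ∈ V, Near n y y') ∧
      (Bad.card : ℝ) ≤ 3 * (∑ q with lev q < n, (1 / 2) ^ τ q) * Fintype.card (∀ R, Key R) := by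
    intro n hn
    induction n with
    | zero => exact ⟨_, _, _, state_zero, fun y => ⟨y, mem_univ _, hN y⟩, by simp⟩
    | succ n ih =>
      obtain ⟨V, acc, Bad, h1, h2, h3⟩ := ih (by omega)
      choose K k1 k2 k3 using hsp n (by omega) V h2
      obtain ⟨V', acc', Bad', h4, h5, h6⟩ := h1.step hP hvis hD ht hτ hs hm hm1 ha ha1 hkey hx hx1
        hxE hM K fun y => ⟨k1 y, k2 y⟩
      refine ⟨V', acc', Bad', h4, fun y => ?_, ?_⟩
      · obtain ⟨y', a1, a2⟩ := h5 y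
        exact ⟨y', a1, k3 y y' a2⟩
      · have e : (univ.filter fun q => lev q < n + 1) =
            (univ.filter fun q => lev q < n) ∪ univ.filter fun q => lev q = n := by
          ext q
          simp only [mem_filter, mem_univ, true_and, mem_union]
          omega
        rw [e, sum_union (disjoint_filter.2 fun q _ h => h.ne)]
        linarith
  obtain ⟨V, acc, Bad, h1, h2, h3⟩ := key L le_rfl
  have h4 : (0 : ℝ) < Fintype.card (∀ R, Key R) := by exact_mod_cast Fintype.card_pos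
  have h5 : ∑ q with lev q < L, (1 / 2 : ℝ) ^ τ q ≤ ∑ q, (1 / 2 : ℝ) ^ τ q :=
    sum_le_sum_of_subset_of_nonneg (filter_subset _ _) fun _ _ _ => by positivity
  obtain ⟨κ, -, hκ⟩ := exists_mem_notMem_of_card_lt_card (s := Bad) (t := univ) (by
    have h6 : (Bad.card : ℝ) < Fintype.card (∀ R, Key R) := h3.trans_lt (by nlinarith)
    rw [card_univ]
    exact_mod_cast h6)
  exact ⟨V, acc, Bad, κ, hκ, h1, h2⟩

end Pool.Agent.MP_a2d820_lc.h22
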