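import Mathlib
import Pool.Agent.MP_a2d820_lc.h69.Defs

/-!
Unambiguous polynomial time relative to an oracle, and truth-table reductions.
-/

set_option autoImplicit false

namespace Pool.Agent.MP_a2d820_lc.h22

open Pool.Agent.MP_a2d820_lc.h69

/-- Unambiguous polynomial time relative to `A`: as `RelNP A`, with at most one witness on every
input. -/
def RelUP (A : List Bool → Bool) : Set (List Bool → Bool) :=
  {L | ∃ p : Polynomial ℕ, ∃ R ∈ RelP A,
    (∀ x, L x = true ↔
      ∃ w : List Bool, w.length ≤ p.eval x.length ∧ R (N487b59b3.delimit x ++ w) = true) ∧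
    ∀ x w w' : List Bool, w.length ≤ p.eval x.length → w'.length ≤ p.eval x.length →
      R (N487b59b3.delimit x ++ w) = true → R (N487b59b3.delimit x ++ w') = true → w = w'}

/-- The languages decided in polynomial time with one round of parallel queries to `C`: the list
of queries and the evaluation of the answers are polynomial-time functions without oracle. -/
def RelTT (C : List Bool → Bool) : Set (List Bool → Bool) :=
  {L | ∃ (Q : List Bool → List (List Bool)) (g : List Bool × List Bool → Bool),
    N68a2faeb.IsPolyTime Q ∧ N68a2faeb.IsPolyTime g ∧ ∀ x, L x = g (x, (Q x).map C)}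

end Pool.Agent.MP_a2d820_lc.h22
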