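import Mathlib
import Pool.Agent.MP_a2d820_lc.h22.Iface
import Pool.Agent.MP_a2d820_lc.h22.Defs

/-!
Reading a stored bit with parallel queries, and evaluating trees of any height in polynomial space.
-/

set_option autoImplicit false

namespace Pool.Agent.MP_a2d820_lc.h22p

open Finset Pool.Agent.MP_a2d820_lc.h69 Pool.Agent.MP_a2d820_lc.h31u Pool.Agent.PolyT
  Pool.Agent.H82 N487b59b3 Function
open Pool.Agent.MP_a2d820_lc.h22 (RelTT)

theorem dig_eq (u : List Bool) (j : ℕ) : dig u j = rt u.length j := by
  simp [rt, dig]

theorem count_range (P : ℕ → Bool) (n : ℕ) :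
    (((List.range n).map P).filter fun b => b).length = #{j ∈ range n | P j = true} := by
  induction n with
  | zero => simp
  | succ n ih =>
    rw [List.range_succ, List.map_append, List.filter_append, List.length_append, ih,
      range_add_one, filter_insert]
    by_cases h : P n = true
    · rw [if_pos h, card_insert_of_notMem (by simp)]
      simp [h]
    · simp [h]

theorem cd_mem {U : List Bool → List Bool} (hU : PolyT.Poly U) (A : Lang) (k : ℕ) :
    (fun x => cd (U x).length k fun j => A (ad (U x) j 0)) ∈ RelTT (gl A k) := by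
  have hg : PolyT.Poly fun p : List Bool × List Bool => (p.2.filter fun b => b).length :=
    by fun_prop
  refine ⟨fun x => (idx (U x)).map fun j => bitEncode (U x, dig (U x) j),
    fun p => (p.2.filter fun b => b).length.bodd, (poly_iff _).1 (by unfold dig; fun_prop),
    (poly_iff _).1 hg.bodd, fun x => ?_⟩
  simp only [List.map_map, idx, count_range, comp_apply, gl_enc, dig_eq, cd]
  rw [Bool.eq_iff_iff, decide_eq_true_iff, Nat.odd_iff, Nat.mod_two_of_bodd]
  cases Nat.bodd _ <;> simp

/-- The value of a binary tree of disjunctions, with negations on the marked layers. -/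
def tv (a : Lang) : List Bool → Lang
  | [] => a
  | g :: h => fun j => xor g (tv a h (false :: j)) || xor g (tv a h (true :: j))

theorem tv_block (a : Lang) (h : List Bool) (r : ℕ) (j : List Bool) :
    tv a (List.replicate r false ++ true :: h) j = true ↔
      ∃ w : List Bool, w.length = r + 1 ∧ tv a h (w ++ j) = false := by
  induction r generalizing j with
  | zero =>
    simp only [List.replicate_zero, List.nil_append, tv, Bool.true_xor, Bool.or_eq_true,
      Bool.not_eq_true']
    refine ⟨fun h => h.elim (fun h => ⟨[false], rfl, h⟩) fun h => ⟨[true], rfl, h⟩, ?_⟩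
    rintro ⟨w, hw, h⟩
    obtain ⟨_ | _, rfl⟩ := List.length_eq_one_iff.1 hw
    exacts [Or.inl h, Or.inr h]
  | succ r ih =>
    simp only [List.replicate_succ, List.cons_append, tv, Bool.false_xor, Bool.or_eq_true, ih]
    constructor
    · rintro (⟨w, hw, h⟩ | ⟨w, hw, h⟩)
      · exact ⟨w ++ [false], by simp [hw], by simpa using h⟩
      · exact ⟨w ++ [true], by simp [hw], by simpa using h⟩
    · rintro ⟨w, hw, h⟩
      obtain rfl | ⟨w', b, rfl⟩ := List.eq_nil_or_concat' w
      · simp at hw
      · have : w'.length = r + 1 := by simpa using hw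
        cases b
        · exact Or.inl ⟨w', this, by simpa using h⟩
        · exact Or.inr ⟨w', this, by simpa using h⟩

/-- The marks of a tree of height `i` and fan-in `2 ^ (r + 1)`. -/
def mk (r : ℕ) : ℕ → List Bool
  | 0 => []
  | i + 1 => List.replicate r false ++ true :: mk r i

theorem length_mk (r i : ℕ) : (mk r i).length = i * (r + 1) := by
  induction i with
  | zero => simp [mk]
  | succ i ih => simp [mk, ih]; ring

theorem tv_mk (a : Lang) (r i : ℕ) : tv a (mk r i) = nv (r + 1) i a := by
  induction i with
  | zero => rfl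
  | succ i ih =>
    funext j
    rw [Bool.eq_iff_iff, mk, tv_block, ih]
    simp [nv]

/-- The value of the tree named by the input. -/
def ga (A : Lang) : Lang := fun c =>
  tv (fun j => A (ad (row c) j 0)) (third (sel false (sel false c))) (third (sel true (sel false c)))

theorem ga_enc (A : Lang) (x j h : List Bool) :
    ga A (bitEncode (x, j, h)) = tv (fun j => A (ad x j 0)) h j := by
  simp [ga, row, enc_pair, sel_pair, third_enc]

/-- The state `s'` is reached through good states. -/
def Rch {α : Type} (f : α → α) (ok : α → Prop) (s s' : α) : Prop :=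
  ∃ t, f^[t] s = s' ∧ ∀ r < t, ok (f^[r] s)

theorem Rch.trans {α : Type} {f : α → α} {ok : α → Prop} {s s' s'' : α} (h : Rch f ok s s')
    (h' : Rch f ok s' s'') : Rch f ok s s'' := by
  obtain ⟨t, rfl, h1⟩ := h
  obtain ⟨t', rfl, h2⟩ := h'
  refine ⟨t' + t, iterate_add_apply _ _ _ _, fun r hr => ?_⟩
  rcases lt_or_ge r t with h | h
  · exact h1 r h
  · obtain ⟨r, rfl⟩ := Nat.exists_eq_add_of_le' h
    rw [iterate_add_apply]
    exact h2 r (by omega)

theorem Rch.one {α : Type} {f : α → α} {ok : α → Prop} {s s' : α} (h : ok s) (e : f s = s') :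
    Rch f ok s s' :=
  ⟨1, e, fun r hr => by obtain rfl : r = 0 := by omega
                        exact h⟩

theorem ga_mem (A : Lang) : ga A ∈ RelPSPACE A := by
  have hrow : PolyT.Poly row := by unfold row; fun_prop
  let J : List Bool → List Bool := fun c => third (sel true (sel false c))
  let H : List Bool → List Bool := fun c => third (sel false (sel false c))
  have hJ : PolyT.Poly J := by fun_prop
  have hH : PolyT.Poly H := by fun_prop
  let bb : St → Bool := fun s =>
    xor ((H s.1).getD (s.2.1.length - (J s.1).length - 1) false) (s.2.2.getD 0 false)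
  have hbb : PolyT.Poly bb := by fun_prop
  let δ : St × Bool → St := fun p =>
    bif eqB p.1.2.2.length 0 then
      bif eqB p.1.2.1.length ((J p.1.1).length + (H p.1.1).length) then (p.1.1, p.1.2.1, [p.2])
      else (p.1.1, false :: p.1.2.1, [])
    else bif p.1.2.1.getD 0 false || bb p.1 then (p.1.1, p.1.2.1.drop 1, [bb p.1])
      else (p.1.1, true :: p.1.2.1.drop 1, [])
  let fin : St → Bool := fun s => eqB s.2.2.length 1 && eqB s.2.1.length (J s.1).length
  obtain ⟨M, hM⟩ := exists_om (ini := fun c => (c, J c, [])) (Q := fun s => ad (row s.1) s.2.1 0)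
    (δ := δ) (fin := fin) (out := fun p => p.1.2.2.getD 0 false)
    (by fun_prop) (by fun_prop) (by fun_prop) (by fun_prop) (by fun_prop)
  obtain ⟨p, hp⟩ := (show PolyT.Poly fun c => J c ++ H c by fun_prop).bd
  refine ⟨M, 6 * p.comp (3 * Polynomial.X) + 6 * Polynomial.X + 7, fun c => ?_⟩
  let f : St → St := fun s => δ (s, A (ad (row s.1) s.2.1 0))
  let ok : St → Prop := fun s => fin s = false ∧ s.1 = c ∧
    s.2.1.length ≤ (J c).length + (H c).length ∧ s.2.2.length ≤ 1
  have e0 : ∀ m : ℕ, eqB m m = true := fun m => by simp
  have key : ∀ (h pre j : List Bool), H c = pre ++ h → j.length = (J c).length + pre.length →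
      Rch f ok (c, j, []) (c, j, [tv (fun j => A (ad (row c) j 0)) h j]) := by
    intro h
    induction h with
    | nil =>
      intro pre j e hj
      rw [List.append_nil] at e
      exact .one ⟨by simp [fin], rfl, by simp [e, hj], by simp⟩ (by simp [f, δ, e, hj, tv, e0])
    | cons g h ih =>
      intro pre j e hj
      have h1 : (H c).length = pre.length + h.length + 1 := by simp [e]; omega
      have h2 : ∀ s : Bool, Rch f ok (c, s :: j, []) _ := fun s =>
        ih (pre ++ [g]) (s :: j) (by simp [e]) (by simp [hj]; omega)
      have h3 : ∀ s b : Bool, ok (c, s :: j, [b]) := fun s b =>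
        ⟨by simp [fin, hj]; omega, rfl, by simp [hj]; omega, by simp⟩
      have h4 : ∀ s b : Bool, bb (c, s :: j, [b]) = xor g b := fun s b => by
        simp [bb, hj, e, show (J c).length + pre.length + 1 - (J c).length - 1 = pre.length by omega]
      have h5 : eqB j.length ((J c).length + (H c).length) = false := by simp; omega
      refine (Rch.one (s' := (c, false :: j, [])) ⟨by simp [fin], rfl, by simp [hj]; omega,
        by simp⟩ (by simp [f, δ, h5, e0])).trans ((h2 false).trans ?_)
      cases hb : xor g (tv (fun j => A (ad (row c) j 0)) h (false :: j))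
      · refine (Rch.one (h3 _ _) ?_).trans ((h2 true).trans (.one (h3 _ _) ?_))
        · simp only [f, δ, h4, hb]
          rfl
        · simp only [f, δ, h4, tv, hb]
          rfl
      · refine .one (h3 _ _) ?_
        simp only [f, δ, h4, tv, hb]
        rfl
  obtain ⟨t, h1, h2⟩ := key (H c) [] (J c) rfl rfl
  have h3 := hp c
  simp only [PolyT.Poly.enc_bools_length, List.length_append] at h3
  simp only [Polynomial.eval_add, Polynomial.eval_comp, Polynomial.eval_mul, Polynomial.eval_X,
    Polynomial.eval_ofNat]
  have h4 := hM A c t (6 * p.eval (3 * c.length) + 6 * c.length + 7)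
    (fun r => f^[r] (c, J c, [])) rfl (fun r _ => iterate_succ_apply' _ _ _)
    (fun r hr => (h2 r hr).1) (by simp [h1, fin]) (fun r hr => ?_) (by omega)
  · rw [h1] at h4
    exact ⟨t + 1, h4⟩
  · rcases hr.lt_or_eq with hr | rfl
    · obtain ⟨-, a1, a2, a3⟩ := h2 r hr
      rw [length_st, a1]
      omega
    · simp only [h1, length_st, List.length_singleton]
      omega

end Pool.Agent.MP_a2d820_lc.h22p
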