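import Mathlib
import Pool.Agent.MP_a2d820_lc.h22.Core
import Pool.Agent.MP_a2d820_lc.h22.Defs

/-!
The oracle that stores the answer to every question as the parity of a number of switched-on
regions, each with one hidden key.
-/

set_option autoImplicit false

namespace Pool.Agent.MP_a2d820_lc.h22

open Pool.Agent.MP_a2d820_lc.h69 Pool.Agent.MP_a2d820_lc.h31u Pool.Agent.PolyT Pool.Agent.H82
  N487b59b3 Function Finset

/-- The function has a potential with certificates of size at most `t`. -/
def HasPot (t : ℕ) (f : Lang → Bool) : Prop :=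
  ∃ val Ds, Pot f val Ds ∧ ∀ A, (Ds A).card ≤ t

theorem HasPot.mono {t t' : ℕ} {f : Lang → Bool} (h : HasPot t f) (ht : t ≤ t') : HasPot t' f := by
  obtain ⟨val, Ds, h1, h2⟩ := h
  exact ⟨val, Ds, h1, fun A => (h2 A).trans ht⟩

theorem hasPot_of_dtq {Q : Set (Lang → Bool)} {w d : ℕ} {f : Lang → Bool} (h : DTq Q d f)
    (hQ : ∀ g ∈ Q, ∀ A, ∃ D : Finset (List Bool), D.card ≤ w ∧
      ∀ A' : Lang, (∀ s ∈ D, A' s = A s) → g A = true → g A' = true) : HasPot (d * w) f := by
  have key : ∃ (val : Lang → ℕ) (Ds : Lang → Finset (List Bool)), (∀ A, val A < 2 ^ d) ∧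
      Pot f val Ds ∧ ∀ A, (Ds A).card ≤ d * w := by
    induction h with
    | const d b => exact ⟨fun _ => 0, fun _ => ∅, fun _ => by positivity,
        fun _ _ _ => ⟨le_rfl, fun _ => rfl⟩, by simp⟩
    | @node d g f₀ f₁ hg _ _ ih₀ ih₁ =>
      obtain ⟨v₀, D₀, a1, a2, a3⟩ := ih₀
      obtain ⟨v₁, D₁, b1, b2, b3⟩ := ih₁
      choose D c1 c2 using hQ g hg
      refine ⟨fun A => bif g A then 2 ^ d + v₁ A else v₀ A,
        fun A => bif g A then D A ∪ D₁ A else D₀ A, fun A => ?_, fun A A' h => ?_, fun A => ?_⟩
      · have := a1 A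
        have := b1 A
        rw [pow_succ]
        cases hA : g A <;> simp only [hA, cond_true, cond_false] <;> omega
      · cases hA : g A
        · simp only [hA, cond_false] at h ⊢
          have := a1 A
          cases hA' : g A'
          · exact a2 A A' h
          · simp only [cond_true]
            omega
        · simp only [hA, cond_true] at h ⊢
          have h1 := b2 A A' fun l hl => h l (mem_union_right _ hl)
          simp only [c2 A A' (fun l hl => h l (mem_union_left _ hl)) hA, cond_true]
          exact ⟨by omega, fun e => h1.2 (by omega)⟩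
      · have := a3 A
        have := b3 A
        have := c1 A
        have := card_union_le (D A) (D₁ A)
        rw [Nat.succ_mul]
        cases hA : g A <;> simp only [hA, cond_true, cond_false] <;> omega
  obtain ⟨val, Ds, -, h1, h2⟩ := key
  exact ⟨val, Ds, h1, h2⟩

/-- Enumerations of functions of an input and an oracle. -/
abbrev Enum := ℕ → List Bool → Lang → Bool

open Classical in
/-- The answer to the question `u`. -/
noncomputable def fq (G : Enum) (u : List Bool) (O : Lang) : Bool :=
  decide (∃ (i : ℕ) (x y : List Bool), u = bitEncode (i, x, y) ∧ HasPot u.length (G i x) ∧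
    G i x (trunc u.length O) = true)

theorem fq_congr (G : Enum) (u : List Bool) {A A' : Lang}
    (h : ∀ v, v.length < u.length → A v = A' v) : fq G u A = fq G u A' := by
  rw [fq, fq, trunc_congr h]

theorem fq_enc (G : Enum) {i : ℕ} {x y : List Bool}
    (h : HasPot (bitEncode (i, x, y)).length (G i x)) (O : Lang) :
    fq G (bitEncode (i, x, y)) O = G i x (trunc (bitEncode (i, x, y)).length O) := by
  classical
  rw [Bool.eq_iff_iff, fq, decide_eq_true_iff]
  refine ⟨fun ⟨i', x', y', e, _, h2⟩ => ?_, fun h2 => ⟨i, x, y, rfl, h, h2⟩⟩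
  obtain ⟨rfl, rfl, -⟩ : i = i' ∧ x = x' ∧ y = y' := by simpa using bitEncode_injective e
  exact h2

theorem fq_pot (G : Enum) (u : List Bool) : ∃ val Ds, Pot (fq G u) val Ds ∧
    ∀ A, (Ds A).card ≤ u.length ∧ ∀ s ∈ Ds A, s.length < u.length := by
  classical
  by_cases h : ∃ (i : ℕ) (x y : List Bool), u = bitEncode (i, x, y) ∧ HasPot u.length (G i x)
  · obtain ⟨i, x, y, rfl, h⟩ := h
    obtain ⟨val, Ds, h1, h2⟩ := id h
    set t := (bitEncode (i, x, y)).length
    refine ⟨fun A => val (trunc t A), fun A => (Ds (trunc t A)).filter (·.length < t),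
      fun A A' h3 => ?_, fun A => ⟨(card_filter_le _ _).trans (h2 _),
        fun s hs => (mem_filter.1 hs).2⟩⟩
    rw [fq_enc G h, fq_enc G h]
    refine h1 _ _ fun s hs => ?_
    by_cases hs' : s.length < t
    · simp only [trunc, h3 s (mem_filter.2 ⟨hs, hs'⟩)]
    · simp [trunc, hs']
  · refine ⟨fun _ => 0, fun _ => ∅, fun A A' _ => ⟨le_rfl, fun _ => ?_⟩, by simp⟩
    have : ∀ O, fq G u O = false := fun O => decide_eq_false fun ⟨i, x, y, h1, h2, _⟩ =>
      h ⟨i, x, y, h1, h2⟩
    rw [this, this]

/-- The data of the rows: a free bit, a proposed number of regions, and the keys. -/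
abbrev Par := List Bool → Bool × ℕ × (ℕ → List Bool)

/-- The key of the region `(u, j)`. -/
def key (θ : Par) (u : List Bool) (j : ℕ) : List Bool := ((θ u).2.2 j).take (u.length ^ 7)

/-- The number of regions of the row `u` that are switched on. -/
noncomputable def num (G : Enum) (θ : Par) (u : List Bool) (O : Lang) : ℕ :=
  if (θ u).2.1 ≤ 6 * u.length ∧ (θ u).2.1.bodd = fq G u O then (θ u).2.1 else (fq G u O).toNat

/-- The region `(u, j)` is switched on. -/
def lit (G : Enum) (θ : Par) (u : List Bool) (j : ℕ) (O : Lang) : Prop :=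
  (j = 0 ∧ (θ u).1 = true) ∨ (0 < j ∧ j ≤ num G θ u O)

open Classical in
/-- The oracle with row data `θ`. -/
noncomputable def orc (G : Enum) (θ : Par) : Lang :=
  fix fun s O => decide (∃ u w j, s = ad u w j ∧ w = key θ u j ∧ lit G θ u j O)

theorem lit_congr (G : Enum) (θ : Par) (u : List Bool) (j : ℕ) {A A' : Lang}
    (h : ∀ v, v.length < u.length → A v = A' v) : lit G θ u j A ↔ lit G θ u j A' := by
  rw [lit, lit, num, num, fq_congr G u h]

theorem orc_iff (G : Enum) (θ : Par) (s : List Bool) : orc G θ s = true ↔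
    ∃ u w j, s = ad u w j ∧ w = key θ u j ∧ lit G θ u j (orc G θ) := by
  classical
  have e : orc G θ s = decide (∃ u w j, s = ad u w j ∧ w = key θ u j ∧
      lit G θ u j fun v => if v.length < s.length then orc G θ v else false) := by
    rw [orc, fix]
  rw [e, decide_eq_true_iff]
  refine exists₃_congr fun u w j => and_congr_right fun h => and_congr_right' ?_
  exact lit_congr G θ u j fun v hv => if_pos (hv.trans_le (h ▸ le_length_ad u w j))

theorem orc_off (G : Enum) (θ : Par) {s : List Bool} (h : ¬∃ u w j, s = ad u w j) :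
    orc G θ s = false :=
  Bool.eq_false_iff.2 fun h' => by
    obtain ⟨u, w, j, h1, -⟩ := (orc_iff G θ s).1 h'
    exact h ⟨u, w, j, h1⟩

theorem orc_ad (G : Enum) (θ : Par) (u w : List Bool) (j : ℕ) :
    orc G θ (ad u w j) = true ↔ w = key θ u j ∧ lit G θ u j (orc G θ) := by
  rw [orc_iff]
  refine ⟨fun ⟨u', w', j', h1, h2⟩ => ?_, fun h => ⟨u, w, j, rfl, h⟩⟩
  obtain ⟨rfl, rfl, rfl⟩ := ad_inj h1
  exact h2

theorem num_bodd (G : Enum) (θ : Par) (u : List Bool) (O : Lang) :
    (num G θ u O).bodd = fq G u O := by
  unfold num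
  split_ifs with h
  · exact h.2
  · cases fq G u O <;> rfl

theorem num_le (G : Enum) (θ : Par) {u : List Bool} (hu : 0 < u.length) (O : Lang) :
    num G θ u O ≤ 6 * u.length := by
  unfold num
  split_ifs with h
  · exact h.1
  · have := Bool.toNat_le (fq G u O)
    omega

/-- Two families of row data agree on the rows shorter than `l`. -/
def Agr (l : ℕ) (θ θ' : Par) : Prop := ∀ u, u.length < l → θ u = θ' u

theorem Agr.orc {l : ℕ} {θ θ' : Par} (h : Agr l θ θ') (G : Enum) (s : List Bool)
    (hs : ∀ u w j, s = ad u w j → u.length < l) : orc G θ s = orc G θ' s := by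
  induction hn : s.length using Nat.strong_induction_on generalizing s with
  | _ n ih =>
    by_cases hc : ∃ u w j, s = ad u w j
    · obtain ⟨u, w, j, rfl⟩ := hc
      have h1 := le_length_ad u w j
      have h2 := hs u w j rfl
      have h3 : fq G u (h22.orc G θ) = fq G u (h22.orc G θ') := fq_congr G u fun v hv =>
        ih _ (by omega) v (fun u' w' j' e => by
          have := le_length_ad u' w' j'
          rw [← e] at this
          omega) rfl
      rw [Bool.eq_iff_iff, orc_ad, orc_ad, key, key, lit, lit, num, num, h u h2, h3]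
    · rw [orc_off _ _ hc, orc_off _ _ hc]

theorem Agr.short {l : ℕ} {θ θ' : Par} (h : Agr l θ θ') (G : Enum) (s : List Bool)
    (hs : s.length < l) : h22.orc G θ s = h22.orc G θ' s :=
  h.orc G s fun u w j e => (e ▸ le_length_ad u w j : u.length ≤ s.length).trans_lt hs

open Classical in
/-- The set of regions that are switched on. -/
noncomputable def onl (G : Enum) (θ : Par) : Lang := fun c =>
  decide (lit G θ (row c) (ofBits (sel false c)) (orc G θ))

theorem onl_enc (G : Enum) (θ : Par) (u : List Bool) (j : ℕ) :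
    onl G θ (bitEncode (u, j)) = true ↔ lit G θ u j (orc G θ) := by
  simp [onl, row, enc_pair, sel_pair, third_enc, enc_nat, ofBits_bits]

theorem onl_mem (G : Enum) (θ : Par) : onl G θ ∈ RelUP (orc G θ) := by
  have hrow : PolyT.Poly row := by unfold row; fun_prop
  obtain ⟨p, hp⟩ := hrow.bd
  refine ⟨(p.comp (3 * Polynomial.X)) ^ 7, _, one_query (Q := fun d => ad (row (sel true d))
    (sel false d) (ofBits (sel false (sel true d)))) (by fun_prop) false _,
    fun c => ?_, fun c w w' _ _ => ?_⟩
  · simp only [sel_pair, if_true, Bool.false_eq_true, if_false, Bool.false_xor, orc_ad, onl,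
      decide_eq_true_eq]
    refine ⟨fun h => ⟨_, ?_, rfl, h⟩, fun ⟨_, _, _, h⟩ => h⟩
    have := hp c
    simp only [PolyT.Poly.enc_bools_length] at this
    simp only [key, List.length_take, Polynomial.eval_pow, Polynomial.eval_comp,
      Polynomial.eval_mul, Polynomial.eval_ofNat, Polynomial.eval_X]
    exact (min_le_left _ _).trans (Nat.pow_le_pow_left (by omega) _)
  · simp only [sel_pair, if_true, Bool.false_eq_true, if_false, Bool.false_xor, orc_ad]
    exact fun h h' => h.1.trans h'.1.symm

theorem count_le {I J : ℕ} (h : I ≤ J) :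
    (((List.range J).map fun j => decide (j + 1 ≤ I)).filter fun b => b).length = I := by
  have key : ∀ J, (((List.range J).map fun j => decide (j + 1 ≤ I)).filter fun b => b).length =
      min I J := by
    intro J
    induction J with
    | zero => simp
    | succ J ih =>
      rw [List.range_succ, List.map_append, List.filter_append, List.length_append, ih]
      by_cases e : J + 1 ≤ I
      · simp only [List.map_cons, List.map_nil, e, decide_true, List.filter_cons_of_pos,
          List.filter_nil, List.length_singleton]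
        omega
      · simp only [List.map_cons, List.map_nil, e, decide_false, Bool.false_eq_true,
          not_false_eq_true, List.filter_cons_of_neg, List.filter_nil, List.length_nil]
        omega
  rw [key, min_eq_left h]

theorem tt_of_pot {G : Enum} (θ : Par) (i : ℕ) (r : Polynomial ℕ)
    (h1 : ∀ x, HasPot (r.eval x.length) (G i x))
    (h2 : ∀ (x : List Bool) (A A' : Lang), (∀ v, v.length ≤ r.eval x.length → A v = A' v) →
      G i x A = G i x A') : (fun x => G i x (orc G θ)) ∈ RelTT (onl G θ) := by
  obtain ⟨F, hF, hF'⟩ := exists_list_eval (l := fun x : List Bool => x) (by fun_prop) r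
  let u : List Bool → List Bool := fun x => bitEncode (i, x, (F x).map fun _ => false)
  have hu : PolyT.Poly u := by fun_prop
  have hlen : ∀ x, r.eval x.length < (u x).length := by
    intro x
    have := hF' x
    simp only [u, length_enc_pair, PolyT.Poly.enc_bools_length, List.length_map]
    omega
  obtain ⟨F₁, hF₁, hF₁'⟩ := exists_list_eval hu (6 * Polynomial.X)
  have hg : PolyT.Poly fun p : List Bool × List Bool => (p.2.filter fun b => b).length :=
    by fun_prop
  refine ⟨fun x => (idx (F₁ x)).map fun j => bitEncode (u x, j + 1),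
    fun p => (p.2.filter fun b => b).length.bodd, (poly_iff _).1 (by fun_prop),
    (poly_iff _).1 hg.bodd, fun x => ?_⟩
  have h3 := hlen x
  have h4 : (F₁ x).length = 6 * (u x).length := by simpa using hF₁' x
  have h5 : onl G θ ∘ (fun j => bitEncode (u x, j + 1)) =
      fun j => decide (j + 1 ≤ num G θ (u x) (orc G θ)) := funext fun j => by
    rw [Bool.eq_iff_iff, comp_apply, onl_enc]
    simp [lit]
  simp only [List.map_map, h5, idx, h4]
  rw [count_le (num_le G θ (by omega) _), num_bodd, fq_enc G ((h1 x).mono h3.le)]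
  refine h2 x _ _ fun v hv => ?_
  have : v.length < (u x).length := by omega
  rw [trunc, decide_eq_true this, Bool.true_and]

/-- Descriptions of deterministic machines with a nondeterministic oracle. -/
abbrev Mach := (OM × Polynomial ℕ) × (OM × Polynomial ℕ) × OM × Polynomial ℕ × Polynomial ℕ

/-- The function computed by such a machine. -/
noncomputable def mfun (m : Mach) (x : List Bool) (A : Lang) : Bool :=
  clk m.1.1 m.1.2 (join A (ev m.2.1 [m.2.2] A)) x

theorem mfun_pot (m : Mach) : ∃ r : Polynomial ℕ, (∀ x, HasPot (r.eval x.length) (mfun m x)) ∧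
    ∀ (x : List Bool) (A A' : Lang), (∀ v, v.length ≤ r.eval x.length → A v = A' v) →
      mfun m x A = mfun m x A' := by
  obtain ⟨⟨M, p⟩, b, a⟩ := m
  obtain ⟨q, hq⟩ := M.exists_qb
  obtain ⟨B, h1, h2⟩ := ev_bound b [a]
  set W : Polynomial ℕ := B.comp (q.comp p) + 1 with hW
  have e1 : ∀ n, W.eval n = B.eval (q.eval (p.eval n)) + 1 := fun n => by simp [hW]
  refine ⟨p * (W * W) + W + q.comp p, fun x => ?_, fun x A A' h => clkF_congr (fun c hc => ?_) _ _⟩
  · set w := W.eval x.length with hw
    have hw1 : 1 ≤ w := by rw [hw, e1]; omega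
    refine (hasPot_of_dtq (w := w * w) (clkF_dt (M := M) (s := p.eval x.length)
      (O := fun A => join A (ev b [a] A)) (Q := {g | IsOr {g | DT w g} w g}) (fun c hc => ?_)
      (p.eval x.length) (true :: true :: x)) ?_).mono (by
        simp only [Polynomial.eval_add, Polynomial.eval_mul, ← hw]
        omega)
    · have h3 := hq c _ hc
      rcases hc' : M.qry c with _ | ⟨_ | _, v⟩
      · exact isOr_of_dtq (.const _ false)
      · exact isOr_of_dtq ((dtq_one (Q := {g | DT w g}) ((dt_var v).mono hw1)).mono hw1)
      · rw [hc', List.length_cons] at h3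
        obtain ⟨H, -, a2, a3⟩ := h2 (List Bool) id (q.eval (p.eval x.length)) w _
          (fun v => dt_var v) (by rw [hw, e1]; omega) le_rfl
        refine isOr_mono (a3 _ ⟨v, by omega, rfl⟩) ?_ le_rfl
        rintro g (hg | hg)
        · exact a2 g hg
        · exact DTq.mono hg hw1
    · rintro g ⟨H, a1, a2⟩ A
      by_cases hA : g A = true
      · obtain ⟨g', b1, b2⟩ := (a2 A).1 hA
        obtain ⟨D, b3, b4⟩ := DT.cert ((a1 g' b1).comp fun g hg => hg) A
        exact ⟨D, b3, fun A' h _ => (a2 A').2 ⟨g', b1, (b4 A' h).trans b2⟩⟩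
      · exact ⟨∅, by simp, fun _ _ h => absurd h hA⟩
  · have h3 := hq c (p.eval x.length) hc
    simp only [Polynomial.eval_add, Polynomial.eval_comp, e1] at h
    rcases hc' : M.qry c with _ | ⟨_ | _, v⟩
    · rfl
    · rw [hc', List.length_cons] at h3
      exact h v (by omega)
    · rw [hc', List.length_cons] at h3
      exact h1 A A' v _ (by omega : _ ≤ q.eval (p.eval x.length)) fun u hu => h u (by omega)

theorem delta_sub {mc : ℕ → Mach} (hmc : Surjective mc) (θ : Par) {B L : Lang}
    (hB : B ∈ RelSigma (orc (fun i => mfun (mc i)) θ) 1)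
    (hL : L ∈ RelP (join (orc (fun i => mfun (mc i)) θ) B)) :
    L ∈ RelTT (onl (fun i => mfun (mc i)) θ) := by
  obtain ⟨b, l, h1, rfl⟩ := exists_ev' hB
  obtain ⟨a, rfl⟩ := List.length_eq_one_iff.1 h1
  obtain ⟨M, p, rfl⟩ := exists_clk hL
  obtain ⟨i, hi⟩ := hmc ((M, p), b, a)
  obtain ⟨r, h2, h3⟩ := mfun_pot (mc i)
  have := tt_of_pot (G := fun i => mfun (mc i)) θ i r h2 h3
  simp only [hi] at this
  exact this

end Pool.Agent.MP_a2d820_lc.h22
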