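import Mathlib
import Pool.Agent.MP_a2d820_lc.h22.Orc

/-!
One stage of the construction: a cube of oracles on which a given circuit gains two layers only.
-/

set_option autoImplicit false

namespace Pool.Agent.MP_a2d820_lc.h22

open Pool.Agent.MP_a2d820_lc.h69 Pool.Agent.MP_a2d820_lc.h31u Pool.Agent.PolyT Pool.Agent.H82
  N487b59b3 Function Finset

theorem sum_lists (T : ℕ) : ∑ u ∈ lists T, (1 / 4 : ℝ) ^ u.length ≤ 2 := by
  induction T with
  | zero => simp [lists]
  | succ T ih =>
    have hn : ∀ u : List Bool, (0 : ℝ) ≤ (1 / 4) ^ u.length := fun u => by positivity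
    have h1 : ∀ b : Bool, ∑ u ∈ (lists T).image (b :: ·), (1 / 4 : ℝ) ^ u.length ≤ 1 / 2 := by
      intro b
      rw [sum_image fun _ _ _ _ h => List.tail_eq_of_cons_eq h]
      simp only [List.length_cons, pow_succ]
      rw [← sum_mul]
      linarith
    have h2 := sum_union_inter (s₁ := (lists T).image (true :: ·))
      (s₂ := (lists T).image (false :: ·)) (f := fun u => (1 / 4 : ℝ) ^ u.length)
    have h3 := sum_nonneg fun u (_ : u ∈ (lists T).image (true :: ·) ∩
      (lists T).image (false :: ·)) => hn u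
    rw [lists, sum_insert (by simp)]
    have := h1 true
    have := h1 false
    simp only [List.length_nil, pow_zero]
    linarith

theorem sum_reg (n T : ℕ) {x : ℝ} (hx : 0 ≤ x) (hx1 : x ≤ 1) :
    ∑ q : Reg n T, (x / 4) ^ q.1.length ≤ 2 * x ^ n := by
  have h1 : ∑ q : Reg n T, (1 / 4 : ℝ) ^ q.1.length ≤ 2 := by
    rw [← sum_image (f := fun u : List Bool => (1 / 4 : ℝ) ^ u.length)
      (g := fun q : Reg n T => q.1) fun _ _ _ _ h => Subtype.ext h]
    refine (sum_le_sum_of_subset_of_nonneg (fun u hu => ?_) fun _ _ _ => by positivity).trans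
      (sum_lists T)
    obtain ⟨q, -, rfl⟩ := mem_image.1 hu
    exact mem_lists.2 q.2.2.le
  refine (sum_le_sum (g := fun q : Reg n T => (1 / 4 : ℝ) ^ q.1.length * x ^ n)
    fun q _ => ?_).trans ?_
  · rw [div_eq_mul_one_div, mul_pow, mul_comm]
    exact mul_le_mul_of_nonneg_left (pow_le_pow_of_le_one hx hx1 q.2.1) (by positivity)
  · rw [← sum_mul]
    exact mul_le_mul_of_nonneg_right h1 (by positivity)

theorem length_ad0 (u j : List Bool) : (ad u j 0).length = 6 * u.length + 6 * j.length + 2 := by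
  simp only [ad, length_enc_pair, PolyT.Poly.enc_bools_length, enc_nat, Nat.zero_bits,
    List.length_nil]
  omega

theorem split_near {H ρ n : ℕ} (h : (n + 1) * ρ ≤ H) (V : Finset (List.Vector Bool H))
    (hV : ∀ y : List.Vector Bool H, ∃ y' ∈ V, y'.1.drop (n * ρ) = y.1.drop (n * ρ))
    (y : List.Vector Bool H) : ∃ K ⊆ V, 2 ^ ρ ≤ K.card ∧
      ∀ y' ∈ K, y'.1.drop ((n + 1) * ρ) = y.1.drop ((n + 1) * ρ) := by
  choose g g1 g2 using hV
  rw [Nat.succ_mul] at h ⊢
  let c : (Fin ρ → Bool) → List.Vector Bool H := fun a =>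
    ⟨y.1.take (n * ρ) ++ (List.ofFn a ++ y.1.drop (n * ρ + ρ)), by simp [y.2]; omega⟩
  have h1 : ∀ a, (g (c a)).1.drop (n * ρ) = List.ofFn a ++ y.1.drop (n * ρ + ρ) := fun a =>
    (g2 _).trans (List.drop_left' (by simp [y.2]; omega))
  refine ⟨univ.image fun a => g (c a), fun v hv => ?_, ?_, fun v hv => ?_⟩
  · obtain ⟨a, -, rfl⟩ := mem_image.1 hv
    exact g1 _
  · rw [card_image_of_injective _ fun a a' e => List.ofFn_injective
      (List.append_cancel_right ((h1 a).symm.trans ((congrArg (fun v : List.Vector Bool H =>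
        v.1.drop (n * ρ)) e).trans (h1 a'))))]
    simp
  · obtain ⟨a, -, rfl⟩ := mem_image.1 hv
    rw [← List.drop_drop, h1, List.drop_left' (by simp)]

theorem key_le {a ν w t : ℕ} (ht : 16 ≤ t) (ha : a ≤ t) (hν : ν ≤ t) (hw : w ≤ t ^ 4) :
    ((2 * 2 ^ a * 2 ^ (ν * w) * 2 ^ (ν * (ν * w)) : ℕ) : ℝ) ≤
      (1 / 4 / 4) ^ t * ((2 ^ t ^ 7 : ℕ) : ℝ) := by
  have h1 : ν * w ≤ t ^ 5 := (Nat.mul_le_mul hν hw).trans (le_of_eq (by ring))
  have h2 : ν * (ν * w) ≤ t ^ 6 := (Nat.mul_le_mul hν h1).trans (le_of_eq (by ring))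
  have h3 : t ^ 5 ≤ t ^ 6 := Nat.pow_le_pow_right (by omega) (by omega)
  have h4 : t ≤ t ^ 6 := Nat.le_self_pow (by omega) _
  have h5 : 16 * t ^ 6 ≤ t ^ 7 := by
    rw [pow_succ' t 6]
    exact Nat.mul_le_mul_right _ ht
  have h6 : 2 * 2 ^ a * 2 ^ (ν * w) * 2 ^ (ν * (ν * w)) * 2 ^ (4 * t) ≤ 2 ^ t ^ 7 := by
    rw [← pow_succ', ← pow_add, ← pow_add, ← pow_add]
    exact Nat.pow_le_pow_right two_pos (by omega)
  have h7 : (1 / 4 / 4 : ℝ) ^ t * 2 ^ (4 * t) = 1 := by
    rw [pow_mul, ← mul_pow]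
    norm_num
  have h8 : (((2 * 2 ^ a * 2 ^ (ν * w) * 2 ^ (ν * (ν * w)) : ℕ) : ℝ)) * 2 ^ (4 * t) ≤
      ((2 ^ t ^ 7 : ℕ) : ℝ) := by exact_mod_cast h6
  refine le_trans (le_of_eq ?_) (mul_le_mul_of_nonneg_left h8 (by positivity))
  rw [mul_left_comm ((1 / 4 / 4 : ℝ) ^ t), h7, mul_one]

theorem two_pow_le {r ν M : ℕ} (h : 2 ^ r * ν ≤ M) : (2 : ℝ) ^ ν ≤ (1 + 1 / 2 ^ r) ^ M := by
  have h1 := one_add_mul_le_pow (a := (1 / (2 ^ r : ℕ) : ℝ)) (le_trans (by norm_num)
    (by positivity : (0 : ℝ) ≤ _)) (2 ^ r)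
  rw [mul_one_div_cancel (by positivity), one_add_one_eq_two, Nat.cast_pow, Nat.cast_ofNat] at h1
  refine le_trans ?_ (pow_le_pow_right₀ (le_add_of_nonneg_right (by positivity)) h)
  rw [pow_mul _ (2 ^ r)]
  exact pow_le_pow_left₀ (by norm_num) h1 _

theorem stage_core (G : Enum) (θ : Par) (x : List Bool) {H j B a : ℕ} (f : Lang → Bool)
    (hloc : ∀ A A' : Lang, (∀ v, v.length ≤ B → A v = A' v) → f A = f A')
    (hAC : ∀ (V' : Type) (σ : (V' → Bool) → Lang), (∀ v, DT 1 fun z => σ z v) →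
      AC B (2 ^ B) j {fun z => f (σ z)})
    (hB : B + 1 < 2 ^ a) (hH : (a + 2) ^ 4 ≤ H) (hx : 6 * x.length + 6 * H + 2 ≤ B) :
    ∃ (V : Finset (List.Vector Bool H)) (Θ : (List.Vector Bool H → Bool) → Par)
      (κ : List.Vector Bool H → List Bool),
      (∀ y : List.Vector Bool H, ∃ y' ∈ V,
        y'.1.drop (a * (3 * a + 13)) = y.1.drop (a * (3 * a + 13))) ∧
      (∀ z, Agr (H + 2) θ (Θ z)) ∧
      (∀ z y, (Θ z (ad x y.1 0)).1 = (z y || !decide (y ∈ V)) ∧
        key (Θ z) (ad x y.1 0) 0 = κ y ∧ (κ y).length = (ad x y.1 0).length ^ 7) ∧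
      AC (2 ^ (a + 2) ^ 4) (2 * 2 ^ 2 ^ (a + 2)) (j + 2) {fun z => f (orc G (Θ z))} := by
  classical
  have p2 : ∀ {b c : ℕ}, b ≤ c → 2 ^ b ≤ 2 ^ c := fun h => Nat.pow_le_pow_right two_pos h
  have ha1 : a + 14 ≤ (a + 2) ^ 4 ∧ a * (3 * a + 13) ≤ (a + 2) ^ 4 ∧ 4 * a ≤ (a + 2) ^ 4 := by
    refine ⟨?_, ?_, ?_⟩ <;> nlinarith [Nat.zero_le (a ^ 2), Nat.zero_le (a ^ 3), Nat.zero_le (a ^ 4)]
  have ha0 : 16 ≤ (a + 2) ^ 4 := Nat.pow_le_pow_left (by omega : 2 ≤ a + 2) 4
  let Y := List.Vector Bool H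
  let Q := Reg (H + 2) (B + 1)
  let ι := Y ⊕ Q × Fin (6 * (B + 1))
  let e : Y → List Bool := fun y => ad x y.1 0
  have he : Injective e := fun y y' h => Subtype.ext (ad_inj h).2.1
  have hel : ∀ y, (e y).length = 6 * x.length + 6 * H + 2 := fun y => by
    rw [length_ad0, y.2]
  let kd : ι → Y ⊕ Q × ℕ := Sum.map id fun p => (p.1, p.2 + 1)
  let rp : ι → List Bool × ℕ := Sum.elim (fun y => (e y, 0)) fun p => (p.1.1, p.2 + 1)
  have hrp : Injective rp := by
    rintro (y | ⟨q, i⟩) (y' | ⟨q', i'⟩) h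
    · exact congrArg _ (he (Prod.mk.inj h).1)
    · simpa using (Prod.mk.inj h).2
    · simpa using (Prod.mk.inj h).2
    · rw [show q = q' from Subtype.ext (Prod.mk.inj h).1,
        show i = i' from Fin.ext (Nat.succ_injective (Prod.mk.inj h).2)]
  have hrl : ∀ R, H + 2 ≤ (rp R).1.length ∧ (rp R).1.length < B + 1 := by
    rintro (y | p)
    · have := hel y
      simp only [rp, Sum.elim_inl]
      omega
    · exact p.1.2
  let Key : ι → Type := fun R => List.Vector Bool ((rp R).1.length ^ 7)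
  let cp : (Σ R, Key R) → List Bool := fun l => ad (rp l.1).1 l.2.1 (rp l.1).2
  have hcp : Injective cp := by
    rintro ⟨R, w⟩ ⟨R', w'⟩ h
    obtain rfl : R = R' := hrp (Prod.ext (ad_inj h).1 (ad_inj h).2.2)
    rw [show w = w' from Subtype.ext (ad_inj h).2.1]
  let A₀ : Lang := fun s => if ∃ u w i, s = ad u w i ∧ H + 2 ≤ u.length ∧ (0 < i ∨ ∃ y, e y = u)
    then false else orc G θ s
  let Ob : ((Σ R, Key R) → Bool) → Lang := fun β => extend cp β A₀
  choose val Ds hP hDs using fq_pot G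
  have hcard : Fintype.card Y = 2 ^ H := by simp [Y, card_vector]
  obtain ⟨V, acc, Bad, κ, hκ, hS, hV⟩ := core (kd := kd) (Key := Key)
    (lev := fun q : Q => Nat.log 2 q.1.length) (s := fun q => q.1.length ^ 4)
    (τ := fun q => 3 * q.1.length) (t := fun q => q.1.length) (F := fun q β => fq G q.1 (Ob β))
    (val := fun q β => val q.1 (Ob β)) (Ds := fun q β => univ.filter (cp · ∈ Ds q.1 (Ob β)))
    (L := a) (D := 2 ^ a) (m := H + 1) (M := 2 ^ (3 * a + 13))
    (fun q β β' h => hP q.1 _ _ fun s hs => by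
      by_cases h1 : ∃ l, cp l = s
      · obtain ⟨l, rfl⟩ := h1
        simp only [Ob, hcp.extend_apply, h l (mem_filter.2 ⟨mem_univ _, hs⟩)]
      · simp only [Ob, extend_apply' _ _ _ h1])
    (fun q β l hl => by
      have h1 := (hDs q.1 _).2 _ (mem_filter.1 hl).2
      have h2 := l.2.2
      have h3 := hrl l.1
      simp only [cp, ad, length_enc_pair, PolyT.Poly.enc_bools_length] at h1
      obtain ⟨y | p, w⟩ := l
      · exact ⟨Nat.zero_le _, by simp only [wid, kd, Sum.map_inl, Sum.elim_inl]; omega⟩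
      · simp only [rp, Sum.elim_inr] at h1 h2 h3
        simp only [wid, lvl, kd, Sum.map_inr, Sum.elim_inr]
        refine ⟨(Nat.log_mul_base (by norm_num) (by omega)).ge.trans
          (Nat.log_mono_right (by omega : p.1.1.length * 2 ≤ q.1.length)), ?_⟩
        have := Nat.pow_le_pow_right (n := p.1.1.length) (by omega) (show 4 ≤ 7 by omega)
        omega)
    (fun q β => (card_le_card_of_injOn cp (fun l hl => mem_coe.2 (mem_filter.1 hl).2)
      hcp.injOn).trans (hDs q.1 _).1)
    (fun q => by have := q.2.2; omega) (fun q => by have := q.2.1; omega)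
    (fun q => by
      have h1 : 16 ≤ q.1.length := by have := q.2.1; omega
      generalize q.1.length = t at h1
      nlinarith [Nat.mul_le_mul_right (t ^ 3) h1, Nat.mul_le_mul_right (t ^ 2) h1,
        Nat.mul_le_mul_right t h1])
    (by rw [hcard]; exact Nat.pow_lt_pow_right (by norm_num) (by omega)) (by omega)
    (a := fun R => (1 / 4 / 4) ^ (rp R).1.length) (fun R => by positivity)
    (by
      rw [Fintype.sum_sum_type, Fintype.sum_prod_type]
      have h1 : ∑ y : Y, (1 / 4 / 4 : ℝ) ^ (rp (.inl y)).1.length ≤ 1 / 2 := by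
        refine (sum_le_card_nsmul _ _ ((1 / 2) ^ (H + 1)) fun y _ => ?_).trans (le_of_eq ?_)
        · exact (pow_le_pow_left₀ (by norm_num) (by norm_num) _).trans (pow_le_pow_of_le_one
            (by norm_num) (by norm_num) (by have := hrl (.inl y); omega))
        · rw [card_univ, hcard, nsmul_eq_mul, pow_succ, ← mul_assoc]
          push_cast
          rw [← mul_pow]
          norm_num
      have h2 := sum_reg (H + 2) (B + 1) (x := 1 / 4) (by norm_num) (by norm_num)
      have h3 : ((6 * (B + 1) : ℕ) : ℝ) * (1 / 4) ^ (H + 2) ≤ 1 / 4 := by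
        have h4 : 6 * (B + 1) * 4 ≤ 4 ^ (H + 2) := by
          refine le_trans ?_ ((p2 (show a + 5 ≤ H + 2 by omega)).trans
            (Nat.pow_le_pow_left (by omega) _))
          rw [pow_add]
          omega
        rw [one_div_pow, mul_one_div, div_le_div_iff₀ (by positivity) (by norm_num), one_mul]
        exact_mod_cast h4
      simp only [rp, Sum.elim_inr, sum_const, card_univ, Fintype.card_fin, nsmul_eq_mul] at h1 ⊢
      rw [← mul_sum]
      have h5 : (0 : ℝ) ≤ ((6 * (B + 1) : ℕ) : ℝ) := Nat.cast_nonneg _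
      nlinarith [mul_le_mul_of_nonneg_left h2 h5])
    (fun R => by
      have h1 := hrl R
      rw [card_vector, Fintype.card_bool]
      refine key_le (by omega) (by omega) h1.1 ?_
      rcases R with y | p
      · exact Nat.one_le_pow _ _ (by omega)
      · exact le_rfl)
    (x := 1 / 2 ^ (2 * a + 13)) (by positivity)
    (by rw [div_le_one (by positivity)]; exact one_le_pow₀ (by norm_num))
    (by
      push_cast
      rw [← pow_add, ← pow_add, show 13 + (a + a) = 2 * a + 13 by omega,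
        mul_one_div_cancel (by positivity)])
    (by
      rw [hcard]
      refine le_trans (le_of_eq ?_) (two_pow_le (ν := H + 1) ?_)
      · push_cast
        rw [pow_succ']
      · rw [show 3 * a + 13 = 2 * a + 13 + a by omega, pow_add _ _ a]
        exact Nat.mul_le_mul_left _ (by omega))
    (by
      have h1 := sum_reg (H + 2) (B + 1) (x := 1 / 2) (by norm_num) (by norm_num)
      have h2 : (1 / 2 : ℝ) ^ (H + 2) ≤ (1 / 2) ^ 3 :=
        pow_le_pow_of_le_one (by norm_num) (by norm_num) (by omega)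
      simp only [pow_mul]
      norm_num at h1 h2 ⊢
      linarith)
    (fun n y y' => y'.1.drop (n * (3 * a + 13)) = y.1.drop (n * (3 * a + 13))) (fun y => rfl)
    fun n hn V => split_near ((Nat.mul_le_mul_right _ hn).trans (by omega)) V
  have hlev : ∀ q : Q, Nat.log 2 q.1.length < a := fun q =>
    Nat.log_lt_of_lt_pow (by have := q.2.1; omega) (by have := q.2.2; omega)
  let cz : (Y → Bool) → Finset Y := fun z => univ.filter fun y => (z y || !decide (y ∈ V)) = true
  have hcz : ∀ z, Vᶜ ⊆ cz z := fun z y hy => by simp [cz, mem_compl.1 hy]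
  choose I i1 i2 i3 using fun z q => hS.ok κ hκ q (hlev q) (cz z) (hcz z)
  let Θ : (Y → Bool) → Par := fun z u =>
    (extend e (fun y => z y || !decide (y ∈ V)) (fun u => (θ u).1) u,
      extend (fun q : Q => q.1) (I z) (fun u => (θ u).2.1) u,
      fun i => extend rp (fun R => (κ R).1) (fun p => (θ p.1).2.2 p.2) (u, i))
  have hag : ∀ z, Agr (H + 2) θ (Θ z) := by
    intro z u hu
    have h1 : ¬∃ y, e y = u := by
      rintro ⟨y, rfl⟩
      exact absurd (hrl (.inl y)).1 (not_le.2 hu)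
    have h2 : ¬∃ q : Q, q.1 = u := by
      rintro ⟨q, rfl⟩
      exact absurd q.2.1 (not_le.2 hu)
    have h3 : ∀ i, ¬∃ R, rp R = (u, i) := by
      rintro i ⟨R, h⟩
      have := (hrl R).1
      rw [h] at this
      exact absurd this (not_le.2 hu)
    simp only [Θ, extend_apply' _ _ _ h1, extend_apply' _ _ _ h2, extend_apply' _ _ _ (h3 _)]
  have hkey : ∀ z R, key (Θ z) (rp R).1 (rp R).2 = (κ R).1 := fun z R => by
    simp only [key, Θ, Prod.mk.eta, hrp.extend_apply]
    exact List.take_of_length_le (κ R).2.le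
  have horc : ∀ z s, s.length ≤ B → orc G (Θ z) s = Ob (bits acc (cz z) κ) s := by
    intro z s hs
    induction hn : s.length using Nat.strong_induction_on generalizing s with
    | _ n ih =>
      by_cases hc : ∃ u w i, s = ad u w i
      swap
      · rw [orc_off _ _ hc]
        simp only [Ob, A₀]
        rw [extend_apply' _ _ _ fun ⟨l, h⟩ => hc ⟨_, _, _, h.symm⟩, orc_off _ _ hc, ite_self]
      obtain ⟨u, w, i, rfl⟩ := hc
      have h1 := le_length_ad u w i
      have hno : (¬∃ R, rp R = (u, i)) → ¬∃ l, cp l = ad u w i := fun h ⟨l, hl⟩ =>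
        h ⟨l.1, Prod.ext (ad_inj hl).1 (ad_inj hl).2.2⟩
      by_cases h2 : H + 2 ≤ u.length
      swap
      · rw [← (hag z).orc G _ fun u' w' i' h => by rw [← (ad_inj h).1]; omega]
        simp only [Ob, A₀]
        rw [extend_apply' _ _ _ (hno fun ⟨R, h⟩ => h2 (by have := (hrl R).1; rwa [h] at this)),
          if_neg fun ⟨u', w', i', h, h', _⟩ => h2 (by rwa [(ad_inj h).1])]
      let q : Q := ⟨u, h2, by omega⟩
      have h3 : num G (Θ z) u (orc G (Θ z)) = I z q := by
        have h4 : (Θ z u).2.1 = I z q :=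
          (show Injective fun q : Q => q.1 from Subtype.val_injective).extend_apply (I z)
            (fun u => (θ u).2.1) q
        have h5 : I z q < 2 * (3 * u.length) + 1 := i1 z q
        rw [num, h4, fq_congr G u fun v hv => ih _ (by omega) v (by omega) rfl,
          if_pos ⟨by omega, (i2 z q).symm⟩]
      rw [Bool.eq_iff_iff, orc_ad, lit, h3]
      by_cases h4 : ∃ R, rp R = (u, i)
      · obtain ⟨R, h4⟩ := h4
        obtain ⟨rfl, rfl⟩ : (rp R).1 = u ∧ (rp R).2 = i := Prod.ext_iff.1 h4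
        have h5 : ((rp R).2 = 0 ∧ (Θ z (rp R).1).1 = true ∨ 0 < (rp R).2 ∧ (rp R).2 ≤ I z q) ↔
            acc (cz z) κ R := by
          rcases R with y | p
          · rw [hS.base _ y rfl]
            simp only [rp, Sum.elim_inl, Θ, he.extend_apply, cz, mem_filter, mem_univ, true_and,
              lt_self_iff_false, false_and, or_false]
          · rw [i3 z q (.inr p) (p.2 + 1) rfl]
            simp [rp]
        rw [hkey, h5]
        by_cases h6 : w.length = (rp R).1.length ^ 7
        · have h7 : Ob (bits acc (cz z) κ) (ad (rp R).1 w (rp R).2) = _ :=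
            hcp.extend_apply (bits acc (cz z) κ) A₀ ⟨R, ⟨w, h6⟩⟩
          rw [h7, bits_true]
          exact and_congr_left' ⟨fun h => Subtype.ext h.symm, fun h => by rw [h]⟩
        · refine iff_of_false (fun h => h6 (h.1 ▸ (κ R).2)) ?_
          simp only [Ob, A₀]
          rw [extend_apply' _ _ _ fun ⟨l, hl⟩ => h6 (by
            rw [← (ad_inj hl).2.1, ← (ad_inj hl).1]; exact l.2.2), if_pos ⟨_, _, _, rfl, h2, by
              rcases R with y | p
              · exact Or.inr ⟨y, rfl⟩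
              · exact Or.inl (Nat.succ_pos _)⟩]
          exact Bool.false_ne_true
      · simp only [Ob, A₀]
        rw [extend_apply' _ _ _ (hno h4)]
        rcases Nat.eq_zero_or_pos i with rfl | h5
        · have h6 : ¬∃ y, e y = u := fun ⟨y, h⟩ => h4 ⟨.inl y, by simp [rp, h]⟩
          rw [if_neg fun ⟨u', w', i', h, _, h'⟩ => by
            obtain ⟨rfl, rfl, rfl⟩ := ad_inj h
            exact h'.elim (lt_irrefl _) h6, orc_ad, lit]
          simp only [key, Θ, extend_apply' _ _ _ h4, extend_apply' _ _ _ h6, lt_self_iff_false,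
            false_and]
        · rw [if_pos ⟨_, _, _, rfl, h2, Or.inl h5⟩]
          refine iff_of_false (fun h => ?_) (by simp)
          have h6 : I z q < 2 * (3 * u.length) + 1 := i1 z q
          have h7 := h.2
          exact h4 ⟨.inr (q, ⟨i - 1, by omega⟩),
            Prod.ext rfl (by simp only [rp, Sum.elim_inr]; omega)⟩
  refine ⟨V, Θ, fun y => (κ (.inl y)).1, hV, hag, fun z y => ⟨he.extend_apply
    (fun y => z y || !decide (y ∈ V)) (fun u => (θ u).1) y, hkey z (.inl y), (κ (.inl y)).2⟩, ?_⟩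
  let g : ι → (Y → Bool) → Bool := fun R z => decide (acc (cz z) κ R)
  have c1 : (univ.image g).card ≤ 2 ^ 2 ^ (a + 2) := by
    refine card_image_le.trans (le_trans ?_ (p2 (show 2 * B + 6 ≤ _ by rw [pow_add]; omega)))
    have h1 := card_reg (l := B) (univ : Finset Q) fun R _ => Nat.lt_succ_iff.1 R.2.2
    have h2 : 6 * (B + 1) ≤ 2 ^ (B + 4) := by
      have := Nat.lt_two_pow_self (n := B + 1)
      rw [pow_add _ (B + 1) 3]
      omega
    have h3 := Nat.mul_le_mul h1.le h2
    have h4 := p2 (show H ≤ 2 * B + 5 by omega)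
    rw [← pow_add, show B + 1 + (B + 4) = 2 * B + 5 by omega, card_univ] at h3
    rw [card_univ, Fintype.card_sum, Fintype.card_prod, Fintype.card_fin, hcard, pow_succ]
    exact (Nat.add_le_add h4 h3).trans (by omega)
  have hw : 2 ^ a ≤ 2 ^ (a + 2) ^ 4 := p2 (by omega)
  have c2 : AC (2 ^ (a + 2) ^ 4) (2 ^ 2 ^ (a + 2)) 1 (univ.image g : Set ((Y → Bool) → Bool)) := by
    refine ⟨∅, by simp, fun f hf => by simp at hf, fun f hf => ?_⟩
    obtain ⟨R, -, rfl⟩ := mem_image.1 hf
    refine isOr_of_cert Set.subset_union_right fun z hz => ?_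
    obtain ⟨X, h1, h2, h3⟩ := hS.cert κ R _ (hcz z) (of_decide_eq_true hz)
    refine ⟨X, h2.trans ?_, fun z' h4 => decide_eq_true (hS.mono _ _ _ _ (union_subset (hcz z')
      fun y hy => ?_) h3)⟩
    · rcases R with y | p
      · exact Nat.one_le_two_pow
      · refine (Nat.pow_le_pow_left (show p.1.1.length ≤ 2 ^ a by have := p.1.2.2; omega) 4).trans ?_
        rw [← pow_mul]
        exact p2 (by omega)
    · simpa [cz, h4 y hy] using h1 hy
  have c3 := ac_comp Nat.one_le_two_pow c1 c2 g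
    (fun R => Or.inl (mem_coe.2 (mem_image_of_mem _ (mem_univ _)))) j _
    (ac_up (hAC ι (fun y => Ob fun l => decide (κ l.1 = l.2) && y l.1) fun s => by
      by_cases h : ∃ l, cp l = s
      · obtain ⟨l, rfl⟩ := h
        simp only [Ob, hcp.extend_apply]
        cases decide (κ l.1 = l.2)
        · exact DTq.const 1 false
        · exact dt_var _
      · simp only [Ob, extend_apply' _ _ _ h]
        exact DTq.const 1 _) (by omega) (p2 (by rw [pow_add]; omega)))
  rw [show 1 + j + 1 = j + 2 by omega] at c3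
  refine c3.mono (Set.singleton_subset_iff.2 (Or.inl ⟨_, rfl, funext fun z => ?_⟩))
  refine ((hloc _ _ (horc z)).trans (congrArg (fun β => f (Ob β)) (funext fun l => ?_))).symm
  rw [Bool.eq_iff_iff, bits_true]
  simp [g]

end Pool.Agent.MP_a2d820_lc.h22
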