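import Mathlib
import Pool.Agent.MP_a2d820_lc.h22.Stage

/-!
The hard languages, the two kinds of stages and their limit.
-/

set_option autoImplicit false

namespace Pool.Agent.MP_a2d820_lc.h22

open Pool.Agent.MP_a2d820_lc.h69 Pool.Agent.MP_a2d820_lc.h31u Pool.Agent.PolyT Pool.Agent.H82
  N487b59b3 Function Finset

theorem exists_om_comp (M : OM) {φ : List Bool → List Bool} (hφ : PolyT.Poly φ) :
    ∃ M' : OM, ∀ (A : Lang) (x : List Bool) (s t : ℕ) (b : Bool),
      M.Halts (A ∘ φ) x s t b → M'.Halts A x s t b := by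
  have hq := (poly_iff _).2 M.qry_poly
  let M' : OM := ⟨fun c => φ (M.qry c), M.nxt, (poly_iff _).1 (by fun_prop), M.nxt_poly⟩
  have key : ∀ (A : Lang) x r, M'.run A x r = M.run (A ∘ φ) x r := by
    intro A x r
    induction r with
    | zero => rfl
    | succ r ih => simp only [OM.run, ih, M', comp_apply]
  exact ⟨M', fun A x s t b h => ⟨(key A x t).trans h.1, fun r hr => key A x r ▸ h.2 r hr⟩⟩

theorem relP_join {A L : Lang} (B : Lang) (h : L ∈ RelP A) : L ∈ RelP (join A B) := by
  obtain ⟨M, p, h⟩ := h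
  obtain ⟨M', h'⟩ := exists_om_comp M (φ := fun c => false :: c) (by fun_prop)
  exact ⟨M', p, fun x => (h x).imp fun t ht => ⟨ht.1, h' (join A B) x _ t _ ht.2⟩⟩

theorem sigma_one {A L : Lang} (h : L ∈ RelUP A) : L ∈ RelSigma A 1 := by
  obtain ⟨p, R, h1, h2, -⟩ := h
  exact ⟨R, h1, p, R, relP_join R h1, h2⟩

theorem relP_of_tt (A : Lang) {C L : Lang} (h : L ∈ RelTT C) : L ∈ RelP (join A C) := by
  obtain ⟨Q, g, hQ, hg, h⟩ := h
  rw [← poly_iff] at hQ hg
  obtain ⟨M, hM⟩ := exists_om (ini := fun x => (x, [], []))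
    (Q := fun s => true :: (Q s.1).getD s.2.1.length [])
    (δ := fun p => (p.1.1, p.1.2.1 ++ [p.2], []))
    (fin := fun s => eqB s.2.1.length (Q s.1).length) (out := fun p => g (p.1.1, p.1.2.1))
    (by fun_prop) (by fun_prop) (by fun_prop) (by fun_prop) (by fun_prop)
  obtain ⟨p, hp⟩ := hQ.bd
  refine ⟨M, 6 * p.comp (3 * Polynomial.X) + 6 * Polynomial.X + 4, fun x => ?_⟩
  have h1 := (length_le_enc (Q x)).trans (hp x)
  simp only [PolyT.Poly.enc_bools_length] at h1
  simp only [Polynomial.eval_add, Polynomial.eval_comp, Polynomial.eval_mul, Polynomial.eval_X,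
    Polynomial.eval_ofNat]
  have h2 := hM (join A C) x (Q x).length (6 * p.eval (3 * x.length) + 6 * x.length + 4)
    (fun r => (x, ((Q x).map C).take r, [])) rfl (fun r hr => ?_) (fun r hr => ?_) (by simp)
    (fun r hr => ?_) (by omega)
  · refine ⟨(Q x).length + 1, by omega, ?_⟩
    rwa [List.take_of_length_le (by simp), ← h] at h2
  · simp only [List.length_take, List.length_map, min_eq_left hr.le, join]
    rw [List.take_add_one]
    simp [hr]
  · simpa [min_eq_left hr.le] using hr.ne
  · simp only [length_st, List.length_take, List.length_map, List.length_nil]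
    omega

/-- The free bits of the rows. -/
def bs (θ : Par) : Lang := fun u => (θ u).1

theorem orc_base (G : Enum) (θ : Par) (u w : List Bool) :
    orc G θ (ad u w 0) = true ↔ w = key θ u 0 ∧ (θ u).1 = true := by
  simp [orc_ad, lit]

theorem gl_bs (G : Enum) (θ : Par) (i : ℕ) : gl (bs θ) i ∈ RelSigma (orc G θ) (i + 1) := by
  have hrow : PolyT.Poly row := by unfold row; fun_prop
  induction i with
  | zero =>
    let U : List Bool → List Bool := fun c => ad (row c) (third (sel false c)) 0
    have hU : PolyT.Poly U := by fun_prop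
    obtain ⟨p, hp⟩ := hU.bd
    refine ⟨_, gl_mem _ 0, (p.comp (3 * Polynomial.X)) ^ 7, _, one_query
      (Q := fun d => false :: ad (U (sel true d)) (sel false d) 0) (by fun_prop) false _,
      fun c => ?_⟩
    simp only [sel_pair, if_true, Bool.false_eq_true, if_false, Bool.false_xor, join, orc_base]
    refine ⟨fun h => ⟨_, ?_, rfl, h⟩, fun ⟨_, _, _, h⟩ => h⟩
    have := hp c
    simp only [PolyT.Poly.enc_bools_length] at this
    simp only [key, List.length_take, Polynomial.eval_pow, Polynomial.eval_comp,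
      Polynomial.eval_mul, Polynomial.eval_ofNat, Polynomial.eval_X]
    exact (min_le_left _ _).trans (Nat.pow_le_pow_left (by omega) _)
  | succ i ih =>
    obtain ⟨p, hp⟩ := hrow.bd
    refine ⟨_, ih, p.comp (3 * Polynomial.X), _, one_query (Q := fun d => true :: bitEncode
      (row (sel true d), (sel false d ++ (row (sel true d)).map fun _ => false).take
        (row (sel true d)).length ++ third (sel false (sel true d)))) (by fun_prop) true _,
      fun c => ?_⟩
    simp only [sel_pair, if_true, join, gl_enc, Bool.true_xor, Bool.not_eq_true',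
      Bool.false_eq_true, if_false]
    simp only [gl, nv, decide_eq_true_eq]
    constructor
    · rintro ⟨w, hw, h⟩
      have := hp c
      simp only [PolyT.Poly.enc_bools_length] at this
      refine ⟨w, ?_, by rwa [List.take_left' hw]⟩
      simp only [Polynomial.eval_comp, Polynomial.eval_mul, Polynomial.eval_ofNat,
        Polynomial.eval_X]
      omega
    · rintro ⟨w, -, h⟩
      exact ⟨_, by simp, h⟩

/-- The position read by the parity machine. -/
def pos0 (x d : List Bool) : List Bool := ad (ad x ((d ++ x).take x.length) 0) (d.drop x.length) 0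

/-- The translation of its queries. -/
def phi (s : List Bool) : List Bool := pos0 (sel true (row s)) (third (sel true (sel false s)))

theorem phi_ad (x p d : List Bool) : phi (ad (delimit x ++ p) d 0) = pos0 x d := by
  rw [phi, row_ad, sel_pair]
  simp [ad, enc_pair, sel_pair, third_enc]

theorem par_phi (A : Lang) : (fun x => par (A ∘ phi) x (2 ^ x.length)) ∈ RelPSPACE A := by
  obtain ⟨M, p, h⟩ := par_mem (A ∘ phi)
  obtain ⟨M', h'⟩ := exists_om_comp M (φ := phi) (by unfold phi pos0 row; fun_prop)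
  exact ⟨M', p, fun x => (h x).imp fun t ht => h' A x _ t _ ht⟩

theorem ac_pre {X X' : Type} [DecidableEq X] {w N k : ℕ} {F : Set ((X → Bool) → Bool)}
    (h : AC w N k F) {ρ : (X' → Bool) → X → Bool} (hρ : ∀ v, DT 1 fun z => ρ z v) :
    AC w N k ((· ∘ ρ) '' F) := by
  classical
  induction k generalizing F with
  | zero =>
    rintro _ ⟨f, hf, rfl⟩
    exact dt_comp (h f hf) hρ
  | succ k ih =>
    obtain ⟨G, h1, h2, h3⟩ := h
    refine ⟨G.image (· ∘ ρ), card_image_le.trans h1, by rw [coe_image]; exact ih h2, ?_⟩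
    rintro _ ⟨f, hf, rfl⟩
    obtain ⟨H, a1, a2⟩ := h3 f hf
    refine ⟨(· ∘ ρ) '' H, ?_, fun z => by simp [a2]⟩
    rintro _ ⟨g, hg, rfl⟩
    refine (a1 g hg).precomp _ ?_
    rintro q (hq | hq)
    · exact Or.inl (mem_coe.2 (mem_image_of_mem _ hq))
    · exact Or.inr (dt_comp hq hρ)

/-- The requirement can be forced after any finite part of the construction. -/
def Forces (P : Par → Prop) : Prop :=
  ∀ m θ, ∃ θ', ∃ T > m, Agr m θ θ' ∧ ∀ θ'', Agr T θ' θ'' → P θ''

theorem size_lt (a : ℕ) : 2 * 2 ^ 2 ^ (a + 2) < 2 ^ 2 ^ (a + 2) ^ 4 := by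
  rw [← pow_succ']
  refine Nat.pow_lt_pow_right (by norm_num) (lt_of_lt_of_le ?_ (Nat.pow_le_pow_right two_pos
    (show a + 4 ≤ _ by nlinarith [Nat.zero_le (a ^ 2), Nat.zero_le (a ^ 3), Nat.zero_le (a ^ 4)])))
  have := Nat.one_le_two_pow (n := a)
  rw [pow_add, pow_add]
  omega

theorem cut_le (a : ℕ) : a * (3 * a + 13) ≤ (a + 2) ^ 4 := by
  nlinarith [Nat.zero_le (a ^ 2), Nat.zero_le (a ^ 3), Nat.zero_le (a ^ 4)]

theorem forces_gl (G : Enum) (b : OM × Polynomial ℕ)
    (l : List (OM × Polynomial ℕ × Polynomial ℕ)) :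
    Forces fun θ => ∃ x, ev b l (orc G θ) x ≠ gl (bs θ) (l.length + 4) x := by
  classical
  intro m θ
  obtain ⟨B₀, h1, h2⟩ := ev_bound b l
  set k := l.length + 2 with hk
  obtain ⟨n, a, r, e1, e2, e3, e4, e5⟩ := exists_params (B₀.comp (6 * Polynomial.X + 1) +
    6 * (((k : Polynomial ℕ) + 2) * Polynomial.X) + 6 * Polynomial.X + 2) k m
  simp only [Polynomial.eval_add, Polynomial.eval_comp, Polynomial.eval_mul, Polynomial.eval_ofNat,
    Polynomial.eval_X, Polynomial.eval_one, Polynomial.eval_natCast, Nat.cast_id] at e2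
  set B := B₀.eval (6 * n + 1) + 6 * ((k + 2) * n) + 6 * n + 2
  set x := List.replicate n false with hx
  have hxn : x.length = n := by simp [hx]
  have hkn : (k + 2) * n = n + (k + 1) * n := by ring
  have hr : 3 * r ≤ n ∧ (a + 2) ^ 4 ≤ n := by
    have := Nat.le_mul_of_pos_left ((a + 2) ^ 4) (show 0 < 2 * k + 1 by omega)
    have := Nat.mul_le_mul_right r (show 3 ≤ k + 3 by omega)
    omega
  set y₀ := bitEncode (x, ([] : List Bool))
  have hy : y₀.length ≤ 6 * n + 1 := by
    simp only [y₀, length_enc_pair, PolyT.Poly.enc_bools_length, hxn, List.length_nil]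
    omega
  obtain ⟨V, Θ, κ, a1, a2, a3, a4⟩ := stage_core G θ x (H := (k + 2) * n) (B := B)
    (fun A => ev b l A y₀) (fun A A' h => h1 A A' y₀ _ hy fun v hv => h v (by omega))
    (fun V' σ hσ => (h2 V' σ _ _ _ hσ (by omega) (Nat.pow_le_pow_right two_pos (by omega))).mono
      (Set.singleton_subset_iff.2 ⟨y₀, hy, rfl⟩)) e2 (by omega) (by omega)
  choose g g1 g2 using a1
  have g3 : ∀ y, (g y).1.drop n = y.1.drop n := fun y => by
    obtain ⟨d, hd⟩ := Nat.exists_eq_add_of_le ((cut_le a).trans hr.2)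
    have h := congrArg (List.drop d) (g2 y)
    rwa [List.drop_drop, List.drop_drop, ← hd] at h
  let rep : List.Vector Bool ((k + 2) * n) → List.Vector Bool ((k + 2) * n) := fun y =>
    g ⟨x ++ y.1.drop n, by simp [hxn, y.2]; omega⟩
  have r1 : ∀ y, (rep y).1.drop n = y.1.drop n := fun y => (g3 _).trans (List.drop_left' hxn)
  have r2 : ∀ y, rep (rep y) = rep y := fun y => by simp only [rep, r1 y]
  let ρ : (Empty ⊕ Node ((k + 1) * n) → Bool) → List.Vector Bool ((k + 2) * n) → Bool :=
    fun z y => if y = rep y then !ext univ (z ∘ Sum.inr) (y.1.drop n) else true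
  obtain ⟨z, hz⟩ : ∃ z, ev b l (orc G (Θ (ρ z))) y₀ ≠ gl (bs (Θ (ρ z))) (k + 2) y₀ := by
    by_contra hc
    push Not at hc
    refine hard_nv e3 e4 hr.1 (Nat.succ_le_of_lt (by positivity)) (size_lt a) ((ac_pre a4 (ρ := ρ) fun y => ?_).mono
      (Set.singleton_subset_iff.2 ⟨_, rfl, funext fun z => (hc z).trans ?_⟩))
    · let J : Node ((k + 1) * n) := ⟨y.1.drop n, by simp [y.2]; omega⟩
      by_cases h : y = rep y
      · refine (dtq_not (Set.mem_range_self (Sum.inr J))).congr fun z => ?_
        simp only [ρ, if_pos h]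
        exact congrArg _ ((ext_node univ (z ∘ Sum.inr) J).trans (if_pos (mem_univ J))).symm
      · exact (DTq.const 1 true).congr fun z => (if_neg h).symm
    · rw [gl_enc, hxn, nv_succ]
      refine nv_congr fun p hp => Bool.eq_iff_iff.2 ?_
      simp only [nv, decide_eq_true_eq, bs]
      constructor
      · rintro ⟨w, hw, h⟩
        let y : List.Vector Bool ((k + 2) * n) := ⟨w ++ p, by simp [hw, hp]; omega⟩
        rw [(a3 _ y).1, Bool.or_eq_false_iff] at h
        have h3 := h.1
        simp only [ρ, y, List.drop_left' hw] at h3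
        split_ifs at h3
        simpa using h3
      · intro h
        let y : List.Vector Bool ((k + 2) * n) := ⟨x ++ p, by simp [hxn, hp]; omega⟩
        have h3 : (rep y).1.drop n = p := (r1 y).trans (List.drop_left' hxn)
        refine ⟨(rep y).1.take n, by simp [(rep y).2]; omega, ?_⟩
        rw [← h3, List.take_append_drop, (a3 _ (rep y)).1]
        simp only [ρ, r2, if_true, h3, h]
        simp [rep, g1]
  refine ⟨_, B + 1, by omega, fun u hu => a2 (ρ z) u (by omega), fun θ'' h => ⟨y₀, ?_⟩⟩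
  rw [← h1 _ _ y₀ _ hy fun v hv => h.short G v (by omega)]
  refine fun e => hz (e.trans ?_)
  simp only [y₀, gl_enc]
  exact nv_congr fun i hi => congrArg Prod.fst (h _ (by
    simp only [List.length_nil, hxn, show l.length + 4 = k + 2 from rfl] at hi
    rw [length_ad0, hxn]
    omega)).symm

theorem forces_par (G : Enum) (b : OM × Polynomial ℕ)
    (l : List (OM × Polynomial ℕ × Polynomial ℕ)) :
    Forces fun θ => ∃ x, ev b l (orc G θ) x ≠ par (orc G θ ∘ phi) x (2 ^ x.length) := by
  classical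
  intro m θ
  obtain ⟨B₀, h1, h2⟩ := ev_bound b l
  set k := l.length + 2 with hk
  obtain ⟨n, a, r, e1, e2, e3, -, e5⟩ := exists_params
    (B₀.comp ((12 * Polynomial.X + 2) ^ 7 + Polynomial.X) + 12 * Polynomial.X + 2) k m
  simp only [Polynomial.eval_add, Polynomial.eval_comp, Polynomial.eval_mul, Polynomial.eval_ofNat,
    Polynomial.eval_X, Polynomial.eval_pow] at e2
  have hK : 12 * n + 2 ≤ (12 * n + 2) ^ 7 := Nat.le_self_pow (by omega) _
  set K := (12 * n + 2) ^ 7 with hKd
  set B := B₀.eval (K + n) + 12 * n + 2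
  set x := List.replicate n false with hx
  have hxn : x.length = n := by simp [hx]
  have hr : (k + 1) * r + (a + 2) ^ 4 ≤ n := by
    have := Nat.le_mul_of_pos_left ((a + 2) ^ 4) (show 0 < 2 * k + 1 by omega)
    rw [show (k + 3) * r = (k + 1) * r + 2 * r by ring] at e5
    omega
  set y₀ := delimit x ++ List.replicate (K - n - 1) false with hy₀
  have hy : y₀.length = K + n := by
    simp only [hy₀, List.length_append, length_delimit, hxn, List.length_replicate]
    omega
  obtain ⟨V, Θ, κ, a1, a2, a3, a4⟩ := stage_core G θ x (H := n) (B := B)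
    (fun A => ev b l A y₀) (fun A A' h => h1 A A' y₀ _ hy.le fun v hv => h v (by omega))
    (fun V' σ hσ => (h2 V' σ _ _ _ hσ (by omega) (Nat.pow_le_pow_right two_pos (by omega))).mono
      (Set.singleton_subset_iff.2 ⟨y₀, hy.le, rfl⟩)) e2 (by omega) (by omega)
  choose g g1 g2 using a1
  have hc := cut_le a
  set c := a * (3 * a + 13)
  obtain ⟨ε₀⟩ : Nonempty ((Fin (k + 1) → Fin r → Bool) ↪ List.Vector Bool (n - c)) :=
    Embedding.nonempty_of_card_le (by
      simp only [card_vector, Fintype.card_fun, Fintype.card_bool, Fintype.card_fin, ← pow_mul]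
      exact Nat.pow_le_pow_right two_pos (by rw [mul_comm]; omega))
  let ε : (Fin (k + 1) → Fin r → Bool) → List.Vector Bool n := fun v =>
    g ⟨List.replicate c false ++ (ε₀ v).1, by simp [(ε₀ v).2]; omega⟩
  have hε : Injective ε := fun v v' h => ε₀.injective (Subtype.ext (by
    have h3 : ∀ v, (ε v).1.drop c = (ε₀ v).1 := fun v => (g2 _).trans (List.drop_left' (by simp))
    rw [← h3, ← h3, h]))
  let ρ : ((Fin (k + 1) → Fin r → Bool) → Bool) → List.Vector Bool n → Bool :=
    fun z => extend ε z fun _ => true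
  have hκ : ∀ y, (κ y).length = K := fun y => by
    rw [(a3 (fun _ => true) y).2.2, length_ad0, hxn, y.2, hKd]
    congr 1
    omega
  have hbit : ∀ z (d : List Bool) (y : List.Vector Bool n), y.1 = (d ++ x).take n →
      ((orc G (Θ z) ∘ phi) (ad y₀ d 0) = true ↔
        d.drop n = κ y ∧ (z y || !decide (y ∈ V)) = true) := fun z d y h => by
    rw [comp_apply, hy₀, phi_ad, pos0, hxn, ← h, orc_base, (a3 z y).1, (a3 z y).2.1]
  obtain ⟨z, hz⟩ : ∃ z, ev b l (orc G (Θ (ρ z))) y₀ ≠
      par (orc G (Θ (ρ z)) ∘ phi) y₀ (2 ^ y₀.length) := by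
    by_contra hcon
    push Not at hcon
    refine hard_par e3 (Nat.succ_le_of_lt (by positivity)) (size_lt a)
      (fun z => par (orc G (Θ (ρ z)) ∘ phi) y₀ (2 ^ y₀.length)) (fun z z' v c1 c2 => ?_)
      ((ac_pre a4 (ρ := ρ) fun y => ?_).mono
        (Set.singleton_subset_iff.2 ⟨_, rfl, funext fun z => hcon z⟩))
    · refine par_flip (j₀ := (ε v).1 ++ κ (ε v)) (by simp [hκ, hy, (ε v).2]; omega)
        (fun d hd => ?_) ?_
      · let y : List.Vector Bool n := ⟨(d ++ x).take n, by simp [hxn]⟩
        rw [Bool.eq_iff_iff, hbit _ d y rfl, hbit _ d y rfl]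
        refine and_congr_right fun h => ?_
        have h3 : n ≤ d.length := by
          have := congrArg List.length h
          rw [hκ, List.length_drop] at this
          omega
        have h4 : y ≠ ε v := fun e => hd (by
          rw [← e, ← h]
          simp only [y, List.take_append_of_le_length h3, List.take_append_drop])
        by_cases h5 : ∃ v', ε v' = y
        · obtain ⟨v', h5⟩ := h5
          simp only [ρ, ← h5, hε.extend_apply, c1 v' fun e => h4 (e ▸ h5.symm)]
        · simp only [ρ, extend_apply' _ _ _ h5]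
      · have h3 : (ε v).1 = ((ε v).1 ++ κ (ε v) ++ x).take n := by
          rw [List.append_assoc, List.take_left' (ε v).2]
        have h4 : ε v ∈ V := g1 _
        rw [Bool.eq_iff_iff, Bool.not_eq_true', ← Bool.not_eq_true, hbit _ _ _ h3, hbit _ _ _ h3,
          List.drop_left' (ε v).2]
        simp [ρ, hε.extend_apply, c2, h4]
    · by_cases h : ∃ v, ε v = y
      · obtain ⟨v, rfl⟩ := h
        exact (dt_var v).congr fun z => (hε.extend_apply z (fun _ => true) v).symm
      · exact (DTq.const 1 true).congr fun z => (extend_apply' z (fun _ => true) _ h).symm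
  refine ⟨_, B + 1, by omega, fun u hu => a2 (ρ z) u (by omega), fun θ'' h => ⟨y₀, ?_⟩⟩
  rw [← h1 _ _ y₀ _ hy.le fun v hv => h.short G v (by omega)]
  refine fun e => hz (e.trans (par_congr (fun d _ => ?_) _))
  rw [comp_apply, comp_apply, hy₀, phi_ad, pos0]
  refine (h.orc G _ fun u w j e => ?_).symm
  rw [← (ad_inj e).1, length_ad0, List.length_take, hxn]
  omega

theorem exists_lim (P : ℕ → Par → Prop) (hP : ∀ i, Forces (P i)) : ∃ θ, ∀ i, P i θ := by
  choose F₁ F₃ h1 h2 h3 using hP
  let a : ℕ → ℕ × Par := fun i => Nat.rec (0, fun _ => (false, 0, fun _ => []))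
    (fun i a => (F₃ i a.1 a.2, F₁ i a.1 a.2)) i
  have hmono : StrictMono fun i => (a i).1 := strictMono_nat_of_lt_succ fun i => h1 i _ _
  have hag : ∀ i j, i ≤ j → Agr (a i).1 (a i).2 (a j).2 := by
    intro i j hij
    induction j, hij using Nat.le_induction with
    | base => exact fun _ _ => rfl
    | succ j hij ih =>
      exact fun w hw => (ih w hw).trans (h2 j (a j).1 (a j).2 w (hw.trans_le (hmono.monotone hij)))
  refine ⟨fun w => (a (w.length + 1)).2 w, fun i => h3 i (a i).1 (a i).2 _ fun w hw => ?_⟩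
  rcases le_total (i + 1) (w.length + 1) with h | h
  · exact hag _ _ h w hw
  · exact (hag _ _ h w (hmono.le_apply (x := w.length + 1))).symm

theorem exists_oracle (G : Enum) : ∃ θ,
    (∀ k, ∃ L ∈ RelSigma (orc G θ) (k + 1), L ∉ RelSigma (orc G θ) k) ∧
      ∃ L ∈ RelPSPACE (orc G θ), ∀ k, L ∉ RelSigma (orc G θ) k := by
  obtain ⟨τ, hτ⟩ := exists_surjective_nat
    ((OM × Polynomial ℕ) × List (OM × Polynomial ℕ × Polynomial ℕ))
  obtain ⟨θ, h⟩ := exists_lim (fun i θ => (∃ x, ev (τ i).1 (τ i).2 (orc G θ) x ≠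
      gl (bs θ) ((τ i).2.length + 4) x) ∧ ∃ x, ev (τ i).1 (τ i).2 (orc G θ) x ≠
      par (orc G θ ∘ phi) x (2 ^ x.length)) fun i m θ => by
    obtain ⟨θ₁, T₁, a1, a2, a3⟩ := forces_gl G (τ i).1 (τ i).2 m θ
    obtain ⟨θ₂, T₂, b1, b2, b3⟩ := forces_par G (τ i).1 (τ i).2 T₁ θ₁
    exact ⟨θ₂, T₂, by omega, fun u hu => (a2 u hu).trans (b2 u (by omega)), fun θ'' h =>
      ⟨a3 θ'' fun u hu => (b2 u hu).trans (h u (by omega)), b3 θ'' h⟩⟩
  refine ⟨θ, fun k => Set.not_subset.1 fun hk => ?_, _, par_phi _, fun k hk => ?_⟩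
  · obtain ⟨b, l, rfl, e⟩ := exists_ev' (collapse hk 5 (gl_bs G θ _))
    obtain ⟨i, hi⟩ := hτ (b, l)
    obtain ⟨x, hx⟩ := (h i).1
    rw [hi] at hx
    exact hx (congrFun e x).symm
  · obtain ⟨b, l, e⟩ := exists_ev hk
    obtain ⟨i, hi⟩ := hτ (b, l)
    obtain ⟨x, hx⟩ := (h i).2
    rw [hi] at hx
    exact hx (congrFun e x).symm

end Pool.Agent.MP_a2d820_lc.h22
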