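import Mathlib
import Pool.Agent.MP_a2d820_lc.h22.Eval

/-!
Conditions, the two kinds of stages, and the limit.
-/

set_option autoImplicit false

namespace Pool.Agent.MP_a2d820_lc.h22p

open Finset Pool.Agent.MP_a2d820_lc.h69 Pool.Agent.MP_a2d820_lc.h31u Pool.Agent.PolyT
  Pool.Agent.H82 N487b59b3 Function
open Pool.Agent.MP_a2d820_lc.h70 (Fn Agl Ac Tw exists_bd rw3 rw3_inj bd lvR btR muR nuR)
open Pool.Agent.MP_a2d820_lc.h22 (RelTT)

section
variable (c : ℕ → ℕ) (τ : ℕ → Tw × Tw)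

/-- The size parameter of a row. -/
noncomputable def bt (u : List Bool) : ℕ := btR τ u + 1

/-- Admissible sets of active rows. -/
def Adm (K : ℕ) (Act : Set (List Bool)) : Prop :=
  ∀ u ∈ Act, ∃ i x p k, u = rw3 (i, x, List.replicate p false) ∧ i ≤ K ∧ k ≤ K ∧
    (τ i).1.2.length = k + 1 ∧ (τ i).2.2.length = k + 1 ∧
    ((bd τ i).eval x.length + 1) ^ (c k + 1) ≤ u.length

/-- The oracle satisfies the condition. -/
def Sat (a : ℕ × Lang × Set (List Bool)) (A : Lang) : Prop :=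
  Agl a.1 a.2.1 A ∧ Legit (lvR τ) (muR τ) a.2.2 A

/-- Valid conditions. -/
def Val (a : ℕ × Lang × Set (List Bool)) : Prop :=
  (∃ K, Adm c τ K a.2.2) ∧ Legit (lvR τ) (muR τ) a.2.2 a.2.1 ∧
    ∀ A, Sat τ a A → ∀ u ∈ a.2.2, nuR τ u A = !muR τ u A

/-- The requirement can be forced below every condition. -/
def Frc (P : Lang → Prop) : Prop :=
  ∀ a, Val c τ a → ∃ a', Val c τ a' ∧ a.1 < a'.1 ∧ Agl a.1 a.2.1 a'.2.1 ∧ a.2.2 ⊆ a'.2.2 ∧
    ∀ A, Sat τ a' A → P A

variable {c τ}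

theorem Adm.small {K : ℕ} {Act : Set (List Bool)} (h : Adm c τ K Act) (u : List Bool)
    (hu : u ∈ Act) : Small c (lvR τ) (bt τ) (muR τ) (nuR τ) u ∧ lvR τ u ≤ K := by
  obtain ⟨i, x, p, k, rfl, -, h1, h2, h3, h4⟩ := h u hu
  have e : (bd τ i).eval x.length = (exists_bd (τ i).1).choose.eval x.length +
      (exists_bd (τ i).2).choose.eval x.length + x.length + 1 := by simp [bd]
  obtain ⟨a1, a2⟩ :=
    (exists_bd (τ i).1).choose_spec x _ ((bd τ i).eval x.length + 1) le_rfl (by omega)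
  obtain ⟨b1, b2⟩ :=
    (exists_bd (τ i).2).choose_spec x _ ((bd τ i).eval x.length + 1) le_rfl (by omega)
  simp only [Small, bt, lvR, btR, muR, nuR, rw3_inj.extend_apply, h2, Nat.add_sub_cancel]
  exact ⟨⟨by omega, (Nat.le_self_pow (by omega) _).trans h4,
    (Nat.pow_le_pow_right (by omega) (by omega)).trans h4, h2 ▸ a1, h3 ▸ b1,
    fun A A' h => ⟨a2 A A' h, b2 A A' h⟩⟩, h1⟩

theorem Adm.count {K : ℕ} {Act : Set (List Bool)} (h : Adm c τ K Act) (l b : ℕ) :
    ∃ I : Finset (List Bool), I.card ≤ (K + 1) * 2 ^ b ∧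
      ∀ u ∈ Act, u.length = l → bt τ u ≤ b → u ∈ I := by
  rcases b with _ | b
  · exact ⟨∅, by simp, fun u _ _ h => absurd h (by simp [bt])⟩
  refine ⟨(range (K + 1) ×ˢ lists b).image fun q =>
    rw3 (q.1, q.2, List.replicate ((l - (rw3 (q.1, q.2, [])).length) / 3) false),
    card_image_le.trans ?_, fun u hu hl hb => ?_⟩
  · rw [card_product, card_range]
    exact Nat.mul_le_mul_left _ (card_lists b).le
  · obtain ⟨i, x, p, k, rfl, h1, -⟩ := h u hu
    have h5 : x.length ≤ (bd τ i).eval x.length := by simp [bd]; omega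
    simp only [bt, btR, rw3_inj.extend_apply] at hb
    refine mem_image.2 ⟨(i, x), mem_product.2 ⟨mem_range.2 (by omega), mem_lists.2 (by
      dsimp only; omega)⟩, ?_⟩
    simp only [rw3, List.length_cons, length_enc_pair, PolyT.Poly.enc_bools_length,
      List.length_replicate, List.length_nil] at hl ⊢
    rw [show (l - _) / 3 = p by omega]

theorem Val.ext {a : ℕ × Lang × Set (List Bool)} (h : Val c τ a) {A : Lang} (hA : Sat τ a A)
    {T : ℕ} (hT : a.1 ≤ T) : Val c τ (T, A, a.2.2) :=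
  ⟨h.1, hA.2, fun A' hA' => h.2.2 A'
    ⟨fun s hs => (hA.1 s hs).trans (hA'.1 s (hs.trans_le hT)), hA'.2⟩⟩

theorem frc_diag (hc : ∀ K d e : ℕ, ∀ᶠ n in Filter.atTop,
    ∀ (lv β : List Bool → ℕ) (mu nu : List Bool → Fn (List Bool)) (Act : Set (List Bool))
      (A₀ : Lang) (f : Fn (List Bool)),
      (∀ u ∈ Act, Small c lv β mu nu u ∧ lv u ≤ K) →
      (∀ l b, ∃ I : Finset (List Bool), I.card ≤ (K + 1) * 2 ^ b ∧
        ∀ u ∈ Act, u.length = l → β u ≤ b → u ∈ I) →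
      (∀ A, Agl n A₀ A → Legit lv mu Act A → ∀ u ∈ Act, nu u A = !mu u A) →
      Legit lv mu Act A₀ → List.replicate n false ∉ Act → f ∈ Ac (n ^ e) d →
      (∀ A A' : Lang, (∀ v, v.length < n ^ e → A v = A' v) → f A = f A') →
      ∃ A, Agl n A₀ A ∧ Legit lv mu Act A ∧
        f A ≠ nv n (d + 1) (fun j => A (ad (List.replicate n false) j 0)) (rt n 0))
    (m : Tw) (inp : ℕ → List Bool) (P : Polynomial ℕ) (hP : ∀ n, (inp n).length ≤ P.eval n) :
    Frc c τ fun A => ∃ n, 1 ≤ n ∧ ev m.1 m.2 A (inp n) ≠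
      nv n (m.2.length + 1) (fun j => A (ad (List.replicate n false) j 0)) (rt n 0) := by
  rintro ⟨m₀, A₀, Act⟩ hV
  obtain ⟨⟨K, hK⟩, h1, h2⟩ := id hV
  obtain ⟨B, hB⟩ := exists_bd m
  obtain ⟨e, he⟩ := poly_le_pow (B.comp P + Polynomial.X + 1)
  obtain ⟨n, e1, e2⟩ := ((hc K m.2.length (2 * e)).and
    (Filter.eventually_ge_atTop (m₀ + 2))).exists
  have hT : B.eval (P.eval n) + n < n ^ (2 * e) := by
    have b1 := he n
    have b2 : (n + 2) ^ e ≤ (n ^ 2) ^ e := Nat.pow_le_pow_left (by nlinarith) _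
    rw [← pow_mul] at b2
    simp only [Polynomial.eval_add, Polynomial.eval_X, Polynomial.eval_comp,
      Polynomial.eval_one] at b1
    omega
  obtain ⟨b1, b2⟩ := hB (inp n) _ (n ^ (2 * e)) (hP n) (by omega)
  have h3 : ∀ A, Agl n A₀ A → Agl m₀ A₀ A := fun A h s hs => h s (by omega)
  obtain ⟨A, c1, c2, c3⟩ := e1 _ _ _ _ Act A₀ _ hK.small hK.count
    (fun A c1 c2 => h2 A ⟨h3 A c1, c2⟩) h1 (fun h => by
      obtain ⟨i, y, p, k, e, -⟩ := hK _ h
      have : true ∈ List.replicate n false := by rw [e]; exact List.mem_cons_self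
      simp at this) b1 b2
  refine ⟨(n ^ (2 * e), A, Act), hV.ext ⟨h3 A c1, c2⟩ (by dsimp only; omega),
    by dsimp only; omega, h3 A c1, subset_rfl, fun A' hA' => ⟨n, by omega, ?_⟩⟩
  rwa [← b2 A A' fun v hv => hA'.1 v ((lev_le v).trans_lt hv),
    ← funext fun j => hA'.1 (ad (List.replicate n false) j 0) (by
      simp only [lev_ad, List.length_replicate]; omega)]

theorem frc_code (i : ℕ) : Frc c τ fun A => ∀ k, (τ i).1.2.length = k + 1 →
    (τ i).2.2.length = k + 1 →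
    (∀ x, ev (τ i).2.1 (τ i).2.2 A x = !ev (τ i).1.1 (τ i).1.2 A x) →
    ∃ U, PolyT.Poly U ∧ ∀ x, cd (U x).length k (fun j => A (ad (U x) j 0)) =
      ev (τ i).1.1 (τ i).1.2 A x := by
  rintro ⟨m, A₀, Act⟩ hV
  obtain ⟨⟨K, hK⟩, h1, h2⟩ := id hV
  by_cases h3 : ∃ k, (τ i).1.2.length = k + 1 ∧ (τ i).2.2.length = k + 1
  swap
  · exact ⟨(m + 1, A₀, Act), hV.ext ⟨fun _ _ => rfl, h1⟩ (Nat.le_succ m), Nat.lt_succ_self m,
      fun _ _ => rfl, subset_rfl, fun A _ k a b => absurd ⟨k, a, b⟩ h3⟩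
  obtain ⟨k, k1, k2⟩ := h3
  by_cases h4 : ∃ A, Sat τ (m, A₀, Act) A ∧
      ∃ x, ev (τ i).2.1 (τ i).2.2 A x ≠ !ev (τ i).1.1 (τ i).1.2 A x
  · obtain ⟨A, a1, x, a2⟩ := h4
    obtain ⟨B, hB⟩ := exists_bd (τ i).1
    obtain ⟨B', hB'⟩ := exists_bd (τ i).2
    refine ⟨(m + B.eval x.length + B'.eval x.length + 1, A, Act), hV.ext a1 (by dsimp only; omega),
      by dsimp only; omega, a1.1, subset_rfl, fun A' hA' _ _ _ h => absurd ?_ a2⟩
    have e : ∀ v : List Bool, v.length < m + B.eval x.length + B'.eval x.length + 1 →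
        A v = A' v := fun v hv => hA'.1 v ((lev_le v).trans_lt hv)
    rw [(hB x _ _ le_rfl (by omega)).2 A A' e, (hB' x _ _ le_rfl (by omega)).2 A A' e, h]
  push Not at h4
  obtain ⟨F, hF, hF'⟩ := exists_list_eval (l := fun x : List Bool => x) (by fun_prop)
    ((bd τ i + 1) ^ (c k + 1) + (m : Polynomial ℕ))
  let U : List Bool → List Bool := fun x => rw3 (i, x, (F x).map fun _ => false)
  have hU : ∀ x, ((bd τ i).eval x.length + 1) ^ (c k + 1) + m < (U x).length := fun x => by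
    have := hF' x
    simp only [Polynomial.eval_add, Polynomial.eval_pow, Polynomial.eval_natCast,
      Nat.cast_id, Polynomial.eval_one] at this
    simp only [U, rw3, List.length_cons, length_enc_pair, PolyT.Poly.enc_bools_length,
      List.length_map]
    omega
  have hK' : Adm c τ (K + i + k) (Act ∪ Set.range U) := by
    rintro u (hu | ⟨x, rfl⟩)
    · obtain ⟨i', x, p, k', a1, a2, a3, a4⟩ := hK u hu
      exact ⟨i', x, p, k', a1, by omega, by omega, a4⟩
    · exact ⟨i, x, (F x).length, k, by simp [U], by omega, by omega, k1, k2,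
        by have := hU x; omega⟩
  obtain ⟨A, a1, a2⟩ := complete (fun u hu => (hK'.small u hu).1) A₀ (m + 1) (by
    rintro u ⟨hu | ⟨x, rfl⟩, h⟩
    · exact h1 u hu
    · have := hU x
      omega)
  have h5 : ∀ A', Sat τ (m + 1, A, Act ∪ Set.range U) A' → Sat τ (m, A₀, Act) A' := fun A' h =>
    ⟨fun s hs => (a1 s (Nat.lt_succ_of_lt hs)).trans (h.1 s (Nat.lt_succ_of_lt hs)),
      fun u hu => h.2 u (Or.inl hu)⟩
  refine ⟨(m + 1, A, Act ∪ Set.range U), ⟨⟨_, hK'⟩, a2, ?_⟩, Nat.lt_succ_self m,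
    fun s hs => a1 s (Nat.lt_succ_of_lt hs), Set.subset_union_left, fun A' hA' k' e _ _ =>
      ⟨U, by unfold U rw3; fun_prop, fun x => ?_⟩⟩
  · rintro A' hA' u (hu | ⟨x, rfl⟩)
    · exact h2 A' (h5 A' hA') u hu
    · simp only [U, muR, nuR, rw3_inj.extend_apply]
      exact h4 A' (h5 A' hA') x
  · have := hA'.2 (U x) (Or.inr ⟨x, rfl⟩)
    simp only [U, muR, lvR, rw3_inj.extend_apply, e, Nat.add_sub_cancel] at this
    exact this

theorem exists_lim (P : ℕ → Lang → Prop) (hP : ∀ i, Frc c τ (P i)) : ∃ A, ∀ i, P i A := by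
  choose F h0 h1 h2 h3 h4 using hP
  let a : ℕ → {a // Val c τ a} := fun i => Nat.rec
    ⟨(0, fun _ => false, ∅), ⟨0, fun _ h => h.elim⟩, fun _ h => h.elim, fun _ _ _ h => h.elim⟩
    (fun i a => ⟨F i a.1 a.2, h0 i a.1 a.2⟩) i
  have hmono : StrictMono fun i => (a i).1.1 := strictMono_nat_of_lt_succ fun i => h1 i _ (a i).2
  have hsub : Monotone fun i => (a i).1.2.2 := monotone_nat_of_le_succ fun i => h3 i _ (a i).2
  have hag : ∀ i j, i ≤ j → Agl (a i).1.1 (a i).1.2.1 (a j).1.2.1 := by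
    intro i j hij
    induction j, hij using Nat.le_induction with
    | base => exact fun _ _ => rfl
    | succ j hij ih =>
      exact fun s hs => (ih s hs).trans (h2 j _ (a j).2 s (hs.trans_le (hmono.monotone hij)))
  have hlim : ∀ i, Agl (a i).1.1 (a i).1.2.1 fun s => (a (lev s + 1)).1.2.1 s := by
    intro i s hs
    rcases le_total i (lev s + 1) with h | h
    · exact hag _ _ h s hs
    · exact (hag _ _ h s (hmono.le_apply (x := lev s + 1))).symm
  refine ⟨fun s => (a (lev s + 1)).1.2.1 s, fun i => h4 i _ (a i).2 _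
    ⟨hlim (i + 1), fun u hu => ?_⟩⟩
  obtain ⟨⟨K, hK⟩, b1, -⟩ := (a (i + 1 + u.length)).2
  have b2 : u ∈ (a (i + 1 + u.length)).1.2.2 := hsub (Nat.le_add_right _ _) hu
  exact (hK.small u b2).1.legit
    (lt_of_lt_of_le (by omega) (hmono.le_apply (x := i + 1 + u.length))) (hlim _) (b1 u b2)

end

/-- The inputs on which the machines are tested. -/
def inp (s : Bool) (d n : ℕ) : List Bool :=
  bif s then bitEncode (List.replicate n false, rt n 0, mk (n - 1) (d + 1))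
  else bitEncode (List.replicate n false, rt n 0)

theorem length_inp (s : Bool) (d n : ℕ) :
    (inp s d n).length ≤ (((3 * d + 15 : ℕ) : Polynomial ℕ) * (Polynomial.X + 1)).eval n := by
  have h := Nat.mul_le_mul_left (d + 1) (show n - 1 + 1 ≤ n + 1 by omega)
  simp only [Polynomial.eval_mul, Polynomial.eval_natCast, Nat.cast_id, Polynomial.eval_add,
    Polynomial.eval_X, Polynomial.eval_one]
  cases s <;> simp only [inp, cond_true, cond_false, length_enc_pair, PolyT.Poly.enc_bools_length,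
    List.length_replicate, length_rt, length_mk] <;> nlinarith

theorem exists_oracle (h : DiagStmt) : ∃ A : Lang,
    (∀ k, ∀ L ∈ RelSigma A (k + 1), (fun x => !L x) ∈ RelSigma A (k + 1) →
      ∃ C ∈ RelSigma A k, L ∈ RelTT C) ∧
    (∀ k, ∃ L ∈ RelSigma A (k + 1), L ∉ RelSigma A k) ∧
    ∃ L ∈ RelPSPACE A, ∀ k, L ∉ RelSigma A k := by
  obtain ⟨c, hc⟩ := h
  obtain ⟨τ, hτ⟩ := exists_surjective_nat (Tw × Tw)
  obtain ⟨π, hπ⟩ := exists_surjective_nat (ℕ ⊕ Bool × Tw)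
  let g : ℕ ⊕ Bool × Tw → {P // Frc c τ P} :=
    Sum.elim (fun i => ⟨_, frc_code i⟩)
      fun y => ⟨_, frc_diag hc y.2 (inp y.1 y.2.2.length) _ (length_inp _ _)⟩
  obtain ⟨A, hA⟩ := exists_lim (fun n => (g (π n)).1) fun n => (g (π n)).2
  have key : ∀ (k : ℕ) (L : Lang) (s : Bool), L ∈ RelSigma A k → ∃ n, 1 ≤ n ∧ L (inp s k n) ≠
      nv n (k + 1) (fun j => A (ad (List.replicate n false) j 0)) (rt n 0) := by
    intro k L s hL
    obtain ⟨b, l, rfl, rfl⟩ := exists_ev' hL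
    obtain ⟨n, hn⟩ := hπ (Sum.inr (s, b, l))
    have := hA n
    rw [hn] at this
    exact this
  refine ⟨A, fun k L h h' => ?_, fun k => ⟨_, gl_mem A (k + 1), fun h => ?_⟩, _, ga_mem A,
    fun k h => ?_⟩
  · obtain ⟨b, l, e, rfl⟩ := exists_ev' h
    obtain ⟨b', l', e', h''⟩ := exists_ev' h'
    obtain ⟨i, hi⟩ := hτ ((b, l), (b', l'))
    obtain ⟨n, hn⟩ := hπ (Sum.inl i)
    have := hA n
    rw [hn] at this
    simp only [g, Sum.elim_inl, hi] at this
    obtain ⟨U, u1, u2⟩ := this k e e' fun x => (congrFun h'' x).symm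
    exact ⟨_, gl_mem A k, funext u2 ▸ cd_mem u1 A k⟩
  · obtain ⟨n, -, hn⟩ := key k _ false h
    exact hn (by rw [inp, cond_false, gl_enc, List.length_replicate])
  · obtain ⟨n, h1, hn⟩ := key k _ true h
    exact hn (by rw [inp, cond_true, ga_enc, tv_mk, Nat.sub_add_cancel h1])

end Pool.Agent.MP_a2d820_lc.h22p
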