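import Mathlib
import Pool.Agent.MP_a2d820_lc.h22.Outer

/-!
The final statement from the diagonal stage.
-/

set_option autoImplicit false

namespace Pool.Agent.MP_a2d820_lc.h22p

open Finset Pool.Agent.MP_a2d820_lc.h69 Pool.Agent.MP_a2d820_lc.h31u Pool.Agent.PolyT
  Pool.Agent.H82 N487b59b3 Function
open Pool.Agent.MP_a2d820_lc.h22 (RelTT)

theorem relP_of_tt (A : Lang) {C L : Lang} (h : L ∈ RelTT C) : L ∈ RelP (join A C) := by
  obtain ⟨Q, g, hQ, hg, h⟩ := h
  rw [← poly_iff] at hQ hg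
  obtain ⟨M, hM⟩ := exists_om (ini := fun x => (x, [], []))
    (Q := fun s => true :: (Q s.1).getD s.2.1.length [])
    (δ := fun p => (p.1.1, p.1.2.1 ++ [p.2], []))
    (fin := fun s => eqB s.2.1.length (Q s.1).length) (out := fun p => g (p.1.1, p.1.2.1))
    (by fun_prop) (by fun_prop) (by fun_prop) (by fun_prop) (by fun_prop)
  obtain ⟨p, hp⟩ := hQ.bd
  refine ⟨M, 6 * p.comp (3 * Polynomial.X) + 6 * Polynomial.X + 4, fun x => ?_⟩
  have h1 := (length_le_enc (Q x)).trans (hp x)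
  simp only [PolyT.Poly.enc_bools_length] at h1
  simp only [Polynomial.eval_add, Polynomial.eval_comp, Polynomial.eval_mul, Polynomial.eval_X,
    Polynomial.eval_ofNat]
  have h2 := hM (join A C) x (Q x).length (6 * p.eval (3 * x.length) + 6 * x.length + 4)
    (fun r => (x, ((Q x).map C).take r, [])) rfl (fun r hr => ?_) (fun r hr => ?_) (by simp)
    (fun r hr => ?_) (by omega)
  · refine ⟨(Q x).length + 1, by omega, ?_⟩
    rwa [List.take_of_length_le (by simp), ← h] at h2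
  · simp only [List.length_take, List.length_map, min_eq_left hr.le, join]
    rw [List.take_add_one]
    simp [hr]
  · simpa [min_eq_left hr.le] using hr.ne
  · simp only [length_st, List.length_take, List.length_map, List.length_nil]
    omega

theorem final (h : DiagStmt) : ∃ A : Lang,
    (∀ k, RelSigma A (k + 1) ∩ {L | (fun x => !L x) ∈ RelSigma A (k + 1)} =
        {L | ∃ B ∈ RelSigma A k, L ∈ RelP (join A B)} ∧
      {L | ∃ B ∈ RelSigma A k, L ∈ RelP (join A B)} = {L | ∃ C ∈ RelSigma A k, L ∈ RelTT C}) ∧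
    (∀ k, ∃ L ∈ RelSigma A (k + 1), L ∉ RelSigma A k) ∧
    ∃ L ∈ RelPSPACE A, ∀ k, L ∉ RelSigma A k := by
  obtain ⟨A, h1, h2⟩ := exists_oracle h
  have h5 : ∀ k, {L | ∃ B ∈ RelSigma A k, L ∈ RelP (join A B)} ⊆
      RelSigma A (k + 1) ∩ {L | (fun x => !L x) ∈ RelSigma A (k + 1)} :=
    fun k L ⟨B, b1, b2⟩ => ⟨⟨B, b1, by simpa using h70.relNP_of_relP b2 false⟩,
      ⟨B, b1, by simpa using h70.relNP_of_relP b2 true⟩⟩
  have h6 : ∀ k, {L | ∃ C ∈ RelSigma A k, L ∈ RelTT C} ⊆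
      {L | ∃ B ∈ RelSigma A k, L ∈ RelP (join A B)} :=
    fun k L ⟨C, b1, b2⟩ => ⟨C, b1, relP_of_tt A b2⟩
  exact ⟨A, fun k => ⟨Set.Subset.antisymm (fun L hL => h6 k (h1 k L hL.1 hL.2)) (h5 k),
    Set.Subset.antisymm (fun L hL => h1 k L (h5 k hL).1 (h5 k hL).2) (h6 k)⟩, h2⟩

end Pool.Agent.MP_a2d820_lc.h22p
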