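import Mathlib
import Pool.Agent.MP_a2d820_lc.h22.Eval
import Pool.Agent.MP_a2d820_lc.h31p.Spec

/-!
Rows of trees with growing blocks: completion, reading and evaluation.
-/

set_option autoImplicit false

namespace Pool.Agent.MP_a2d820_lc.h22p

open Finset Pool.Agent.MP_a2d820_lc.h69 Pool.Agent.MP_a2d820_lc.h31u Pool.Agent.PolyT
  Pool.Agent.H82 N487b59b3 Function
open Pool.Agent.MP_a2d820_lc.h70 (Fn Agl Ac)
open Pool.Agent.MP_a2d820_lc.h31p (nw rowOf prt)
open Pool.Agent.MP_a2d820_lc.h22 (RelTT)

theorem nw_suffix {i : ℕ} {a a' : Lang} {j : List Bool}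
    (h : ∀ w : List Bool, w.length + j.length = 9 ^ i * j.length → a (w ++ j) = a' (w ++ j)) :
    nw i a j = nw i a' j := by
  induction i generalizing j with
  | zero => exact h [] (by simp)
  | succ i ih =>
    simp only [nw, decide_eq_decide]
    refine exists_congr fun w => and_congr_right fun hw => ?_
    rw [ih fun w' hw' => ?_]
    rw [← List.append_assoc]
    refine h _ ?_
    rw [List.length_append, hw, show 8 * j.length + j.length = 9 * j.length by omega] at hw'
    rw [List.length_append, hw, pow_succ, mul_assoc]
    omega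

theorem nw_const (k : ℕ) (c : Bool) : nw k (fun _ => c) = fun _ => xor c (decide (Odd k)) := by
  induction k with
  | zero => simp [nw]
  | succ k ih =>
    funext j
    have : ∃ w : List Bool, w.length = 8 * j.length := ⟨List.replicate _ false, List.length_replicate⟩
    by_cases h : Odd k <;> cases c <;> simp [nw, ih, h, Nat.odd_add_one, this]

/-- Leaves that make the first root equal to `b` and all other roots false. -/
def patw (n k : ℕ) (b : Bool) : Lang := fun j =>
  xor (b && decide (j.drop (j.length - n) = rt n 0)) (decide (Odd k))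

theorem prt_pat {n : ℕ} (hn : 1 ≤ n) (k : ℕ) (b : Bool) : prt n n (nw k (patw n k b)) = b := by
  have h : ∀ j, nw k (patw n k b) (rt n j) = (b && decide (rt n j = rt n 0)) := fun j => by
    rw [nw_suffix (a' := fun _ => xor (b && decide (rt n j = rt n 0)) (decide (Odd k)))
      fun w _ => by rw [patw, List.drop_left' (by simp)], nw_const]
    simp
  simp only [prt, h]
  cases b
  · simp
  · have : ({j ∈ range n | (true && decide (rt n j = rt n 0)) = true} : Finset ℕ) = {0} := by
      ext j
      simp only [mem_filter, mem_range, Bool.true_and, decide_eq_true_eq, mem_singleton]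
      exact ⟨fun h => rt_inj h.1 hn h.2, fun h => by subst h; exact ⟨hn, rfl⟩⟩
    rw [this]
    simp

section
variable {c : ℕ → ℕ} (lv : List Bool → ℕ) {β : List Bool → ℕ} (mu : List Bool → Fn (List Bool))
  {nu : List Bool → Fn (List Bool)}

/-- The rows in `J` store the right bit. -/
def Lg (J : Set (List Bool)) (A : Lang) : Prop :=
  ∀ u ∈ J, prt u.length u.length (nw (lv u) (rowOf A u)) = mu u A

variable {lv mu}

theorem Small.lg {u : List Bool} (h : Small c lv β mu nu u) {m : ℕ} (hm : u.length < m)
    {A A' : Lang} (a : Agl m A A') (e : prt u.length u.length (nw (lv u) (rowOf A u)) = mu u A) :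
    prt u.length u.length (nw (lv u) (rowOf A' u)) = mu u A' := by
  rw [← (h.loc (h.2.1.trans hm.le) a).1, ← e,
    show rowOf A' u = rowOf A u from funext fun j => (a _ (by simpa using hm)).symm]

theorem completeW {Act : Set (List Bool)} (hS : ∀ u ∈ Act, Small c lv β mu nu u) (A : Lang) (m : ℕ)
    (hA : Lg lv mu {u ∈ Act | u.length < m} A) : ∃ A', Agl m A A' ∧ Lg lv mu Act A' := by
  classical
  let F : List Bool → Lang → Bool := fun s O =>
    if m ≤ lev s ∧ row s ∈ Act then
      patw (row s).length (lv (row s)) (mu (row s) O) (third (sel true (sel false s))) else A s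
  have h1 : Agl m A (fix F) := fun s hs => by
    rw [fix]
    exact (if_neg fun h => by omega).symm
  refine ⟨fix F, h1, fun u hu => ?_⟩
  have h2 := hS u hu
  by_cases h : u.length < m
  · exact h2.lg h h1 (hA u ⟨hu, h⟩)
  refine (congrArg (fun a => prt _ _ (nw _ a)) (funext fun j => ?_)).trans
    (prt_pat (by have := h2.1; have := h2.2.1; omega) _ _)
  rw [rowOf, fix]
  simp only [F, row_ad, lev_ad]
  rw [if_pos ⟨by omega, hu⟩, (h2.2.2.2.2.2 _ (fix F) fun v hv => if_pos ?_).1, col_ad]
  exact hv.trans_le (h2.2.1.trans (le_length_ad _ _ _))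

end

/-- The value of a node of a tree of height `i` stored in a row of the oracle. -/
noncomputable def gw (A : Lang) (i : ℕ) : Lang := fun c =>
  nw i (rowOf A (row c)) (third (sel false c))

theorem gw_enc (A : Lang) (i : ℕ) (x j : List Bool) :
    gw A i (bitEncode (x, j)) = nw i (rowOf A x) j := by
  simp [gw, row, enc_pair, sel_pair, third_enc]

theorem gw_mem (A : Lang) (i : ℕ) : gw A i ∈ RelSigma A i := by
  have hrow : PolyT.Poly row := by unfold row; fun_prop
  induction i with
  | zero =>
    exact (funext fun c => Bool.false_xor _ : _ = gw A 0) ▸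
      one_query (Q := fun c => ad (row c) (third (sel false c)) 0) (by fun_prop) false A
  | succ i ih =>
    let J : List Bool → List Bool := fun c =>
      let j := third (sel false c)
      j ++ j ++ j ++ j ++ j ++ j ++ j ++ j
    have hJ : PolyT.Poly J := by fun_prop
    have e : ∀ c, (J c).length = 8 * (third (sel false c)).length := fun c => by
      simp only [J, List.length_append]
      omega
    obtain ⟨p, hp⟩ := hJ.bd
    refine ⟨_, ih, p.comp (3 * Polynomial.X), _, one_query (Q := fun d => true :: bitEncode
      (row (sel true d), (sel false d ++ J (sel true d)).take (J (sel true d)).length ++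
        third (sel false (sel true d)))) (by fun_prop) true _, fun c => ?_⟩
    simp only [sel_pair, if_true, join, gw_enc, Bool.true_xor, Bool.not_eq_true',
      Bool.false_eq_true, if_false]
    simp only [gw, nw, decide_eq_true_eq]
    constructor
    · rintro ⟨w, hw, h⟩
      have := hp c
      simp only [PolyT.Poly.enc_bools_length] at this
      rw [← e] at hw
      refine ⟨w, ?_, by rwa [List.take_left' hw]⟩
      simp only [Polynomial.eval_comp, Polynomial.eval_mul, Polynomial.eval_ofNat,
        Polynomial.eval_X]
      omega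
    · rintro ⟨w, -, h⟩
      exact ⟨_, by rw [← e]; simp, h⟩

theorem prt_mem {U : List Bool → List Bool} (hU : PolyT.Poly U) (A : Lang) (k : ℕ) :
    (fun x => prt (U x).length (U x).length (nw k (rowOf A (U x)))) ∈ RelTT (gw A k) := by
  have hg : PolyT.Poly fun p : List Bool × List Bool => (p.2.filter fun b => b).length :=
    by fun_prop
  refine ⟨fun x => (idx (U x)).map fun j => bitEncode (U x, dig (U x) j),
    fun p => (p.2.filter fun b => b).length.bodd, (poly_iff _).1 (by unfold dig; fun_prop),
    (poly_iff _).1 hg.bodd, fun x => ?_⟩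
  simp only [List.map_map, idx, count_range, comp_apply, gw_enc, dig_eq, prt]

/-- The marks of a tree of height `i` whose root has a name of length `r`. -/
def mw : ℕ → ℕ → List Bool
  | 0, _ => []
  | i + 1, r => List.replicate (8 * r - 1) false ++ true :: mw i (9 * r)

theorem length_mw (i r : ℕ) : (mw i r).length + r ≤ 9 ^ i * r + i := by
  induction i generalizing r with
  | zero => simp [mw]
  | succ i ih =>
    have := ih (9 * r)
    simp only [mw, List.length_append, List.length_replicate, List.length_cons, pow_succ,
      mul_assoc]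
    omega

theorem tv_mw (a : Lang) (i : ℕ) (j : List Bool) (hj : 1 ≤ j.length) :
    tv a (mw i j.length) j = nw i a j := by
  induction i generalizing j with
  | zero => rfl
  | succ i ih =>
    rw [Bool.eq_iff_iff, mw, tv_block, Nat.sub_add_cancel (by omega)]
    simp only [nw, decide_eq_true_eq]
    refine exists_congr fun w => and_congr_right fun hw => ?_
    rw [← ih (w ++ j) (by simp; omega), List.length_append, hw,
      show 8 * j.length + j.length = 9 * j.length by omega]

/-- One diagonal stage, for a given padding exponent. -/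
def DiagW (c : ℕ → ℕ) : Prop :=
  ∀ K d e : ℕ, ∀ᶠ n in Filter.atTop,
    ∀ (lv β : List Bool → ℕ) (mu nu : List Bool → Fn (List Bool)) (Act : Set (List Bool))
      (A₀ : Lang) (f : Fn (List Bool)),
      (∀ u ∈ Act, Small c lv β mu nu u ∧ lv u ≤ K) →
      (∀ l b, ∃ I : Finset (List Bool), I.card ≤ (K + 1) * 2 ^ b ∧
        ∀ u ∈ Act, u.length = l → β u ≤ b → u ∈ I) →
      (∀ A, Agl n A₀ A → Lg lv mu Act A → ∀ u ∈ Act, nu u A = !mu u A) →
      Lg lv mu Act A₀ → List.replicate n false ∉ Act → f ∈ Ac (n ^ e) d →
      (∀ A A' : Lang, (∀ v, v.length < n ^ e → A v = A' v) → f A = f A') →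
      ∃ A, Agl n A₀ A ∧ Lg lv mu Act A ∧
        f A ≠ nw (d + 1) (rowOf A (List.replicate n false)) (rt n 0)

end Pool.Agent.MP_a2d820_lc.h22p
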