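import Mathlib
import Pool.Agent.MP_a2d820_lc.h22.V2
import Pool.Agent.MP_a2d820_lc.h31p.Spec2

/-!
The data of a stage, built from the active rows and the machine that is to be defeated.
-/

set_option autoImplicit false

namespace Pool.Agent.MP_a2d820_lc.h22v

open Finset Pool.Agent.MP_a2d820_lc.h69 Pool.Agent.MP_a2d820_lc.h31u Pool.Agent.PolyT Function
open Pool.Agent.MP_a2d820_lc.h70 (Fn Agl Ac)
open Pool.Agent.MP_a2d820_lc.h31p (nw rowOf prt cw Env Core2Stmt)
open Pool.Agent.MP_a2d820_lc.h22p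

theorem cw_poly (h : ℕ) (P : Polynomial ℕ) :
    ∃ Q : Polynomial ℕ, ∀ t, cw h (P.eval t) = Q.eval t := by
  induction h with
  | zero => exact ⟨P ^ 2, fun t => by simp [cw]⟩
  | succ h ih =>
    obtain ⟨Q, hQ⟩ := ih
    exact ⟨60 * (P * Q) ^ 5, fun t => by simp [cw, hQ]⟩

theorem cw_mono (h : ℕ) {t t' : ℕ} (ht : t ≤ t') : cw h t ≤ cw h t' := by
  induction h with
  | zero => exact Nat.pow_le_pow_left ht 2
  | succ h ih => exact Nat.mul_le_mul_left _ (Nat.pow_le_pow_left (Nat.mul_le_mul ht ih) 5)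

theorem exists_exp (k : ℕ) : ∃ e, 2 ≤ e ∧ ∀ b, 2 ≤ b → 6 * b ^ 3 * cw k b ≤ b ^ e := by
  obtain ⟨Q, hQ⟩ := cw_poly k Polynomial.X
  obtain ⟨c, hc⟩ := poly_le_pow (6 * Polynomial.X ^ 3 * Q)
  refine ⟨2 * c + 2, by omega, fun b hb => ?_⟩
  have h1 := hc b
  have h2 := hQ b
  simp only [Polynomial.eval_mul, Polynomial.eval_ofNat, Polynomial.eval_pow,
    Polynomial.eval_X] at h1 h2
  rw [h2]
  refine h1.trans ((Nat.pow_le_pow_left (show b + 2 ≤ b ^ 2 by nlinarith) c).trans ?_)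
  rw [← pow_mul]
  exact Nat.pow_le_pow_right (by omega) (by omega)

/-- The integer root. -/
def mm (l e : ℕ) : ℕ := Nat.findGreatest (fun b => b ^ e ≤ l) l

theorem le_mm {l e b : ℕ} (he : 1 ≤ e) (h : b ^ e ≤ l) : b ≤ mm l e :=
  Nat.le_findGreatest ((Nat.le_self_pow (by omega) b).trans h) h

theorem mm_pow (l : ℕ) {e : ℕ} (he : 1 ≤ e) : mm l e ^ e ≤ l :=
  Nat.findGreatest_spec (P := fun b => b ^ e ≤ l) (Nat.zero_le l) (by
    rw [zero_pow (by omega)]; exact Nat.zero_le l)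

theorem exists_root {C : ℕ} (hC : 1 ≤ C) (P : Polynomial ℕ) :
    ∀ᶠ n in Filter.atTop, ∃ b, 1 ≤ b ∧ b ^ C ≤ n ∧ P.eval n ≤ 2 ^ b := by
  obtain ⟨B, hB⟩ := Filter.eventually_atTop.1
    (poly_le_two_pow (P.comp ((Polynomial.X + 1) ^ C)) 1 one_pos)
  filter_upwards [Filter.eventually_ge_atTop ((B + 1) ^ C)] with n hn
  have h1 := le_mm hC hn
  have h2 := hB (mm n C) (by omega)
  simp only [Polynomial.eval_comp, Polynomial.eval_pow, Polynomial.eval_add, Polynomial.eval_X,
    Polynomial.eval_one, Nat.div_one] at h2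
  refine ⟨mm n C, by omega, mm_pow n hC, (eval_mono P ?_).trans h2⟩
  by_contra h3
  have := le_mm hC (not_le.1 h3).le
  omega

theorem tower {w N k : ℕ} {F : Finset (Lang → Bool)} (h : AC w N k (F : Set (Lang → Bool)))
    (hF : F.card ≤ N) : ∃ G : ℕ → Finset (Lang → Bool), G k = F ∧ (∀ i, (G i).card ≤ N) ∧
      (∀ g ∈ G 0, DT w g) ∧
      ∀ i < k, ∀ g ∈ G (i + 1), IsOr ((G i : Set _) ∪ {g | DT 1 g}) w g := by
  induction k generalizing F with
  | zero => exact ⟨fun _ => F, rfl, fun _ => hF, h, fun _ h => absurd h (by omega)⟩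
  | succ k ih =>
    obtain ⟨G₀, h1, h2, h3⟩ := h
    obtain ⟨G, rfl, a2, a3, a4⟩ := ih h2 h1
    refine ⟨fun i => if i = k + 1 then F else G i, if_pos rfl, fun i => ?_, a3, fun i hi => ?_⟩
    · dsimp only
      split_ifs
      exacts [hF, a2 i]
    · simp only [if_neg hi.ne]
      split_ifs with e
      · obtain rfl : i = k := by omega
        exact h3
      · exact a4 i (by omega)

theorem tower₂ {w m k : ℕ} (hm : w ≤ m) {f g : Lang → Bool} (hf : f ∈ Ac w k) (hg : g ∈ Ac w k) :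
    ∃ G : ℕ → Finset (Lang → Bool), f ∈ G k ∧ g ∈ G k ∧ (∀ i, (G i).card ≤ 2 ^ (m + 1)) ∧
      (∀ g ∈ G 0, DT m g) ∧
      ∀ i < k, ∀ g ∈ G (i + 1), IsOr ((G i : Set _) ∪ {g | DT 1 g}) m g := by
  classical
  obtain ⟨G, a1, a2, a3, a4⟩ := tower (F := {f}) (by rw [coe_singleton]; exact hf)
    (by simpa using Nat.one_le_two_pow)
  obtain ⟨G', b1, b2, b3, b4⟩ := tower (F := {g}) (by rw [coe_singleton]; exact hg)
    (by simpa using Nat.one_le_two_pow)
  refine ⟨fun i => G i ∪ G' i, by simp [a1], by simp [b1], fun i => ?_, fun q hq => ?_,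
    fun i hi q hq => ?_⟩
  · have := Nat.pow_le_pow_right two_pos hm
    have := a2 i
    have := b2 i
    refine (card_union_le (G i) (G' i)).trans ?_
    rw [pow_succ]
    omega
  · exact (mem_union.1 hq).elim (fun h => (a3 q h).mono hm) fun h => (b3 q h).mono hm
  · rw [coe_union]
    exact (mem_union.1 hq).elim
      (fun h => isOr_mono (a4 i hi q h) (Set.union_subset_union_left _ Set.subset_union_left) hm)
      fun h => isOr_mono (b4 i hi q h) (Set.union_subset_union_left _ Set.subset_union_right) hm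

theorem sum_rows {W : Finset (List Bool)} {m : List Bool → ℕ} {K T b₀ : ℕ}
    (h1 : ∀ u ∈ W, b₀ ≤ m u ∧ m u ≤ u.length ∧ u.length < T)
    (h2 : ∀ l b, #{u ∈ W | (u.length, m u) = (l, b)} ≤ (K + 1) * 2 ^ b)
    (h3 : 128 * (K + 1) * T ^ 2 ≤ 2 ^ b₀) : ∑ u ∈ W, (1 / 2 : ℝ) ^ (3 * m u) ≤ 1 / 128 := by
  rw [← sum_fiberwise_of_maps_to (t := range T ×ˢ range T) (g := fun u => (u.length, m u))
    fun u hu => by have := h1 u hu; simp; omega]
  refine (sum_le_card_nsmul _ _ ((K + 1) * (1 / 2 : ℝ) ^ b₀) ?_).trans ?_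
  · rintro ⟨l, b⟩ -
    rcases lt_or_ge b b₀ with h | h
    · rw [sum_eq_zero fun u hu => ?_]
      · positivity
      · have := h1 u (mem_filter.1 hu).1
        have := (Prod.mk.inj (mem_filter.1 hu).2).2
        omega
    · rw [sum_congr rfl fun u hu => by rw [(Prod.mk.inj (mem_filter.1 hu).2).2], sum_const,
        nsmul_eq_mul]
      have h4 : (#{u ∈ W | (u.length, m u) = (l, b)} : ℝ) ≤ (K + 1) * 2 ^ b := by
        exact_mod_cast h2 l b
      refine (mul_le_mul_of_nonneg_right h4 (by positivity)).trans ?_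
      rw [mul_assoc, show 3 * b = b + 2 * b by omega, pow_add, ← mul_assoc ((2 : ℝ) ^ b),
        ← mul_pow, show (2 : ℝ) * (1 / 2) = 1 by norm_num, one_pow, one_mul]
      exact mul_le_mul_of_nonneg_left
        (pow_le_pow_of_le_one (by norm_num) (by norm_num) (by omega)) (by positivity)
  · have h4 : (128 * (K + 1) * T ^ 2 : ℝ) ≤ 2 ^ b₀ := by exact_mod_cast h3
    rw [card_product, card_range, nsmul_eq_mul, one_div, inv_pow, ← mul_assoc, ← div_eq_mul_inv,
      div_le_iff₀ (by positivity)]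
    push_cast
    nlinarith

theorem diagV (h : Core2Stmt) : ∃ c, DiagV c := by
  classical
  choose c c1 c2 using exists_exp
  refine ⟨c, fun K d e => ?_⟩
  obtain ⟨P₀, hP₀⟩ := cw_poly d (Polynomial.X ^ (e + 2))
  have hC : ∀ k ≤ K, c k ≤ (range (K + 1)).sup c := fun k hk => le_sup (mem_range.2 (by omega))
  filter_upwards [exists_root (((by omega : 1 ≤ 2).trans (c1 0)).trans (hC 0 (Nat.zero_le _)))
      (128 * ((K : Polynomial ℕ) + 1) * (Polynomial.X ^ (e + 2)) ^ 2),
    poly_le_two_pow ((10000 * (Polynomial.X ^ (e + 2) * P₀) ^ 9) ^ (4 * (e + 4) + 1)) 1 one_pos,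
    poly_le_two_pow (2 * (9 ^ (K + d + 1) * Polynomial.X ^ (e + 3)) + 2) 1 one_pos,
    Filter.eventually_ge_atTop (8 * e + 64)] with n ⟨b₀, e0, e1, e2⟩ e3 e4 e5 lv β mu nu Act A₀ f
    hS hcnt hP hA₀ hx hf hloc
  simp only [Polynomial.eval_mul, Polynomial.eval_pow, Polynomial.eval_add, Polynomial.eval_X,
    Polynomial.eval_ofNat, Polynomial.eval_natCast, Polynomial.eval_one, Nat.cast_id, Nat.div_one,
    ← hP₀] at e2 e3 e4
  set T := n ^ (e + 2) with hT
  have t1 : n ^ e ≤ T := Nat.pow_le_pow_right (by omega) (by omega)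
  have t3 : n < T := (pow_one n).ge.trans_lt (Nat.pow_lt_pow_right (by omega) (by omega))
  have t4 : n ^ (e + 3) = T * n := pow_succ _ _
  have t5 : 64 * T ≤ T * n := by nlinarith
  set x := List.replicate n false with hxd
  set o := List.replicate (T * n) false with hod
  have lx : x.length = n := by simp [hxd]
  have lo : o.length = T * n := by simp [hod]
  let W : Finset (List Bool) := (lists T).filter fun u => u ∈ Act ∧ n ≤ u.length ∧ u.length < T
  have hW : ∀ u, u ∈ W ↔ u ∈ Act ∧ n ≤ u.length ∧ u.length < T := fun u =>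
    mem_filter.trans (and_iff_right_of_imp fun h => mem_lists.2 h.2.2.le)
  have xW : x ∉ W := fun h => hx ((hW x).1 h).1
  have oW : o ∉ W := fun h => by have := (hW o).1 h; omega
  have ox : o ≠ x := fun h => by have := congrArg List.length h; omega
  have hm : ∀ u ∈ W, β u ≤ mm u.length (c (lv u)) ∧ 2 ≤ mm u.length (c (lv u)) ∧
      b₀ ≤ mm u.length (c (lv u)) ∧
      mm u.length (c (lv u)) * mm u.length (c (lv u)) ≤ u.length := fun u hu => by
    obtain ⟨a1, a2, -⟩ := (hW u).1 hu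
    obtain ⟨a3, a4⟩ := hS u a1
    have a5 := c1 (lv u)
    have a6 := le_mm (by omega) a3.2.2.1
    have a7 := a3.1
    exact ⟨a6, by omega, le_mm (by omega) ((Nat.pow_le_pow_right e0 (hC _ a4)).trans (by omega)),
      (pow_two _).symm.trans_le ((Nat.pow_le_pow_right (by omega) a5).trans
        (mm_pow _ (by omega)))⟩
  choose! G g1 g2 g3 g4 g5 using fun u (hu : u ∈ W) => tower₂ (hm u hu).1
    (hS u ((hW u).1 hu).1).1.2.2.2.1 (hS u ((hW u).1 hu).1).1.2.2.2.2.1
  obtain ⟨Go, o1, -, o3, o4, o5⟩ := tower₂ t1 hf hf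
  let E : Env := ⟨insert x (insert o W), fun u => if u ∈ W then lv u else d + 1, List.length,
    fun u => if u ∈ W then mm u.length (c (lv u)) else if u = x then 2 else T,
    fun u => Nat.log n u.length, fun u => if u ∈ W then mu u else fun _ => false,
    fun u => if u ∈ W then nu u else fun _ => false,
    fun u => if u ∈ W then G u else if u = x then fun _ => ∅ else Go, A₀, x, n, n, d, e + 4,
    10000 * (T * cw d T) ^ 9, 9 ^ (K + d + 1) * n ^ (e + 3)⟩
  have hI : ∀ u ∈ E.I, u = x ∨ u = o ∨ u ∈ W := fun u hu => by simpa [E] using hu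
  have iW : ∀ u ∈ W, u ∈ E.I := fun u hu => mem_insert_of_mem (mem_insert_of_mem hu)
  have vW : ∀ u ∈ W, E.lv u = lv u ∧ E.m u = mm u.length (c (lv u)) ∧ E.mu u = mu u ∧
      E.nu u = nu u ∧ E.G u = G u := fun u hu => by simp [E, hu]
  have vx : E.lv x = d + 1 ∧ E.m x = 2 ∧ (E.mu x = fun _ => false) ∧ (E.nu x = fun _ => false) ∧
      E.G x = fun _ => ∅ := by simp [E, xW]
  have vo : E.lv o = d + 1 ∧ E.m o = T ∧ (E.mu o = fun _ => false) ∧ (E.nu o = fun _ => false) ∧
      E.G o = Go := by simp [E, oW, ox]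
  have hd : ∀ u ∈ E.I, E.lv u ≤ d → u ∈ W := fun u hu h => by
    rcases hI u hu with rfl | rfl | h'
    · omega
    · omega
    · exact h'
  have hl : ∀ u ∈ E.I, n ≤ u.length ∧ u.length ≤ T * n ∧ 1 ≤ E.m u ∧ E.m u ≤ T ∧
      8 * E.m u ≤ u.length ∧ E.lv u ≤ K + d + 1 ∧ ∀ l, n ≤ l → l < E.m u → l * n ≤ u.length := by
    intro u hu
    rcases hI u hu with rfl | rfl | h'
    · rw [vx.1, vx.2.1, lx]
      exact ⟨le_rfl, by omega, by omega, by omega, by omega, by omega, fun l _ _ => by omega⟩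
    · rw [vo.1, vo.2.1, lo]
      exact ⟨by omega, le_rfl, by omega, le_rfl, by omega, by omega,
        fun l _ h => Nat.mul_le_mul_right _ h.le⟩
    · obtain ⟨a1, a2, a3⟩ := (hW u).1 h'
      obtain ⟨-, a4, -, a5⟩ := hm u h'
      have a6 := (hS u a1).2
      rw [(vW u h').1, (vW u h').2.1]
      exact ⟨a2, by omega, by omega, by nlinarith, by nlinarith, by omega,
        fun l _ _ => le_trans (Nat.mul_le_mul (by omega) (by omega)) a5⟩
  have hlay : ∀ u ∈ E.I, ∀ v ∈ E.I, E.rl v < E.m u → E.ly v < E.ly u := fun u hu v hv h => by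
    have a1 := (hl v hv).1
    have a2 := Nat.log_mono_right (b := n) ((hl u hu).2.2.2.2.2.2 _ a1 h)
    rwa [Nat.log_mul_base (by omega) (by omega)] at a2
  have hleg : ∀ A M, M ≤ T → Agl n A₀ A → (∀ v ∈ W, v.length < M → E.Leg2 A v) →
      Lg2 lv mu nu {v ∈ Act | v.length < M} A := fun A M hM a1 a2 v hv => by
    by_cases a3 : v.length < n
    · exact lg2 (hS v hv.1).1 a3 a1 (hA₀ v hv.1)
    · have a4 := (hW v).2 ⟨hv.1, by omega, hv.2.trans_le hM⟩
      have a5 := a2 v a4 hv.2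
      rwa [Env.Leg2, (vW v a4).1, (vW v a4).2.2.1, (vW v a4).2.2.2.1] at a5
  have hOk : E.Ok2 := by
    refine ⟨⟨fun u hu => ?_, hlay, fun u hu => ?_, fun u hu i a1 a2 => ?_, fun u hu i => ?_,
      fun u hu a1 => ⟨isOr_of_dtq (.const _ false), isOr_of_dtq (.const _ true)⟩,
      fun u hu => ⟨fun _ _ _ => rfl, fun _ _ _ => rfl⟩, fun _ _ _ _ _ _ => rfl,
      fun u hu a1 => ?_, ?_, fun u hu => ?_, e3, ?_, e4, mem_insert_self _ _, vx.1.ge⟩,
      fun u hu a1 => ?_, fun u hu => ?_, fun A a1 u hu a2 a3 => ?_⟩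
    · obtain ⟨a1, a2, a3, -, a4, a5, -⟩ := hl u hu
      refine ⟨a1, a1, a3, a4, show 5 * E.m u + (e + 4) + 2 ≤ u.length by omega, Nat.lt_two_pow_self.le,
        Nat.mul_le_mul (Nat.pow_le_pow_right (by omega) a5) (t4 ▸ a2),
        Nat.log_lt_of_lt_pow (by omega) (a2.trans_lt ?_)⟩
      rw [← t4]
      exact Nat.pow_lt_pow_right (by omega) (show e + 3 < e + 4 by omega)
    · rcases hI u hu with rfl | rfl | h'
      · simp [vx.2.2.2.2]
      · rw [vo.2.1, vo.2.2.2.2]
        exact o4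
      · rw [(vW u h').2.1, (vW u h').2.2.2.2]
        exact g4 u h'
    · rcases hI u hu with rfl | rfl | h'
      · simp [vx.2.2.2.2]
      · rw [vo.2.1, vo.2.2.2.2]
        exact o5 i a2
      · rw [(vW u h').1] at a1
        rw [(vW u h').2.1, (vW u h').2.2.2.2]
        exact g5 u h' i (by omega)
    · rcases hI u hu with rfl | rfl | h'
      · simp [vx.2.2.2.2]
      · rw [vo.2.1, vo.2.2.2.2]
        exact o3 i
      · rw [(vW u h').2.1, (vW u h').2.2.2.2]
        exact g3 u h' i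
    · have h' := hd u hu a1
      rw [(vW u h').1, (vW u h').2.1]
      exact (c2 _ _ (hm u h').2.1).trans (mm_pow _ (by have := c1 (lv u); omega))
    · have a1 := sum_rows (W := W) (m := E.m) (K := K) (T := T) (b₀ := b₀) (fun u hu => by
        have := hl u (iW u hu)
        have := (hW u).1 hu
        have := hm u hu
        rw [← (vW u hu).2.1] at this
        omega) (fun l b => by
        obtain ⟨I, i1, i2⟩ := hcnt l b
        refine (card_le_card fun u hu => ?_).trans i1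
        obtain ⟨b1, b2⟩ := mem_filter.1 hu
        obtain ⟨b3, b4⟩ := Prod.mk.inj b2
        exact i2 u ((hW u).1 b1).1 b3 (by rw [← b4, (vW u b1).2.1]; exact (hm u b1).1)) e2
      have a2 : (1 / 2 : ℝ) ^ (3 * T) ≤ (1 / 2) ^ 7 :=
        pow_le_pow_of_le_one (by norm_num) (by norm_num) (by omega)
      change ∑ u ∈ insert x (insert o W), _ ≤ _
      rw [sum_insert (by simp [xW, ox.symm]), sum_insert oW, vx.2.1, vo.2.1]
      norm_num at a1 a2 ⊢
      linarith
    · have a1 := (hl u hu).2.2.2.1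
      exact Nat.mul_le_mul_left _ (Nat.pow_le_pow_left (Nat.mul_le_mul a1 (cw_mono _ a1)) 9)
    · refine (card_le_card fun u hu => mem_lists.2 (hl u hu).2.1).trans
        ((card_lists _).le.trans (Nat.pow_le_pow_right two_pos ?_))
      have : 9 ^ 1 ≤ 9 ^ (K + d + 1) := Nat.pow_le_pow_right (by omega) (by omega)
      change _ ≤ 9 ^ (K + d + 1) * n ^ (e + 3)
      rw [t4]
      nlinarith
    · obtain ⟨b1, b2, b3, b4, b5⟩ := vW u (hd u hu a1)
      rw [b1, b2, b3, b4, b5]
      exact ⟨g5 u (hd u hu a1) _ (by omega) _ (g1 u (hd u hu a1)),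
        g5 u (hd u hu a1) _ (by omega) _ (g2 u (hd u hu a1))⟩
    · rcases hI u hu with rfl | rfl | h'
      · rw [vx.2.2.1, vx.2.2.2.1]
        exact ⟨fun _ _ _ => rfl, fun _ _ _ => rfl⟩
      · rw [vo.2.2.1, vo.2.2.2.1]
        exact ⟨fun _ _ _ => rfl, fun _ _ _ => rfl⟩
      · obtain ⟨-, b2, b3, b4, -⟩ := vW u h'
        have b5 := fun A A' (h : ∀ s : List Bool, s.length < mm u.length (c (lv u)) → A s = A' s) =>
          (hS u ((hW u).1 h').1).1.2.2.2.2.2 A A' fun v hv => h v (hv.trans_le (hm u h').1)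
        rw [b2, b3, b4]
        exact ⟨fun A A' h => (b5 A A' h).1, fun A A' h => (b5 A A' h).2⟩
    · have h' := hd u hu a2
      obtain ⟨-, b2, b3, b4, -⟩ := vW u h'
      obtain ⟨b5, -, b6⟩ := (hW u).1 h'
      have b7 := (hS u b5).1
      have b8 := b7.2.1
      obtain ⟨A', b9, b10⟩ := complete2 (fun u hu => (hS u hu).1) A (max (β u) n)
        (hleg A _ (by omega) a1 fun v hv h => a3 v (iW v hv) (fun e : v = x => xW (e ▸ hv))
          (hlay u hu v (iW v hv) (by
            have := ((hW v).1 hv).2.1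
            have := (hm u h').1
            rw [b2]
            exact show v.length < _ by omega)))
      rw [b3, b4, (b7.loc (le_max_left _ _) b9).1, (b7.loc (le_max_left _ _) b9).2]
      exact hP A' (fun s hs => (a1 s hs).trans (b9 s (hs.trans_le (le_max_right _ _)))) b10 u b5
  obtain ⟨A, a1, a2, a3⟩ := h E hOk o (mem_insert_of_mem (mem_insert_self _ _))
    (by rw [vo.1]; exact Nat.le_succ d) f (by rw [vo.2.2.2.2]; exact o1)
    (by rw [vo.2.1]; exact fun A A' h => hloc A A' fun v hv => h v (by omega))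
  obtain ⟨A', b1, b2⟩ := complete2 (fun u hu => (hS u hu).1) A T
    (hleg A T le_rfl a1 fun v hv _ => a2 v (iW v hv) fun e : v = x => xW (e ▸ hv))
  rw [vx.1, show E.rl E.x = n from lx] at a3
  refine ⟨A', fun s hs => (a1 s hs).trans (b1 s (by omega)), b2, ?_⟩
  rwa [← hloc A A' fun v hv => b1 v ((lev_le v).trans_lt (by omega)),
    ← show rowOf A x = rowOf A' x from funext fun j => b1 _ (by rw [lev_ad]; omega)]

end Pool.Agent.MP_a2d820_lc.h22v
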